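import Pool.Agent.Work.MP_327059_nt.QF.Defs

/-!
# MP_327059_nt, second part: statements of the analytic part

`GSL.StmtDet`, `GSL.StmtCost`, `GSL.StmtHerm`, `GSL.StmtInterp`, `GSL.StmtCoef`, `GSL.StmtRank`,
`GSL.StmtCount`, `GSL.StmtL1`, `GSL.StmtSel` are used unchanged.
-/

open Polynomial Filter Topology

namespace GSQ

/-! ### Algebra -/

/-- Base change of the determinant polynomial. -/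
def StmtMap : Prop := ∀ (R R' : Type) [CommRing R] [CommRing R'] (f : R →+* R') (β : R) (t n : ℤ)
  (a₁ a₂ : R) (A₀ B₀ : R[X]) (S L₀ T : ℕ) (e : GSL.Ix S L₀ → GSL.Ix S T) (OT AT : ℕ),
  (DP β t n a₁ a₂ A₀ B₀ e OT AT).map f =
    DP (f β) t n (f a₁) (f a₂) (A₀.map f) (B₀.map f) e OT AT

/-- Integrality. -/
def StmtInt : Prop := ∀ (R : Type) [CommRing R] (β : R) (t n : ℤ) (a₁ a₂ : R) (A₀ B₀ : R[X]),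
  IsIntegral ℤ β → IsIntegral ℤ a₁ → IsIntegral ℤ a₂ → (∀ i, IsIntegral ℤ (A₀.coeff i)) →
    (∀ i, IsIntegral ℤ (B₀.coeff i)) →
    ∀ (S L₀ T : ℕ) (e : GSL.Ix S L₀ → GSL.Ix S T) (OT AT : ℕ),
      ∀ i, IsIntegral ℤ ((DP β t n a₁ a₂ A₀ B₀ e OT AT).coeff i)

/-- The separation property of `ℤ + ℤ β`. -/
def StmtSep : Prop := ∀ (β : ℂ) (t n : ℤ), β ^ 2 = t * β - n → (∀ r : ℚ, β ≠ r) → Sep 1 β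

/-- The complex data of the data over `F`. -/
def StmtCD : Prop := ∀ (F : Type) [Field F] [NumberField F] (D : DatF F), ∃ E : CDat,
  E.β = D.φ D.β ∧ E.l = D.l ∧ E.t = D.t ∧ E.n = D.n ∧ E.a₁ = D.φ D.a₁ ∧ E.a₂ = D.φ D.a₂ ∧
    E.A₀ = D.A₀.map D.φ ∧ E.B₀ = D.B₀.map D.φ ∧ E.Y = D.Y ∧
    ∀ (S L₀ T : ℕ) (e : GSL.Ix S L₀ → GSL.Ix S T) (OT AT : ℕ),
      (D.DP e OT AT).map D.φ = E.DP e OT AT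

/-- Data from the hypothesis. -/
def StmtAlgF : Prop := ∀ (F : IntermediateField ℚ ℂ) [NumberField F] (β l : ℂ) (t n : ℤ),
  β ∈ F → β ^ 2 = t * β - n → (∀ r : ℚ, β ≠ r) → l ≠ 0 → Complex.exp l ∈ F →
    l ∈ IntermediateField.adjoin F {Complex.exp (β * l)} →
      ∃ D : DatF F, D.φ = algebraMap F ℂ ∧ D.φ D.β = β ∧ D.l = l

/-! ### Lattices -/

/-- Product of distances of lattice points. -/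
def StmtLat : Prop := ∀ u₁ u₂ : ℂ, Sep u₁ u₂ → ∀ ε : ℝ, 0 < ε → ε < 1 →
  ∃ S₁ : ℕ, ∀ S : ℕ, S₁ ≤ S → ∀ p ∈ GSL.circ S,
    Real.exp ((1 - ε) * (GSL.circ S).card * Real.log S) ≤
      ∏ p' ∈ (GSL.circ S).erase p, ‖(p.1 * u₁ + p.2 * u₂ : ℂ) - (p'.1 * u₁ + p'.2 * u₂)‖

/-- Hermite basis polynomials for the lattice points of a disc. -/
def StmtHermLat : Prop := ∀ u₁ u₂ : ℂ, Sep u₁ u₂ → ∀ θ : ℝ, 0 < θ → θ < 1 →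
  ∃ S₁ : ℕ, ∀ S : ℕ, S₁ ≤ S → ∀ T : ℕ, 1 ≤ T → ∃ h : {p : ℤ × ℤ // p ∈ GSL.circ S} → ℕ → ℂ[X],
    (∀ i, ∀ tau < T, (h i tau).natDegree < T * Fintype.card {p : ℤ × ℤ // p ∈ GSL.circ S}) ∧
    (∀ i, ∀ tau < T, ∀ j, ∀ tau' < T, (derivative^[tau'] (h i tau)).eval
      (j.1.1 * u₁ + j.1.2 * u₂ : ℂ) = if j = i ∧ tau' = tau then 1 else 0) ∧
    ∀ r' : ℝ, S ≤ r' → (‖u₁‖ + ‖u₂‖) * S ≤ r' → ∀ i, ∀ tau < T, ∀ z : ℂ, ‖z‖ ≤ r' →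
      ‖(h i tau).eval z‖ ≤
        Real.exp (T * (GSL.circ S).card * (Real.log r' - (1 - θ) * Real.log S))

/-! ### The determinant polynomials -/

/-- The value of the determinant polynomial. -/
def StmtEval : Prop := ∀ (D : CDat) (S L₀ T : ℕ) (e : GSL.Ix S L₀ → GSL.Ix S T) (OT AT : ℕ),
  Good D.t D.n e OT AT → ∀ y : ℂ, y ≠ 0 → D.A₀.eval y ≠ 0 →
    (D.DP e OT AT).eval y = y ^ OT * (D.a₁ * D.a₂) ^ AT * (∏ r, D.A₀.eval y ^ ((e r).1 : ℕ)) *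
      Matrix.det (Matrix.of fun s r : GSL.Ix S L₀ =>
        D.ent (D.B₀.eval y / D.A₀.eval y) y r (e s))

/-- Exponents of `Y` and `α`. -/
def StmtOT : Prop := ∀ (t n : ℤ) (ε : ℝ), 0 < ε → ε < 1 → ∃ (S₁ : ℕ) (CA : ℕ), ∀ S : ℕ, S₁ ≤ S →
  ∀ L₀ T : ℕ, (T : ℝ) ≤ (1 + ε) * L₀ → ∀ e : GSL.Ix S L₀ → GSL.Ix S T, Function.Injective e →
    Good t n e ⌊(1 + ε) / 2 * S ^ 2 * (L₀ * (GSL.circ S).card)⌋₊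
      (CA * S ^ 2 * (L₀ * (GSL.circ S).card))

/-- Degree and height of the determinant polynomial. -/
def StmtHeight : Prop := ∀ (β : ℂ) (t n : ℤ) (a₁ a₂ : ℂ) (A₀ B₀ : ℂ[X]) (CA : ℕ) (ε : ℝ),
  0 < ε → ε < 1 →
  ∃ (C₁ c₁ : ℝ) (S₁ : ℕ), 0 < C₁ ∧ 0 < c₁ ∧ ∀ S L₀ T : ℕ, S₁ ≤ S →
    C₁ * S ^ 2 ≤ L₀ * Real.log S → (L₀ : ℝ) ≤ c₁ * S ^ 2 → (T : ℝ) ≤ (1 + ε) * L₀ →
    ∀ (e : GSL.Ix S L₀ → GSL.Ix S T), Function.Injective e → ∀ OT AT : ℕ,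
      (OT : ℝ) ≤ (1 + ε) / 2 * S ^ 2 * (L₀ * (GSL.circ S).card) →
      AT ≤ CA * S ^ 2 * (L₀ * (GSL.circ S).card) → Good t n e OT AT →
      ((DP β t n a₁ a₂ A₀ B₀ e OT AT).natDegree : ℝ) ≤
        (1 + 2 * ε) * (L₀ * (GSL.circ S).card) * S ^ 2 ∧
      GSL.l1 (DP β t n a₁ a₂ A₀ B₀ e OT AT) ≤
        Real.exp ((1 + 4 * ε) * (L₀ * (GSL.circ S).card) * (L₀ * Real.log S))

/-- Degree and height over `F`, all embeddings. -/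
def StmtHeightF : Prop := ∀ (F : Type) [Field F] [NumberField F] (D : DatF F) (CA : ℕ) (ε : ℝ),
  0 < ε → ε < 1 →
  ∃ (C₁ c₁ : ℝ) (S₁ : ℕ), 0 < C₁ ∧ 0 < c₁ ∧ ∀ S L₀ T : ℕ, S₁ ≤ S →
    C₁ * S ^ 2 ≤ L₀ * Real.log S → (L₀ : ℝ) ≤ c₁ * S ^ 2 → (T : ℝ) ≤ (1 + ε) * L₀ →
    ∀ (e : GSL.Ix S L₀ → GSL.Ix S T), Function.Injective e → ∀ OT AT : ℕ,
      (OT : ℝ) ≤ (1 + ε) / 2 * S ^ 2 * (L₀ * (GSL.circ S).card) →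
      AT ≤ CA * S ^ 2 * (L₀ * (GSL.circ S).card) → Good D.t D.n e OT AT →
      ((D.DP e OT AT).natDegree : ℝ) ≤ (1 + 2 * ε) * (L₀ * (GSL.circ S).card) * S ^ 2 ∧
      ∀ τ : F →+* ℂ, GSL.l1 ((D.DP e OT AT).map τ) ≤
        Real.exp ((1 + 4 * ε) * (L₀ * (GSL.circ S).card) * (L₀ * Real.log S))

/-! ### The expansion of the entries -/

/-- The expansion of the entries. -/
def StmtExp : Prop := ∀ (l' ε' s w w' ζ ζ' : ℂ) (lam tau : ℕ),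
  HasSum (fun m => Pc l' ε' w w' lam m * Qc s ζ ζ' tau m)
    (GSL.ent0 (s * l') w ζ lam tau * Complex.exp (w * ζ * l' + w' * ζ' * ε'))

/-- Bounds for the expansion. -/
def StmtExpBd : Prop := ∀ (l' ε' s w w' ζ ζ' : ℂ) (lam tau : ℕ) (R₁ E y : ℝ), 1 ≤ R₁ →
  ‖w‖ ≤ R₁ → ‖w'‖ ≤ R₁ → ‖ζ‖ ≤ R₁ → ‖ζ'‖ ≤ R₁ → (tau : ℝ) ≤ R₁ ^ 2 → 1 ≤ E →
  (lam : ℝ) * tau * ‖1 - s‖ ≤ Real.exp (-y) → R₁ ^ 2 * ‖ε'‖ ≤ Real.exp (-y) →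
  ∀ m : ℕ × ℕ × ℕ,
    ‖Pc l' ε' w w' lam m‖ * ‖Qc s ζ ζ' tau m‖ ≤
      (Real.exp (2 * R₁ ^ 2 * E * ‖l'‖) * (2 * R₁ * E) ^ lam) * (max 1 ‖s‖ * R₁) ^ tau *
        Real.exp (-(Real.log E * m.1 + y * (m.2.1 + m.2.2)))

/-- Local parameters near `Y`. -/
def StmtNear : Prop := ∀ D : CDat, ∃ r₀ C₁ : ℝ, 0 < r₀ ∧ r₀ < 1 ∧ 0 < C₁ ∧
  ∀ y : ℂ, ‖y - D.Y‖ ≤ r₀ → y ≠ 0 ∧ D.A₀.eval y ≠ 0 ∧ ‖y‖ ≤ C₁ ∧ ‖D.A₀.eval y‖ ≤ C₁ ∧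
    ∃ l' ε' s : ℂ, D.B₀.eval y / D.A₀.eval y = s * l' ∧ ‖ε'‖ ≤ C₁ * ‖y - D.Y‖ ∧
      ‖1 - s‖ ≤ C₁ * ‖y - D.Y‖ ∧ ‖s‖ ≤ 2 ∧ ‖l'‖ ≤ C₁ ∧ ‖l' - D.l‖ ≤ C₁ * ‖y - D.Y‖ ∧
      ∀ p q : ℤ × ℤ, (D.a₁ / D.a₂) ^ (GSL.Af D.t D.n p q) * y ^ (GSL.Bf p q) =
        Complex.exp (wv D.β p * zv D.t D.β q * l' +
          wv (D.t - D.β) p * zv D.t (D.t - D.β) q * ε')

/-! ### Estimates of the determinant polynomials -/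

/-- The estimate of the determinant polynomial, close to `Y`, general form. -/
def StmtE0 : Prop := ∀ (D : CDat) (CA : ℕ), ∃ (C₂ : ℝ) (S₁ : ℕ), 1 ≤ C₂ ∧ 1 < S₁ ∧
  ∀ S L₀ T : ℕ, S₁ ≤ S → 1 ≤ L₀ → (L₀ : ℝ) ≤ S ^ 2 → (T : ℝ) ≤ 2 * L₀ →
    ∀ (e : GSL.Ix S L₀ → GSL.Ix S T), Function.Injective e → ∀ OT AT : ℕ,
      OT ≤ S ^ 2 * (L₀ * (GSL.circ S).card) → AT ≤ CA * S ^ 2 * (L₀ * (GSL.circ S).card) →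
      Good D.t D.n e OT AT → ∀ y₁ : ℝ, 0 < y₁ → ∀ y : ℂ,
        ‖y - D.Y‖ ≤ Real.exp (-(y₁ + C₂ * Real.log S)) → ∀ E : ℝ, 1 < E → ∀ θ : ℝ, 0 < θ →
          θ < 1 → ∀ m : ℕ,
            ‖(D.DP e OT AT).eval y‖ ≤ Real.exp ((L₀ * (GSL.circ S).card : ℝ) *
              (C₂ * S ^ 2 * E + L₀ / 2 * (Real.log S + Real.log E + C₂) +
                (T : ℝ) ^ 2 / (2 * L₀) * (Real.log S + C₂) + C₂ * Real.log S +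
                Real.log (1 + 1 / (θ * Real.log E)) + 2 * Real.log (1 + 1 / (θ * y₁))) -
              (1 - θ) * GSL.Kc (L₀ * (GSL.circ S).card) (Real.log E) y₁ m)

/-- The estimate of the determinant polynomial, close to `Y`, first form (`m = 28`,
`E = exp (4096 y₁ / L)`). -/
def StmtE1 : Prop := ∀ (D : CDat) (CA : ℕ) (ε : ℝ), 0 < ε → ε < 1 →
  ∃ (C₁ c₁ : ℝ) (S₁ : ℕ), 0 < C₁ ∧ 0 < c₁ ∧ ∀ S L₀ T : ℕ, S₁ ≤ S →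
    C₁ * S ^ 2 ≤ L₀ * Real.log S → (L₀ : ℝ) ≤ c₁ * S ^ 2 → (T : ℝ) ≤ (1 + ε) * L₀ →
    ∀ (e : GSL.Ix S L₀ → GSL.Ix S T), Function.Injective e → ∀ OT AT : ℕ,
      (OT : ℝ) ≤ (1 + ε) / 2 * S ^ 2 * (L₀ * (GSL.circ S).card) →
      AT ≤ CA * S ^ 2 * (L₀ * (GSL.circ S).card) → Good D.t D.n e OT AT →
      ∀ s : ℝ, 0 ≤ s → s ≤ (1 - ε) * GSL.Vf S L₀ / 4096 → ∀ y : ℂ, ‖y - D.Y‖ ≤ Real.exp (-s) →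
        ‖(D.DP e OT AT).eval y‖ ≤ Real.exp ((L₀ * (GSL.circ S).card : ℝ) *
          ((1 + 5 * ε) * (L₀ * Real.log S) + 5 * ε * s) -
            104 / 5 * ((L₀ * (GSL.circ S).card : ℝ) * s))

/-- The estimate of the determinant polynomial, close to `Y`, second form. -/
def StmtE2 : Prop := ∀ (D : CDat) (CA : ℕ) (ε : ℝ), 0 < ε → ε < 1 →
  ∃ (C₁ c₁ : ℝ) (S₁ : ℕ), 0 < C₁ ∧ 0 < c₁ ∧ ∀ S L₀ T : ℕ, S₁ ≤ S →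
    C₁ * S ^ 2 ≤ L₀ * Real.log S → (L₀ : ℝ) ≤ c₁ * S ^ 2 → (T : ℝ) ≤ (1 + ε) * L₀ →
    ∀ (e : GSL.Ix S L₀ → GSL.Ix S T), Function.Injective e → ∀ OT AT : ℕ,
      (OT : ℝ) ≤ (1 + ε) / 2 * S ^ 2 * (L₀ * (GSL.circ S).card) →
      AT ≤ CA * S ^ 2 * (L₀ * (GSL.circ S).card) → Good D.t D.n e OT AT →
      ∀ z : ℝ, 1 / 6000 ≤ z → z ≤ 1 → ∀ m : ℕ, 1 ≤ m → m ≤ 30 → ∀ y : ℂ,
        ‖y - D.Y‖ ≤ Real.exp (-(z * GSL.Vf S L₀)) →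
        ‖(D.DP e OT AT).eval y‖ ≤
          Real.exp (-((GSL.Fj m z - ε) * ((L₀ * (GSL.circ S).card : ℝ) * GSL.Vf S L₀)))

/-! ### Non vanishing -/

/-- The entries at `γ` close to `Y` compared with the values of the exponential monomials
`z^lam e^(w l z)`. -/
def StmtDiff : Prop := ∀ (D : CDat) (θ : ℝ), 0 < θ → θ < 1 → ∃ (S₁ : ℕ), 1 < S₁ ∧
  ∀ S L₀ T : ℕ, S₁ ≤ S → (S : ℝ) ^ 2 ≤ L₀ * Real.log S → (L₀ : ℝ) ≤ S ^ 2 →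
    (T : ℝ) ≤ 2 * L₀ → ∀ V' : ℝ, GSL.Vf S L₀ ≤ V' → ∀ γ : ℂ, ‖γ - D.Y‖ ≤ Real.exp (-V') →
      γ ≠ 0 ∧ D.A₀.eval γ ≠ 0 ∧ ∀ (r : GSL.Ix S L₀) (c : GSL.Ix S T),
        ‖GSL.ent0 D.l (wv D.β r.2.1) (zv D.t D.β c.2.1) r.1 c.1 *
            Complex.exp (wv D.β r.2.1 * zv D.t D.β c.2.1 * D.l) -
          D.ent (D.B₀.eval γ / D.A₀.eval γ) γ r c‖ ≤ Real.exp (-V' + θ * GSL.Vf S L₀)

/-- Non vanishing. -/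
def StmtNV : Prop := ∀ (D : CDat) (ε : ℝ), 0 < ε → ε < 1 →
  ∃ (C₁ c₁ : ℝ) (S₁ : ℕ), 0 < C₁ ∧ 0 < c₁ ∧ ∀ S L₀ T : ℕ, S₁ ≤ S →
    C₁ * S ^ 2 ≤ L₀ * Real.log S → (L₀ : ℝ) ≤ c₁ * S ^ 2 → (1 + ε / 2) * L₀ ≤ (T : ℝ) →
    (T : ℝ) ≤ (1 + ε) * L₀ → ∀ OT AT : ℕ,
      (∀ e : GSL.Ix S L₀ → GSL.Ix S T, Function.Injective e → Good D.t D.n e OT AT) →
      ∀ γ : ℂ, ‖γ - D.Y‖ ≤ Real.exp (-((1 + ε) * GSL.Vf S L₀)) →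
        ∃ e : GSL.Ix S L₀ → GSL.Ix S T, Function.Injective e ∧ (D.DP e OT AT).eval γ ≠ 0

/-! ### The families -/

/-- The families at the scale `(S, L₀)`. -/
def StmtFamS : Prop := ∀ (F : Type) [Field F] [NumberField F] (D : DatF F) (ε : ℝ),
  0 < ε → ε < 1 → ∃ (C₁ c₁ : ℝ) (S₁ : ℕ), 0 < C₁ ∧ 0 < c₁ ∧ ∀ S L₀ : ℕ, S₁ ≤ S →
    C₁ * S ^ 2 ≤ L₀ * Real.log S → (L₀ : ℝ) ≤ c₁ * S ^ 2 →
      ∃ (L : ℝ) (Fm : Finset F[X]), 1 ≤ L ∧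
        FamF D.φ D.Y ε (S ^ 2) (L₀ * Real.log S) (GSL.Vf S L₀) L Fm

/-- The analytic part. -/
def StmtIfaceF : Prop := ∀ (F : Type) [Field F] [NumberField F] (D : DatF F), IfaceF D.φ D.Y

end GSQ
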