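import Pool.Agent.Work.MP_327059_nt.QF.Defs

/-!
# MP_327059_nt, second part: statements of the arithmetic part
-/

open Polynomial Filter Topology

namespace GSQ

/-- The norm polynomial has rational coefficients, integral ones if the polynomial has. -/
def StmtNr : Prop := ∀ (F : Type) [Field F] [NumberField F] (P : F[X]),
  (∃ f : ℚ[X], f.map (algebraMap ℚ ℂ) = ∏ τ : F →+* ℂ, P.map τ) ∧
  ((∀ i, IsIntegral ℤ (P.coeff i)) →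
    ∃ f : ℤ[X], f.map (Int.castRingHom ℂ) = ∏ τ : F →+* ℂ, P.map τ)

/-- Existence of the primitive norm polynomial. -/
def StmtNG : Prop := ∀ (F : Type) [Field F] [NumberField F] (Q : F[X]), Q.Monic →
  ∃ g : ℤ[X], IsNG Q g

/-- Multiplicativity and positivity of the sizes. -/
def StmtMul : Prop := ∀ (F : Type) [Field F] [NumberField F],
  (∀ (Q : F[X]) (g : ℤ[X]), Q.Monic → IsNG Q g → 0 ≤ hF Q g ∧ 0 ≤ Real.log g.leadingCoeff) ∧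
  (∀ (Q R : F[X]) (g h : ℤ[X]), Q.Monic → R.Monic → IsNG Q g → IsNG R h →
    IsNG (Q * R) (g * h) ∧ hF (Q * R) (g * h) = hF Q g + hF R h) ∧
  IsNG (1 : F[X]) 1

/-- Gauss' lemma for a polynomial with integral coefficients. -/
def StmtSuper : Prop := ∀ (F : Type) [Field F] [NumberField F] (c : F) (Q : F[X]) (g : ℤ[X]),
  c ≠ 0 → Q.Monic → IsNG Q g → (∀ i, IsIntegral ℤ ((C c * Q).coeff i)) →
    Real.log g.leadingCoeff ≤ ∑ τ : F →+* ℂ, Real.log ‖τ c‖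

/-- The product formula for the resultant of two coprime monic polynomials. -/
def StmtIntRes : Prop := ∀ (F : Type) [Field F] [NumberField F] (P Q : F[X]) (g h : ℤ[X]),
  P.Monic → Q.Monic → IsCoprime P Q → IsNG P g → IsNG Q h →
    0 ≤ (Q.natDegree : ℝ) * Real.log g.leadingCoeff + P.natDegree * Real.log h.leadingCoeff +
      ∑ τ : F →+* ℂ, ((P.map τ).roots.map fun x =>
        ((Q.map τ).roots.map fun y => Real.log ‖x - y‖).sum).sum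

/-- Liouville inequality. -/
def StmtLiou : Prop := ∀ (F : Type) [Field F] [NumberField F] (Q : F[X]) (g : ℤ[X]) (D : F[X]),
  Q.Monic → IsNG Q g → (∀ i, IsIntegral ℤ (D.coeff i)) → D ≠ 0 → IsCoprime Q D →
    0 ≤ (D.natDegree : ℝ) * Real.log g.leadingCoeff +
      ∑ τ : F →+* ℂ, ((Q.map τ).roots.map fun x => Real.log ‖(D.map τ).eval x‖).sum

/-- The mutual energy of two coprime polynomials. -/
def StmtPair : Prop := ∀ (F : Type) [Field F] [NumberField F] (φ : F →+* ℂ) (Y : ℂ)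
  (P Q : F[X]) (g h : ℤ[X]), P.Monic → Q.Monic → IsCoprime P Q → IsNG P g → IsNG Q h →
    (∀ x ∈ (P.map φ).roots, x ≠ Y) → (∀ y ∈ (Q.map φ).roots, y ≠ Y) →
      nphi φ * ((P.map φ).roots.map fun x =>
        ((Q.map φ).roots.map fun y => min (GSL.cl Y x) (GSL.cl Y y)).sum).sum ≤
        Q.natDegree * hF P g + P.natDegree * hF Q h +
          Module.finrank ℚ F * (P.natDegree * (Q.natDegree * Real.log 2))

/-- Jensen, with any leading coefficient. -/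
def StmtJenC : Prop := ∀ (Y c : ℂ) (N : ℕ) (x : Fin N → ℂ) (t B : ℝ), c ≠ 0 → 0 ≤ t →
  (∀ r, x r ≠ Y) → (∀ y : ℂ, ‖y - Y‖ ≤ Real.exp (-t) →
    ‖(C c * ∏ r, (X - C (x r))).eval y‖ ≤ Real.exp (-B)) →
    B + Real.log ‖c‖ ≤ ∑ r, min t (GSL.cl Y (x r))

/-- `Y` is transcendental. -/
def StmtTrans : Prop := ∀ (F : Type) [Field F] [NumberField F] (φ : F →+* ℂ) (Y : ℂ),
  IfaceF φ Y → ∀ P : F[X], P ≠ 0 → (P.map φ).eval Y ≠ 0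

/-- The closeness of a conjugacy class, square root form. -/
def StmtCloseS : Prop := ∀ (F : Type) [Field F] [NumberField F] (φ : F →+* ℂ) (Y : ℂ),
  IfaceF φ Y → ∀ ε : ℝ, 0 < ε → ε < 1 →
  ∃ ρm cp U₀ : ℝ, 0 < ρm ∧ 0 < cp ∧ 1 < U₀ ∧ ∀ (Q : F[X]) (g : ℤ[X]), Q.Monic → Irreducible Q →
    IsNG Q g → ∀ x₁ ∈ (Q.map φ).roots, x₁ ≠ Y →
      (∀ x ∈ (Q.map φ).roots, x ≠ Y ∧ GSL.cl Y x ≤ GSL.cl Y x₁) → U₀ ≤ GSL.cl Y x₁ →
      ∀ ρp : ℝ, ρm ≤ ρp → ρp ≤ cp * Real.log (GSL.cl Y x₁) →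
        ∀ f : ℝ → ℝ, (∀ q : ℝ, 0 ≤ q → q ≤ 1 → 0 ≤ f q ∧ Gn q (f q)) →
          nphi φ * (Real.sqrt (GSL.cl Y x₁) *
            ((Q.map φ).roots.map fun x => f (GSL.cl Y x / GSL.cl Y x₁)).sum) ≤
          (1 + ε) * (2 / Real.sqrt (2 * Real.pi)) *
            (Real.sqrt (Module.finrank ℚ F * Q.natDegree * hF Q g) +
              Module.finrank ℚ F * Q.natDegree * Real.sqrt ρm + hF Q g / Real.sqrt ρp)

/-- Generic combinations. -/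
def StmtGC : Prop := ∀ (F : Type) [Field F] [CharZero F] (D : Finset F[X]) (N M : ℕ),
  (∃ P ∈ D, P ≠ 0) → (∀ P ∈ D, P.natDegree ≤ N) →
    ∃ (G : F[X]) (u : Fin M → F[X] → ℕ) (P : Fin M → F[X]), G.Monic ∧ (∀ Q ∈ D, G ∣ Q) ∧
      (∀ i s, u i s ≤ M * N + 1) ∧ (∀ i, ∑ s ∈ D, (u i s : F[X]) * s = G * P i) ∧
      (∀ i, P i ≠ 0) ∧ ∀ i j, i ≠ j → IsCoprime (P i) (P j)

/-- Factorisation of a monic polynomial. -/
def StmtFac : Prop := ∀ (F : Type) [Field F] [NumberField F] (φ : F →+* ℂ) (G : F[X])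
  (g : ℤ[X]), G.Monic → IsNG G g → ∃ (s : Finset F[X]) (k : F[X] → ℕ) (h : F[X] → ℤ[X]),
    (∀ Q ∈ s, Q.Monic ∧ Irreducible Q ∧ IsNG Q (h Q) ∧ 0 ≤ hF Q (h Q) ∧
      ∀ x ∈ (Q.map φ).roots, x ∈ (G.map φ).roots) ∧
    (G.natDegree : ℝ) = ∑ Q ∈ s, (k Q : ℝ) * Q.natDegree ∧
    hF G g = ∑ Q ∈ s, (k Q : ℝ) * hF Q (h Q) ∧
    ∀ f : ℂ → ℝ, ((G.map φ).roots.map f).sum = ∑ Q ∈ s, (k Q : ℝ) * ((Q.map φ).roots.map f).sum

/-- Elementary properties of `Psi`. -/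
def StmtPsi : Prop := Psi 0 = 0 ∧ (∀ u v : ℝ, 0 ≤ u → u ≤ v → Psi u ≤ Psi v) ∧
  (∀ u : ℝ, 0 ≤ u → 0 ≤ Psi u ∧ Psi u ≤ 31 * u) ∧ (∀ u : ℝ, Psi u = Psi (min 1 u)) ∧
  (∀ u v : ℝ, 0 ≤ u → 0 ≤ v → Psi (u + v) ≤ Psi u + Psi v) ∧
  (∀ u ε : ℝ, 0 ≤ u → 0 ≤ ε → Psi ((1 + ε) * u) ≤ (1 + ε) * Psi u)

/-- The function of the last step satisfies the condition of `StmtCloseS`. -/
def StmtNum : Prop := ∀ η₁ : ℝ, 0 < η₁ → η₁ ≤ 1 → ∀ q : ℝ, 0 ≤ q → q ≤ 1 →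
  0 ≤ Psi (q * η₁) / (38 / 25 * Real.sqrt η₁) ∧ Gn q (Psi (q * η₁) / (38 / 25 * Real.sqrt η₁))

/-- The contribution of the gcd `G`. -/
def StmtGB : Prop := ∀ (F : Type) [Field F] [NumberField F] (φ : F →+* ℂ) (Y : ℂ),
  IfaceF φ Y → ∀ ε : ℝ, 0 < ε → ε < 1 → ∃ V₁ : ℝ, 1 < V₁ ∧ ∀ V : ℝ, V₁ ≤ V →
    ∀ (G : F[X]) (g : ℤ[X]) (D₀ : ℝ), G.Monic → IsNG G g →
      (∀ x ∈ (G.map φ).roots, x ≠ Y ∧ GSL.cl Y x ≤ (1 + ε) * V) →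
      (G.natDegree : ℝ) ≤ D₀ * Real.sqrt (V / (2 * Real.pi * Real.sqrt (Real.log V))) →
      hF G g ≤ D₀ * Real.sqrt (V * Real.sqrt (Real.log V) / (2 * Real.pi)) →
        nphi φ * ((G.map φ).roots.map fun x => Psi (GSL.cl Y x / V)).sum ≤
          (1 + 4 * ε) * (76 / 25 / Real.sqrt (2 * Real.pi)) *
            Real.sqrt (Module.finrank ℚ F * G.natDegree * hF G g / V) + ε * D₀

/-- The generic combinations of the families. -/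
def StmtOut : Prop := ∀ (F : Type) [Field F] [NumberField F] (φ : F →+* ℂ) (Y : ℂ),
  IfaceF φ Y → ∀ ε : ℝ, 0 < ε → ε < 1 → ∀ M : ℕ, ∃ V₁ : ℝ, 1 < V₁ ∧ ∀ V : ℝ, V₁ ≤ V →
    ∃ (L : ℝ) (G : F[X]) (g : ℤ[X]) (P : Fin M → F[X]) (h : Fin M → ℤ[X]), 1 ≤ L ∧
      Out φ Y ε (Real.sqrt (V / (2 * Real.pi * Real.sqrt (Real.log V))))
        (Real.sqrt (V * Real.sqrt (Real.log V) / (2 * Real.pi))) V L M G g P h

/-- Cauchy-Schwarz for the kernel `min`. -/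
def StmtCS : Prop := ∀ (ι : Type) [Fintype ι] (u : ι → ℝ), (∀ i, 0 ≤ u i) →
  (∑ i, Psi (u i)) ^ 2 ≤ 13606 / 10000 * ∑ i, ∑ j, min (u i) (u j)

/-- The contradiction in real numbers. -/
def StmtReal : Prop := ∃ (ε₀ : ℝ) (M : ℕ), 0 < ε₀ ∧ ε₀ < 1 ∧ 1 ≤ M ∧ ∀ ε : ℝ, 0 < ε → ε ≤ ε₀ →
  ∀ (L a b : ℝ) (ZG : Multiset ℝ) (Z : Fin M → Multiset ℝ), 0 < L → 0 ≤ a → a ≤ 1 + ε →
    0 ≤ b → b ≤ 1 + ε → (∀ z ∈ ZG, 0 ≤ z) → (∀ i, ∀ z ∈ Z i, 0 ≤ z) →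
    (∀ i, ∀ z : ℝ, 1 / 5000 ≤ z → z ≤ 1 → ∀ m : ℕ, 1 ≤ m → m ≤ 30 →
      (GSL.Fj m z - ε) * L ≤ (ZG.map (min z)).sum + ((Z i).map (min z)).sum) →
    (∀ i j, i ≠ j → ((Z i).map fun x => ((Z j).map (min x)).sum).sum ≤
      L ^ 2 * (2 / Real.pi * ((1 + ε - a) * (1 + ε - b)) + ε)) →
    (ZG.map Psi).sum ≤ L * ((1 + ε) * (76 / 25 / Real.pi) * Real.sqrt (a * b) + ε) → False

/-- The final contradiction. -/
def StmtFin : Prop := ∀ (F : Type) [Field F] [NumberField F] (φ : F →+* ℂ) (Y : ℂ),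
  Module.finrank ℚ F ≤ 2 * nphi φ → ¬ IfaceF φ Y

end GSQ
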