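import Mathlib
import Pool.Agent.Work.MP_327059_nt.QF.StmtsB
import Pool.Agent.Work.MP_327059_nt.Bd.B14

/-!
# MP_327059_nt, second part: the closeness of a conjugacy class, square root form
-/

open Polynomial

namespace GSQ

namespace CloseSX

theorem cl_nonneg (Y x : ℂ) : 0 ≤ GSL.cl Y x := le_max_left _ _

theorem norm_of_cl_pos {Y x : ℂ} (h : 0 < GSL.cl Y x) : ‖x - Y‖ = Real.exp (-GSL.cl Y x) := by
  unfold GSL.cl at h ⊢
  have h1 : 0 < -Real.log ‖x - Y‖ := by
    by_contra hcon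
    push Not at hcon
    rw [max_eq_left hcon] at h
    exact lt_irrefl _ h
  rw [max_eq_right h1.le, neg_neg, Real.exp_log]
  rcases (norm_nonneg (x - Y)).eq_or_lt with h2 | h2
  · rw [← h2] at h1
    simp at h1
  · exact h2

theorem log_max_one (t : ℝ) (ht : 0 ≤ t) : Real.log (max 1 t) = Real.posLog t := by
  show Real.log (max 1 t) = max 0 (Real.log t)
  rcases le_total 1 t with h | h
  · rw [max_eq_right h, max_eq_right (Real.log_nonneg h)]
  · rw [max_eq_left h, Real.log_one, max_eq_left (Real.log_nonpos ht h)]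

/-- The elementary inequality for the clamp. -/
theorem clamp {N h ρm ρp ρ : ℝ} (hN : 0 < N) (hh : 0 ≤ h) (hm : 0 < ρm) (hp : ρm ≤ ρp)
    (hρ : ρ = max ρm (min (h / N) ρp)) :
    N * √ρ + h / √ρ ≤ 2 * (√(N * h) + N * √ρm + h / √ρp) := by
  have hρp : 0 < ρp := hm.trans_le hp
  have h0 : 0 ≤ h / √ρp := by positivity
  have h0' : 0 ≤ N * √ρm := by positivity
  have h0'' : 0 ≤ √(N * h) := Real.sqrt_nonneg _
  rcases le_total (h / N) ρm with h1 | h1
  · have h2 : ρ = ρm := by rw [hρ, min_eq_left (h1.trans hp), max_eq_left h1]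
    rw [div_le_iff₀ hN] at h1
    have h3 : h / √ρ ≤ N * √ρm := by
      rw [h2, div_le_iff₀ (Real.sqrt_pos.2 hm), mul_assoc, Real.mul_self_sqrt hm.le]
      linarith
    rw [h2] at h3 ⊢
    linarith
  · rcases le_total (h / N) ρp with h4 | h4
    · have h2 : ρ = h / N := by rw [hρ, min_eq_left h4, max_eq_right h1]
      have hh' : 0 < h := by
        rw [le_div_iff₀ hN] at h1
        have : 0 < ρm * N := by positivity
        linarith
      have h3 : N * √ρ = √(N * h) := by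
        rw [h2]
        have e : N * h = N ^ 2 * (h / N) := by field_simp
        rw [e, Real.sqrt_mul (by positivity), Real.sqrt_sq hN.le]
      have h5 : h / √ρ = √(N * h) := by
        rw [h2, div_eq_iff (by positivity), ← Real.sqrt_mul (by positivity)]
        have e : N * h * (h / N) = h ^ 2 := by field_simp
        rw [e, Real.sqrt_sq hh]
      rw [h3, h5]
      linarith
    · have h2 : ρ = ρp := by rw [hρ, min_eq_right h4, max_eq_right hp]
      rw [le_div_iff₀ hN] at h4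
      have h3 : N * √ρ ≤ h / √ρp := by
        rw [h2, le_div_iff₀ (Real.sqrt_pos.2 hρp), mul_assoc, Real.mul_self_sqrt hρp.le]
        linarith
      rw [h2] at h3 ⊢
      linarith

section

variable {F : Type} [Field F] [NumberField F] {φ : F →+* ℂ} {Y : ℂ} {e δ σ V L : ℝ}
  {D : Finset F[X]}

/-- The bound for one root of any conjugate. -/
theorem all_root (hF : FamF φ Y e δ σ V L D) {P : F[X]} (hP : P ∈ D) (τ : F →+* ℂ) {x : ℂ}
    (hx : (P.map τ).eval x ≠ 0) :
    Real.log ‖(P.map τ).eval x‖ ≤ (1 + e) * L * σ + (1 + e) * L * δ * Real.posLog ‖x‖ := by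
  have hpos : 0 < ‖(P.map τ).eval x‖ := norm_pos_iff.2 hx
  obtain ⟨-, -, -, -, -, -, -, -, -, h2, -⟩ := GSL.lone
  have h3 := h2 (P.map τ) x
  have hl : 0 < GSL.l1 (P.map τ) := by
    by_contra hcon
    push Not at hcon
    have : ‖(P.map τ).eval x‖ ≤ 0 :=
      h3.trans (mul_nonpos_of_nonpos_of_nonneg hcon (by positivity))
    linarith
  have h4 : Real.log ‖(P.map τ).eval x‖ ≤
      Real.log (GSL.l1 (P.map τ)) + P.natDegree * Real.posLog ‖x‖ := by
    rw [← log_max_one _ (norm_nonneg x), ← Real.log_pow, ← Real.log_mul hl.ne' (by positivity)]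
    refine Real.log_le_log hpos ?_
    rwa [Polynomial.natDegree_map] at h3
  have h5 : Real.log (GSL.l1 (P.map τ)) ≤ (1 + e) * L * σ := by
    rw [Real.log_le_iff_le_exp hl]
    exact hF.height P hP τ
  have h6 : P.natDegree * Real.posLog ‖x‖ ≤ (1 + e) * L * δ * Real.posLog ‖x‖ :=
    mul_le_mul_of_nonneg_right (hF.deg P hP) Real.posLog_nonneg
  linarith

/-- The bound for one root, embedding `φ`. -/
theorem phi_root (hF : FamF φ Y e δ σ V L D) (he : 0 < e) (he1 : e ≤ 1 / 1000000) (hV : 0 < V)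
    (hL : 1 ≤ L) (hδ : 0 ≤ δ) (hσ : 0 ≤ σ) {P : F[X]} (hP : P ∈ D) {x : ℂ}
    (hx : (P.map φ).eval x ≠ 0) {q v : ℝ} (hq : q * ((1 + e) * V) = GSL.cl Y x) (hq0 : 0 ≤ q)
    (hq1 : q ≤ 1) (hv0 : 0 ≤ v) (hv : Gn q v) :
    Real.log ‖(P.map φ).eval x‖ ≤ (1 + e) * L * σ + (1 + e) * L * δ * Real.posLog ‖x‖ -
      L * (V * v) := by
  have hpos : 0 < ‖(P.map φ).eval x‖ := norm_pos_iff.2 hx
  have hpl : 0 ≤ (1 + e) * L * δ * Real.posLog ‖x‖ := by
    have := Real.posLog_nonneg (x := ‖x‖)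
    positivity
  have hL0 : 0 < L := by linarith
  rcases hv with ⟨h1, h2⟩ | ⟨h1, m, hm1, hm2, h2⟩
  · rcases hq0.eq_or_lt with h3 | h3
    · have hv' : v = 0 := by
        rw [← h3] at h2
        linarith
      rw [hv', mul_zero, mul_zero, sub_zero]
      exact all_root hF hP φ hx
    · have hcl : 0 < GSL.cl Y x := by rw [← hq]; positivity
      have h4 := norm_of_cl_pos hcl
      have hs0 : 0 ≤ (1 - e) * q * V := by
        have : 0 < 1 - e := by linarith
        positivity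
      have h5 := hF.E1 P hP ((1 - e) * q * V) hs0 (by
        have : 0 < 1 - e := by linarith
        calc (1 - e) * q * V = ((1 - e) * V) * q := by ring
          _ ≤ ((1 - e) * V) * (1 / 4096) := by gcongr
          _ = (1 - e) * V / 4096 := by ring) x (by
        rw [h4]
        apply Real.exp_le_exp.2
        rw [← hq]
        have : (1 - e) * (q * V) ≤ (1 + e) * (q * V) := by
          have : 0 ≤ q * V := by positivity
          nlinarith
        linarith)
      have h6 := (Real.log_le_iff_le_exp hpos).2 h5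
      have h7 : L * (V * v) ≤ L * (V * (41 / 2 * q)) := by gcongr
      have h8 : L * (V * (41 / 2 * q)) ≤ (104 / 5 - e) * (L * ((1 - e) * q * V)) := by
        have h9 : 41 / 2 ≤ (104 / 5 - e) * (1 - e) := by nlinarith
        have h10 : 0 ≤ L * (q * V) := by positivity
        nlinarith
      have h11 : L * ((1 + e) * σ + e * ((1 - e) * q * V)) - 104 / 5 * (L * ((1 - e) * q * V)) =
          (1 + e) * L * σ - (104 / 5 - e) * (L * ((1 - e) * q * V)) := by ring
      rw [h11] at h6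
      linarith
  · have hq0' : 0 < q := by linarith
    have hcl : 0 < GSL.cl Y x := by rw [← hq]; positivity
    have h4 := norm_of_cl_pos hcl
    have h5 := hF.E2 P hP q (by linarith) hq1 m hm1 (by omega) x (by
      rw [h4]
      apply Real.exp_le_exp.2
      rw [← hq]
      have : 0 ≤ e * (q * V) := by positivity
      nlinarith)
    have h6 := (Real.log_le_iff_le_exp hpos).2 h5
    have h7 : v * (L * V) ≤ (GSL.Fj m q - e) * (L * V) := by
      have : 0 ≤ L * V := by positivity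
      apply mul_le_mul_of_nonneg_right _ this
      linarith
    have h8 : 0 ≤ (1 + e) * L * σ := by positivity
    nlinarith

end

/-- Sums over the roots of the complex conjugate. -/
theorem conj_sum {F : Type} [Field F] (φ : F →+* ℂ) (Q P : F[X]) :
    ((Q.map ((starRingEnd ℂ).comp φ)).roots.map fun x =>
      Real.log ‖(P.map ((starRingEnd ℂ).comp φ)).eval x‖).sum =
      ((Q.map φ).roots.map fun x => Real.log ‖(P.map φ).eval x‖).sum ∧
    ((Q.map ((starRingEnd ℂ).comp φ)).roots.map fun x => Real.posLog ‖x‖).sum =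
      ((Q.map φ).roots.map fun x => Real.posLog ‖x‖).sum := by
  have h1 : (Q.map ((starRingEnd ℂ).comp φ)).roots = (Q.map φ).roots.map (starRingEnd ℂ) := by
    rw [← Polynomial.map_map]
    exact (IsAlgClosed.splits (Q.map φ)).roots_map (starRingEnd ℂ)
  rw [h1, Multiset.map_map, Multiset.map_map]
  constructor
  · congr 1
    refine Multiset.map_congr rfl fun x _ => ?_
    have h2 : (P.map ((starRingEnd ℂ).comp φ)).eval ((starRingEnd ℂ) x) =
        (starRingEnd ℂ) ((P.map φ).eval x) := by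
      rw [Polynomial.eval_map, Polynomial.eval_map, Polynomial.hom_eval₂]
    simp only [Function.comp]
    rw [h2, RCLike.norm_conj]
  · congr 1
    refine Multiset.map_congr rfl fun x _ => ?_
    simp only [Function.comp]
    rw [RCLike.norm_conj]

/-- The sum over the embeddings. -/
theorem emb_sum {F : Type} [Field F] [NumberField F] (φ : F →+* ℂ) (S B : (F →+* ℂ) → ℝ) (W : ℝ)
    (h1 : ∀ τ, S τ ≤ B τ) (h2 : S φ ≤ B φ - W)
    (h3 : S ((starRingEnd ℂ).comp φ) ≤ B ((starRingEnd ℂ).comp φ) - W) :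
    ∑ τ, S τ ≤ ∑ τ, B τ - nphi φ * W := by
  classical
  unfold nphi
  by_cases h : (starRingEnd ℂ).comp φ = φ
  · rw [if_pos h]
    have h4 : ∑ τ, S τ ≤ ∑ τ, (B τ - if τ = φ then W else 0) := by
      refine Finset.sum_le_sum fun τ _ => ?_
      by_cases hτ : τ = φ
      · rw [if_pos hτ, hτ]; exact h2
      · rw [if_neg hτ, sub_zero]; exact h1 τ
    rw [Finset.sum_sub_distrib, Finset.sum_ite_eq' Finset.univ φ (fun _ => W),
      if_pos (Finset.mem_univ _)] at h4
    push_cast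
    linarith
  · rw [if_neg h]
    have h4 : ∑ τ, S τ ≤ ∑ τ, (B τ - (if τ = φ then W else 0) -
        if τ = (starRingEnd ℂ).comp φ then W else 0) := by
      refine Finset.sum_le_sum fun τ _ => ?_
      by_cases hτ : τ = φ
      · rw [if_pos hτ, if_neg (fun h' => h (h'.symm.trans hτ)), sub_zero, hτ]; exact h2
      · rw [if_neg hτ, sub_zero]
        by_cases hτ' : τ = (starRingEnd ℂ).comp φ
        · rw [if_pos hτ', hτ']; exact h3
        · rw [if_neg hτ', sub_zero]; exact h1 τ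
    rw [Finset.sum_sub_distrib, Finset.sum_sub_distrib,
      Finset.sum_ite_eq' Finset.univ φ (fun _ => W),
      Finset.sum_ite_eq' Finset.univ ((starRingEnd ℂ).comp φ) (fun _ => W),
      if_pos (Finset.mem_univ _), if_pos (Finset.mem_univ _)] at h4
    push_cast
    linarith

theorem cardR {F : Type} [Field F] (τ : F →+* ℂ) (Q : F[X]) :
    (Q.map τ).roots.card = Q.natDegree := by
  have h1 : (Q.map τ).Splits := IsAlgClosed.splits _
  rw [← h1.natDegree_eq_card_roots]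
  exact Polynomial.natDegree_map _

theorem const_sum (s : Multiset ℂ) (a b : ℝ) :
    (s.map fun x => a + b * Real.posLog ‖x‖).sum =
      s.card * a + b * (s.map fun x => Real.posLog ‖x‖).sum := by
  rw [Multiset.sum_map_add, Multiset.sum_map_mul_left]
  simp only [Multiset.map_const', Multiset.sum_replicate, nsmul_eq_mul]

theorem arith {N n d e L σ δ a b T V w η p : ℝ} (hL : 0 < L) (h2 : 0 ≤ p + T)
    (hdeg : p ≤ (1 + e) * L * δ * b)
    (hsum : T ≤ n * d * ((1 + e) * L * σ) + (1 + e) * L * δ * a - N * (L * (V * w)))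
    (h3 : η = b + a) : N * (V * w) ≤ (1 + e) * (n * d * σ + η * δ) := by
  have h4 : L * ((1 + e) * (n * d * σ + η * δ)) =
    n * d * ((1 + e) * L * σ) + (1 + e) * L * δ * b + (1 + e) * L * δ * a := by
    rw [h3]; ring
  have h5 : L * (N * (V * w)) = N * (L * (V * w)) := by ring
  have h1 : L * (N * (V * w)) ≤ L * ((1 + e) * (n * d * σ + η * δ)) := by
    rw [h4, h5]
    linarith
  exact le_of_mul_le_mul_left h1 hL

theorem concl {N n d e ε σ δ V U w η ρ ρp C : ℝ} (he0 : 0 < e) (he : e = ε / 1000000)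
    (hε1 : ε < 1) (hN : 0 ≤ N) (hV : 0 < V) (hUeV : U = (1 + e) * V) (hw0 : 0 ≤ w)
    (hσ : σ = Real.sqrt (V * ρ / (2 * Real.pi))) (hδ : δ = Real.sqrt (V / (2 * Real.pi * ρ)))
    (hnd : 0 < n * d) (hη0 : 0 ≤ η) (hC : 0 < C) (hρ1 : C ≤ ρp)
    (hρ : ρ = max C (min (η / (n * d)) ρp)) (hρpos : 0 < ρ)
    (hmain : N * (V * w) ≤ (1 + e) * (n * d * σ + η * δ)) :
    N * (√U * w) ≤ (1 + ε) * (2 / √(2 * Real.pi)) * (√(n * d * η) + n * d * √C + η / √ρp) := by
  have hpi := Real.pi_pos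
  obtain ⟨k, hk⟩ : ∃ k : ℝ, k = 1 / √(2 * Real.pi) := ⟨_, rfl⟩
  have hk0 : 0 < k := by rw [hk]; positivity
  have hσ' : σ = k * √V * √ρ := by
    rw [hσ, Real.sqrt_div (by positivity), Real.sqrt_mul hV.le, hk]
    ring
  have hδ' : δ = k * √V / √ρ := by
    rw [hδ, Real.sqrt_div hV.le, Real.sqrt_mul (by positivity), hk]
    field_simp
  have hcl := clamp hnd hη0 hC hρ1 hρ
  obtain ⟨E, hE⟩ : ∃ E : ℝ, E = √(n * d * η) + n * d * √C + η / √ρp := ⟨_, rfl⟩
  rw [← hE] at hcl ⊢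
  have hE0 : 0 ≤ E := by rw [hE]; positivity
  have hsV : 0 < √V := Real.sqrt_pos.2 hV
  have h1 : N * (√V * w) ≤ (1 + e) * (k * (2 * E)) := by
    have h2 : √V * (N * (√V * w)) ≤ √V * ((1 + e) * (k * (2 * E))) := by
      calc √V * (N * (√V * w)) = N * ((√V * √V) * w) := by ring
        _ = N * (V * w) := by rw [Real.mul_self_sqrt hV.le]
        _ ≤ (1 + e) * (n * d * σ + η * δ) := hmain
        _ = (1 + e) * (k * √V * (n * d * √ρ + η / √ρ)) := by rw [hσ', hδ']; ring
        _ ≤ (1 + e) * (k * √V * (2 * E)) := by gcongr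
        _ = √V * ((1 + e) * (k * (2 * E))) := by ring
    exact le_of_mul_le_mul_left h2 hsV
  have h2 : √U ≤ (1 + e) * √V := by
    rw [hUeV, Real.sqrt_mul (by positivity)]
    gcongr
    rw [Real.sqrt_le_left (by positivity)]
    nlinarith
  have h3 : N * (√U * w) ≤ (1 + e) * (N * (√V * w)) := by
    calc N * (√U * w) ≤ N * ((1 + e) * √V * w) := by gcongr
      _ = (1 + e) * (N * (√V * w)) := by ring
  calc N * (√U * w) ≤ (1 + e) * (N * (√V * w)) := h3
    _ ≤ (1 + e) * ((1 + e) * (k * (2 * E))) := by gcongr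
    _ = (1 + e) ^ 2 * (2 / √(2 * Real.pi) * E) := by rw [hk]; ring
    _ ≤ (1 + ε) * (2 / √(2 * Real.pi) * E) := by
        gcongr
        rw [he] at he0 ⊢
        nlinarith
    _ = (1 + ε) * (2 / √(2 * Real.pi)) * E := by ring

end CloseSX

open CloseSX in
theorem p_CloseS : StmtMul → StmtLiou → StmtCloseS := by
  intro hMul hLiou F _ _ φ Y hI ε hε hε1
  obtain ⟨e, he⟩ : ∃ e : ℝ, e = ε / 1000000 := ⟨_, rfl⟩
  have he0 : 0 < e := by rw [he]; positivity
  have he1 : e ≤ 1 / 1000000 := by rw [he]; linarith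
  obtain ⟨C, c, V₀, hC, hc, hV₀, hfam⟩ := hI e he0 (by linarith)
  refine ⟨C, c / 2, max (2 * V₀) 4, hC, by positivity, by
    have := le_max_right (2 * V₀) 4
    linarith, ?_⟩
  intro Q g hQm hQi hg x₁ hx₁ _ hmax hU ρp hρ1 hρ2 f hf
  obtain ⟨U, hUdef⟩ : ∃ U : ℝ, U = GSL.cl Y x₁ := ⟨_, rfl⟩
  rw [← hUdef] at hU hρ2 hmax ⊢
  have hU4 : 4 ≤ U := (le_max_right _ _).trans hU
  have hUV : 2 * V₀ ≤ U := (le_max_left _ _).trans hU
  obtain ⟨V, hV⟩ : ∃ V : ℝ, V = U / (1 + e) := ⟨_, rfl⟩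
  have hUeV : U = (1 + e) * V := by rw [hV]; field_simp
  have hV2 : U ≤ 2 * V := by nlinarith
  have hVU : V ≤ U := by nlinarith
  have hVV₀ : V₀ ≤ V := by linarith
  have hVpos : 0 < V := by linarith
  -- the number ρ
  obtain ⟨n, hn⟩ : ∃ n : ℝ, n = (Module.finrank ℚ F : ℝ) := ⟨_, rfl⟩
  obtain ⟨d, hd⟩ : ∃ d : ℝ, d = (Q.natDegree : ℝ) := ⟨_, rfl⟩
  obtain ⟨η, hη⟩ : ∃ η : ℝ, η = hF Q g := ⟨_, rfl⟩
  have hn1 : 1 ≤ n := by
    rw [hn]
    exact_mod_cast Module.finrank_pos (R := ℚ) (M := F)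
  have hd1 : 1 ≤ d := by
    rw [hd, ← cardR φ Q]
    have : 0 < (Q.map φ).roots.card := Multiset.card_pos_iff_exists_mem.2 ⟨x₁, hx₁⟩
    exact_mod_cast this
  obtain ⟨hη0', hlc⟩ := (hMul F).1 Q g hQm hg
  have hη0 : 0 ≤ η := by rw [hη]; exact hη0'
  obtain ⟨ρ, hρ⟩ : ∃ ρ : ℝ, ρ = max C (min (η / (n * d)) ρp) := ⟨_, rfl⟩
  have hρC : C ≤ ρ := by rw [hρ]; exact le_max_left _ _
  have hρρp : ρ ≤ ρp := by rw [hρ]; exact max_le hρ1 (min_le_right _ _)
  have hρpos : 0 < ρ := hC.trans_le hρC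
  have hlogV : Real.log U ≤ 2 * Real.log V := by
    have h1 : U ≤ V ^ 2 := by nlinarith
    calc Real.log U ≤ Real.log (V ^ 2) := Real.log_le_log (by linarith) h1
      _ = 2 * Real.log V := by rw [Real.log_pow]; norm_num
  have hρV : ρ ≤ c * Real.log V := by
    have : c / 2 * Real.log U ≤ c / 2 * (2 * Real.log V) := by gcongr
    linarith
  obtain ⟨L, D, hL, hFam⟩ := hfam V ρ hVV₀ hρC hρV
  obtain ⟨δ, hδ⟩ : ∃ δ : ℝ, δ = Real.sqrt (V / (2 * Real.pi * ρ)) := ⟨_, rfl⟩
  obtain ⟨σ, hσ⟩ : ∃ σ : ℝ, σ = Real.sqrt (V * ρ / (2 * Real.pi)) := ⟨_, rfl⟩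
  rw [← hδ, ← hσ] at hFam
  have hδ0 : 0 ≤ δ := by rw [hδ]; positivity
  have hσ0 : 0 ≤ σ := by rw [hσ]; positivity
  have hx1n : ‖x₁ - Y‖ ≤ Real.exp (-((1 + e) * V)) := by
    rw [norm_of_cl_pos (by rw [← hUdef]; linarith), ← hUdef, hUeV]
  obtain ⟨P, hP, hPx⟩ := hFam.NV x₁ hx1n
  have hP0 : P ≠ 0 := by
    rintro rfl
    simp at hPx
  have hcop : IsCoprime Q P := by
    rw [hQi.coprime_iff_not_dvd]
    rintro ⟨R, rfl⟩
    apply hPx
    rw [Polynomial.map_mul, Polynomial.eval_mul, Polynomial.isRoot_of_mem_roots hx₁ |>.eq_zero,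
      zero_mul]
  have hliou := hLiou F Q g P hQm hg (hFam.coeff P hP) hP0 hcop
  have hne : ∀ (τ : F →+* ℂ), ∀ x ∈ (Q.map τ).roots, (P.map τ).eval x ≠ 0 := by
    intro τ x hx h0
    obtain ⟨a, b, hab⟩ := hcop
    have h1 := congrArg (fun R : F[X] => (R.map τ).eval x) hab
    simp only [Polynomial.map_add, Polynomial.map_mul, Polynomial.map_one, Polynomial.eval_add,
      Polynomial.eval_mul, Polynomial.eval_one] at h1
    rw [h0, (Polynomial.isRoot_of_mem_roots hx).eq_zero] at h1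
    simp at h1
  -- the sums over the roots
  obtain ⟨w, hw⟩ : ∃ w : ℝ, w = ((Q.map φ).roots.map fun x => f (GSL.cl Y x / U)).sum :=
    ⟨_, rfl⟩
  obtain ⟨S, hS⟩ : ∃ S : (F →+* ℂ) → ℝ, S = fun τ =>
    ((Q.map τ).roots.map fun x => Real.log ‖(P.map τ).eval x‖).sum := ⟨_, rfl⟩
  obtain ⟨B, hB⟩ : ∃ B : (F →+* ℂ) → ℝ, B = fun τ => d * ((1 + e) * L * σ) +
    (1 + e) * L * δ * ((Q.map τ).roots.map fun x => Real.posLog ‖x‖).sum := ⟨_, rfl⟩
  have hBs : ∀ τ, ((Q.map τ).roots.map fun x => (1 + e) * L * σ +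
      (1 + e) * L * δ * Real.posLog ‖x‖).sum = B τ := by
    intro τ
    rw [const_sum, cardR, hB, hd]
  have hSB : ∀ τ, S τ ≤ B τ := by
    intro τ
    rw [← hBs, hS]
    exact Multiset.sum_map_le_sum_map _ _ fun x hx => all_root hFam hP τ (hne τ x hx)
  have hSφ : S φ ≤ B φ - L * (V * w) := by
    have h1 : L * (V * w) = ((Q.map φ).roots.map fun x => L * (V * f (GSL.cl Y x / U))).sum := by
      rw [Multiset.sum_map_mul_left, Multiset.sum_map_mul_left, hw]
    rw [← hBs, hS, h1, ← Multiset.sum_map_sub]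
    refine Multiset.sum_map_le_sum_map _ _ fun x hx => ?_
    obtain ⟨_, h3⟩ := hmax x hx
    have h4 : 0 ≤ GSL.cl Y x / U := div_nonneg (cl_nonneg _ _) (by linarith)
    have h5 : GSL.cl Y x / U ≤ 1 := by
      rw [div_le_one (by linarith)]
      exact h3
    obtain ⟨h6, h7⟩ := hf _ h4 h5
    refine phi_root hFam he0 he1 hVpos hL hδ0 hσ0 hP (hne φ x hx) ?_ h4 h5 h6 h7
    rw [← hUeV]
    field_simp
  have hSc : S ((starRingEnd ℂ).comp φ) ≤ B ((starRingEnd ℂ).comp φ) - L * (V * w) := by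
    obtain ⟨h1, h2⟩ := conj_sum φ Q P
    have h3 : S ((starRingEnd ℂ).comp φ) = S φ := by rw [hS]; exact h1
    have h4 : B ((starRingEnd ℂ).comp φ) = B φ := by
      rw [hB]
      simp only
      rw [h2]
    rw [h3, h4]
    exact hSφ
  have hsum := emb_sum φ S B _ hSB hSφ hSc
  have hBsum : ∑ τ, B τ = n * d * ((1 + e) * L * σ) +
      (1 + e) * L * δ * ∑ τ : F →+* ℂ, ((Q.map τ).roots.map fun x => Real.posLog ‖x‖).sum := by
    rw [hB]
    simp only
    rw [Finset.sum_add_distrib, Finset.sum_const, Finset.card_univ, NumberField.Embeddings.card,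
      nsmul_eq_mul, ← Finset.mul_sum, ← hn]
    ring
  have hdeg : (P.natDegree : ℝ) * Real.log g.leadingCoeff ≤
      (1 + e) * L * δ * Real.log g.leadingCoeff :=
    mul_le_mul_of_nonneg_right (hFam.deg P hP) hlc
  have hL0 : 0 < L := by linarith
  have hS0 : 0 ≤ (P.natDegree : ℝ) * Real.log g.leadingCoeff + ∑ τ, S τ := by
    rw [hS]; exact hliou
  rw [hBsum] at hsum
  have hmain : nphi φ * (V * w) ≤ (1 + e) * (n * d * σ + η * δ) :=
    arith hL0 hS0 hdeg hsum hη
  have hw0 : 0 ≤ w := by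
    rw [hw]
    apply Multiset.sum_nonneg
    intro a ha
    obtain ⟨x, hx, rfl⟩ := Multiset.mem_map.1 ha
    obtain ⟨_, h3⟩ := hmax x hx
    exact (hf _ (div_nonneg (cl_nonneg _ _) (by linarith)) (by
      rw [div_le_one (by linarith)]
      exact h3)).1
  rw [← hw, ← hn, ← hd, ← hη]
  exact concl he0 he hε1 (Nat.cast_nonneg _) hVpos hUeV hw0 hσ hδ (by positivity) hη0 hC hρ1 hρ
    hρpos hmain

end GSQ
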