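import Mathlib
import Pool.Agent.Work.MP_327059_nt.QF.StmtsB

/-!
# The contribution of the gcd
-/

open Polynomial Filter Topology

namespace GSQ

namespace GBX

lemma nphi_le {F : Type} [Field F] (φ : F →+* ℂ) : nphi φ ≤ 2 := by
  unfold nphi
  split_ifs <;> norm_num

/-- The error terms are small. -/
lemma limE {ρm cp U₀ ε A₀ n : ℝ} (hcp : 0 < cp) (h0 : 0 < ε) :
    ∃ V₁ : ℝ, 1 < V₁ ∧ ∀ V : ℝ, V₁ ≤ V → U₀ ≤ Real.sqrt V ∧ ρm ≤ cp * Real.log (Real.sqrt V) ∧
      0 < Real.log V ∧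
      A₀ * n * Real.sqrt ρm / Real.sqrt (2 * Real.pi * Real.sqrt (Real.log V)) +
        A₀ * (Real.sqrt (Real.sqrt (Real.log V) / (2 * Real.pi)) /
          Real.sqrt (cp * Real.log (Real.sqrt V))) +
        62 / Real.sqrt (2 * Real.pi * Real.sqrt (Real.log V)) ≤ ε := by
  have e1 : Tendsto (fun V : ℝ => Real.sqrt V) atTop atTop := Real.tendsto_sqrt_atTop
  have e2 : Tendsto (fun V : ℝ => cp * Real.log (Real.sqrt V)) atTop atTop :=
    Tendsto.const_mul_atTop hcp (Real.tendsto_log_atTop.comp e1)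
  have e3 : Tendsto (fun V : ℝ => Real.sqrt (Real.log V)) atTop atTop :=
    Real.tendsto_sqrt_atTop.comp Real.tendsto_log_atTop
  have e4 : Tendsto (fun V : ℝ => Real.sqrt (2 * Real.pi * Real.sqrt (Real.log V))) atTop atTop :=
    Real.tendsto_sqrt_atTop.comp (Tendsto.const_mul_atTop (by positivity) e3)
  have e5 : Tendsto (fun V : ℝ => Real.sqrt (Real.pi * cp * Real.sqrt (Real.log V))) atTop atTop :=
    Real.tendsto_sqrt_atTop.comp (Tendsto.const_mul_atTop (by positivity) e3)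
  have e6 : Tendsto (fun V : ℝ =>
      A₀ * n * Real.sqrt ρm / Real.sqrt (2 * Real.pi * Real.sqrt (Real.log V)) +
        A₀ * (1 / Real.sqrt (Real.pi * cp * Real.sqrt (Real.log V))) +
        62 / Real.sqrt (2 * Real.pi * Real.sqrt (Real.log V))) atTop (𝓝 (0 + A₀ * 0 + 0)) :=
    ((Tendsto.const_div_atTop e4 _).add
      ((Tendsto.const_div_atTop e5 _).const_mul A₀)).add (Tendsto.const_div_atTop e4 _)
  have e7 : ∀ᶠ V : ℝ in atTop,
      A₀ * n * Real.sqrt ρm / Real.sqrt (2 * Real.pi * Real.sqrt (Real.log V)) +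
        A₀ * (1 / Real.sqrt (Real.pi * cp * Real.sqrt (Real.log V))) +
        62 / Real.sqrt (2 * Real.pi * Real.sqrt (Real.log V)) < ε := by
    apply e6.eventually_lt_const
    simpa using h0
  obtain ⟨a, ha⟩ := (((e7.and (e1.eventually_ge_atTop U₀)).and
    (e2.eventually_ge_atTop ρm)).and (Real.tendsto_log_atTop.eventually_gt_atTop 0)).exists_forall_of_atTop
  refine ⟨max a 2, by simp, fun V hV => ?_⟩
  obtain ⟨⟨⟨h1, h2⟩, h3⟩, h4⟩ := ha V ((le_max_left _ _).trans hV)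
  refine ⟨h2, h3, h4, ?_⟩
  have hV2 : 2 ≤ V := (le_max_right _ _).trans hV
  have e8 : Real.sqrt (Real.sqrt (Real.log V) / (2 * Real.pi)) /
      Real.sqrt (cp * Real.log (Real.sqrt V)) =
        1 / Real.sqrt (Real.pi * cp * Real.sqrt (Real.log V)) := by
    rw [← Real.sqrt_div (by positivity), ← Real.sqrt_one, ← Real.sqrt_div (by norm_num)]
    congr 1
    rw [Real.log_sqrt (by linarith)]
    have h5 : 0 < Real.sqrt (Real.log V) := Real.sqrt_pos.mpr h4
    have h6 : Real.log V = Real.sqrt (Real.log V) * Real.sqrt (Real.log V) :=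
      (Real.mul_self_sqrt h4.le).symm
    set r := Real.sqrt (Real.log V) with hr
    rw [h6]
    have := Real.pi_pos
    field_simp
  rw [e8]
  exact h1.le

end GBX

open GBX in
theorem p_GB : StmtMul → StmtCloseS → StmtFac → StmtPsi → StmtNum → StmtGB := by
  intro _ hCl hFac hPsi hNum F _ _ φ Y hI ε h0 h1
  obtain ⟨ρm, cp, U₀, hρm, hcp, hU₀, H⟩ := hCl F φ Y hI ε h0 h1
  set n : ℝ := (Module.finrank ℚ F : ℝ) with hn
  have hn0 : 0 ≤ n := Nat.cast_nonneg _
  set a₀ : ℝ := 76 / 25 / Real.sqrt (2 * Real.pi) with ha₀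
  have ha0 : 0 ≤ a₀ := by positivity
  obtain ⟨V₁, hV₁, hlim⟩ := limE (ρm := ρm) (U₀ := U₀) (A₀ := 4 * a₀) (n := n) hcp h0
  refine ⟨V₁, hV₁, fun V hV G g D₀ hG hg hroots hdeg hht => ?_⟩
  obtain ⟨l1, l2, l3, l4⟩ := hlim V hV
  have hV1 : 1 < V := lt_of_lt_of_le hV₁ hV
  have hV0 : 0 < V := by linarith
  set t₀ : ℝ := Real.sqrt V with ht₀
  have ht₀p : 0 < t₀ := Real.sqrt_pos.mpr hV0
  have htt : t₀ * t₀ = V := Real.mul_self_sqrt hV0.le
  set ρp : ℝ := cp * Real.log t₀ with hρp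
  have hρp0 : 0 < ρp := lt_of_lt_of_le hρm l2
  obtain ⟨s, k, h, hs, sdeg, sht, ssum⟩ := hFac F φ G g hG hg
  obtain ⟨P0, Pmono, Pbd, Pmin, Padd, Pscale⟩ := hPsi
  have hN : (nphi φ : ℝ) ≤ 2 := by exact_mod_cast nphi_le φ
  have hN0 : (0 : ℝ) ≤ nphi φ := Nat.cast_nonneg _
  have hcl : ∀ x, 0 ≤ GSL.cl Y x := fun x => le_max_left _ _
  -- the bound for one factor
  have key : ∀ Q ∈ s, (nphi φ : ℝ) * ((Q.map φ).roots.map fun x => Psi (GSL.cl Y x / V)).sum ≤
      (1 + ε) ^ 2 * a₀ * ((Real.sqrt (n * Q.natDegree * hF Q (h Q)) +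
        n * Q.natDegree * Real.sqrt ρm + hF Q (h Q) / Real.sqrt ρp) / t₀) +
        62 * (Q.natDegree * t₀ / V) := by
    intro Q hQ
    obtain ⟨q1, q2, q3, q4, q5⟩ := hs Q hQ
    have hB : 0 ≤ (1 + ε) ^ 2 * a₀ * ((Real.sqrt (n * Q.natDegree * hF Q (h Q)) +
        n * Q.natDegree * Real.sqrt ρm + hF Q (h Q) / Real.sqrt ρp) / t₀) := by positivity
    have hC : 0 ≤ 62 * (Q.natDegree * t₀ / V) := by positivity
    by_cases hR : (Q.map φ).roots = 0
    · rw [hR]
      simp only [Multiset.map_zero, Multiset.sum_zero, mul_zero]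
      linarith
    obtain ⟨x₀, hx₀⟩ := Multiset.exists_mem_of_ne_zero hR
    obtain ⟨x₁, hx₁, hmax⟩ := Finset.exists_max_image (Q.map φ).roots.toFinset (GSL.cl Y)
      ⟨x₀, Multiset.mem_toFinset.mpr hx₀⟩
    rw [Multiset.mem_toFinset] at hx₁
    have hmax' : ∀ x ∈ (Q.map φ).roots, x ≠ Y ∧ GSL.cl Y x ≤ GSL.cl Y x₁ := fun x hx =>
      ⟨(hroots x (q5 x hx)).1, hmax x (Multiset.mem_toFinset.mpr hx)⟩
    have hcard : ((Q.map φ).roots.card : ℝ) ≤ Q.natDegree := by
      exact_mod_cast (Polynomial.card_roots' _).trans (Polynomial.natDegree_map_le)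
    set U := GSL.cl Y x₁ with hU
    have hUV : U ≤ (1 + ε) * V := (hroots x₁ (q5 x₁ hx₁)).2
    by_cases hUt : U < t₀
    · have a1 : ((Q.map φ).roots.map fun x => Psi (GSL.cl Y x / V)).sum ≤
          (Q.map φ).roots.card • (31 * (t₀ / V)) := by
        rw [← Multiset.card_map (fun x => Psi (GSL.cl Y x / V))]
        apply Multiset.sum_le_card_nsmul
        intro y hy
        obtain ⟨x, hx, rfl⟩ := Multiset.mem_map.mp hy
        refine ((Pbd _ (div_nonneg (hcl x) hV0.le)).2).trans ?_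
        have : GSL.cl Y x ≤ t₀ := (hmax' x hx).2.trans hUt.le
        gcongr
      rw [nsmul_eq_mul] at a1
      have a2 : 0 ≤ ((Q.map φ).roots.map fun x => Psi (GSL.cl Y x / V)).sum := by
        apply Multiset.sum_nonneg
        intro y hy
        obtain ⟨x, hx, rfl⟩ := Multiset.mem_map.mp hy
        exact (Pbd _ (div_nonneg (hcl x) hV0.le)).1
      have a3 : ((Q.map φ).roots.card : ℝ) * (31 * (t₀ / V)) ≤ Q.natDegree * (31 * (t₀ / V)) := by
        gcongr
      have a4 : (nphi φ : ℝ) * ((Q.map φ).roots.map fun x => Psi (GSL.cl Y x / V)).sum ≤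
          2 * ((Q.map φ).roots.map fun x => Psi (GSL.cl Y x / V)).sum :=
        mul_le_mul_of_nonneg_right hN a2
      have a5 : (62 : ℝ) * (Q.natDegree * t₀ / V) = 2 * (Q.natDegree * (31 * (t₀ / V))) := by ring
      linarith
    · rw [not_lt] at hUt
      have hU0 : 0 < U := ht₀p.trans_le hUt
      set V' := (1 + ε) * V with hV'
      have hV'0 : 0 < V' := by positivity
      set η := U / V' with hη
      have hη0 : 0 < η := by positivity
      have hη1 : η ≤ 1 := (div_le_one hV'0).mpr hUV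
      have b1 := H Q (h Q) q1 q2 q3 x₁ hx₁ (hmax' x₁ hx₁).1 hmax' (l1.trans hUt) ρp l2
        (by
          rw [hρp]
          have := Real.log_le_log ht₀p hUt
          gcongr)
        (fun q => Psi (q * η) / (38 / 25 * Real.sqrt η)) (fun q hq0 hq1 => hNum η hη0 hη1 q hq0 hq1)
      have b2 : (fun x => Psi (GSL.cl Y x / U * η) / (38 / 25 * Real.sqrt η)) =
          fun x => (1 / (38 / 25 * Real.sqrt η)) * Psi (GSL.cl Y x / V') := by
        funext x
        have : GSL.cl Y x / U * η = GSL.cl Y x / V' := by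
          rw [hη]
          field_simp
        rw [this]
        ring
      beta_reduce at b1
      rw [b2, Multiset.sum_map_mul_left] at b1
      set S' := ((Q.map φ).roots.map fun x => Psi (GSL.cl Y x / V')).sum with hS'
      have hsη : Real.sqrt η = Real.sqrt U / Real.sqrt V' := Real.sqrt_div hU0.le _
      have hsU : 0 < Real.sqrt U := Real.sqrt_pos.mpr hU0
      have hsV : 0 < Real.sqrt V' := Real.sqrt_pos.mpr hV'0
      have b3 : Real.sqrt U * (1 / (38 / 25 * Real.sqrt η) * S') = 25 / 38 * (Real.sqrt V' * S') := by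
        rw [hsη]
        field_simp
      rw [b3] at b1
      have hS0 : 0 ≤ S' := by
        apply Multiset.sum_nonneg
        intro y hy
        obtain ⟨x, hx, rfl⟩ := Multiset.mem_map.mp hy
        exact (Pbd _ (div_nonneg (hcl x) hV'0.le)).1
      have hsVt : t₀ ≤ Real.sqrt V' := by
        apply Real.sqrt_le_sqrt
        rw [hV']
        nlinarith
      have b4 : (nphi φ : ℝ) * (t₀ * S') ≤ (1 + ε) * a₀ *
          (Real.sqrt (n * Q.natDegree * hF Q (h Q)) +
        n * Q.natDegree * Real.sqrt ρm + hF Q (h Q) / Real.sqrt ρp) := by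
        have b5 : (nphi φ : ℝ) * (t₀ * S') ≤ (nphi φ : ℝ) * (Real.sqrt V' * S') := by gcongr
        have b6 : (1 + ε) * a₀ * (Real.sqrt (n * Q.natDegree * hF Q (h Q)) +
            n * Q.natDegree * Real.sqrt ρm + hF Q (h Q) / Real.sqrt ρp) =
            38 / 25 * ((1 + ε) * (2 / Real.sqrt (2 * Real.pi)) *
              (Real.sqrt (n * Q.natDegree * hF Q (h Q)) +
            n * Q.natDegree * Real.sqrt ρm + hF Q (h Q) / Real.sqrt ρp)) := by
          rw [ha₀]
          ring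
        rw [b6]
        refine b5.trans ?_
        have b7 := mul_le_mul_of_nonneg_left b1 (by norm_num : (0 : ℝ) ≤ 38 / 25)
        refine le_trans (le_of_eq ?_) b7
        ring
      have b8 : ((Q.map φ).roots.map fun x => Psi (GSL.cl Y x / V)).sum ≤ (1 + ε) * S' := by
        rw [hS', ← Multiset.sum_map_mul_left]
        apply Multiset.sum_map_le_sum_map
        intro x _
        have : GSL.cl Y x / V = (1 + ε) * (GSL.cl Y x / V') := by
          rw [hV']
          field_simp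
        rw [this]
        exact Pscale _ _ (div_nonneg (hcl x) hV'0.le) h0.le
      have b9 : (nphi φ : ℝ) * ((Q.map φ).roots.map fun x => Psi (GSL.cl Y x / V)).sum ≤
          (1 + ε) * ((nphi φ : ℝ) * (t₀ * S') / t₀) := by
        have : (1 + ε) * ((nphi φ : ℝ) * (t₀ * S') / t₀) = (nphi φ : ℝ) * ((1 + ε) * S') := by
          field_simp
        rw [this]
        gcongr
      refine b9.trans ?_
      have b10 : (1 + ε) * ((nphi φ : ℝ) * (t₀ * S') / t₀) ≤ (1 + ε) * ((1 + ε) * a₀ *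
          (Real.sqrt (n * Q.natDegree * hF Q (h Q)) +
        n * Q.natDegree * Real.sqrt ρm + hF Q (h Q) / Real.sqrt ρp) / t₀) := by gcongr
      refine b10.trans ?_
      have b11 : (1 + ε) * ((1 + ε) * a₀ *
          (Real.sqrt (n * Q.natDegree * hF Q (h Q)) +
        n * Q.natDegree * Real.sqrt ρm + hF Q (h Q) / Real.sqrt ρp) / t₀) =
        (1 + ε) ^ 2 * a₀ * ((Real.sqrt (n * Q.natDegree * hF Q (h Q)) +
        n * Q.natDegree * Real.sqrt ρm + hF Q (h Q) / Real.sqrt ρp) / t₀) := by ring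
      linarith
  -- sum over the factors
  have hhG : 0 ≤ hF G g := by
    rw [sht]
    exact Finset.sum_nonneg fun Q hQ => mul_nonneg (Nat.cast_nonneg _) (hs Q hQ).2.2.2.1
  have hcs : ∑ Q ∈ s, (k Q : ℝ) * Real.sqrt (n * Q.natDegree * hF Q (h Q)) ≤
      Real.sqrt (n * G.natDegree * hF G g) := by
    have c1 : ∀ Q ∈ s, (k Q : ℝ) * Real.sqrt (n * Q.natDegree * hF Q (h Q)) =
        Real.sqrt (n * (k Q * Q.natDegree)) * Real.sqrt (k Q * |hF Q (h Q)|) := by
      intro Q hQ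
      have q4 := (hs Q hQ).2.2.2.1
      rw [abs_of_nonneg q4, ← Real.sqrt_mul (by positivity)]
      have : n * (k Q * Q.natDegree) * (k Q * hF Q (h Q)) =
        (k Q : ℝ) ^ 2 * (n * Q.natDegree * hF Q (h Q)) := by ring
      have e : Real.sqrt ((k Q : ℝ) ^ 2 * (n * Q.natDegree * hF Q (h Q))) =
          (k Q : ℝ) * Real.sqrt (n * Q.natDegree * hF Q (h Q)) := by
        rw [Real.sqrt_mul (sq_nonneg _), Real.sqrt_sq (Nat.cast_nonneg _)]
      rw [this, e]
    rw [Finset.sum_congr rfl c1]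
    refine (Real.sum_sqrt_mul_sqrt_le s (fun Q => by positivity) (fun Q => by positivity)).trans ?_
    have c2 : ∑ Q ∈ s, (k Q : ℝ) * |hF Q (h Q)| = hF G g := by
      rw [sht]
      exact Finset.sum_congr rfl fun Q hQ => by rw [abs_of_nonneg (hs Q hQ).2.2.2.1]
    rw [c2, ← Finset.mul_sum, ← sdeg, ← Real.sqrt_mul (by positivity)]
  have tot : (nphi φ : ℝ) * ((G.map φ).roots.map fun x => Psi (GSL.cl Y x / V)).sum ≤
      (1 + ε) ^ 2 * a₀ * ((Real.sqrt (n * G.natDegree * hF G g) +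
        n * G.natDegree * Real.sqrt ρm + hF G g / Real.sqrt ρp) / t₀) +
        62 * (G.natDegree * t₀ / V) := by
    rw [ssum (fun x => Psi (GSL.cl Y x / V)), Finset.mul_sum]
    have d1 : ∑ Q ∈ s, (nphi φ : ℝ) * ((k Q : ℝ) *
        ((Q.map φ).roots.map fun x => Psi (GSL.cl Y x / V)).sum) ≤
        ∑ Q ∈ s, (k Q : ℝ) * ((1 + ε) ^ 2 * a₀ * ((Real.sqrt (n * Q.natDegree * hF Q (h Q)) +
        n * Q.natDegree * Real.sqrt ρm + hF Q (h Q) / Real.sqrt ρp) / t₀) +
        62 * (Q.natDegree * t₀ / V)) := by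
      apply Finset.sum_le_sum
      intro Q hQ
      have := mul_le_mul_of_nonneg_left (key Q hQ) (Nat.cast_nonneg (k Q) : (0 : ℝ) ≤ k Q)
      refine le_trans (le_of_eq ?_) this
      ring
    refine d1.trans ?_
    have d2 : ∑ Q ∈ s, (k Q : ℝ) * ((1 + ε) ^ 2 * a₀ *
        ((Real.sqrt (n * Q.natDegree * hF Q (h Q)) +
        n * Q.natDegree * Real.sqrt ρm + hF Q (h Q) / Real.sqrt ρp) / t₀) +
        62 * (Q.natDegree * t₀ / V)) =
        (1 + ε) ^ 2 * a₀ * ((∑ Q ∈ s, (k Q : ℝ) * Real.sqrt (n * Q.natDegree * hF Q (h Q)) +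
        n * (∑ Q ∈ s, (k Q : ℝ) * Q.natDegree) * Real.sqrt ρm +
          (∑ Q ∈ s, (k Q : ℝ) * hF Q (h Q)) / Real.sqrt ρp) / t₀) +
        62 * ((∑ Q ∈ s, (k Q : ℝ) * Q.natDegree) * t₀ / V) := by
      simp only [Finset.mul_sum, Finset.sum_mul, Finset.sum_div, add_div, mul_add,
        ← Finset.sum_add_distrib]
      apply Finset.sum_congr rfl
      intro Q _
      ring
    rw [d2, ← sdeg, ← sht]
    gcongr
  refine tot.trans ?_
  -- the error terms
  set R := Real.sqrt (Real.log V) with hR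
  have hR0 : 0 < R := Real.sqrt_pos.mpr l3
  have hpi := Real.pi_pos
  have hδ : 0 < Real.sqrt (V / (2 * Real.pi * R)) := Real.sqrt_pos.mpr (by positivity)
  have hD : 0 ≤ D₀ := by
    by_contra hcon
    rw [not_le] at hcon
    have : (0 : ℝ) ≤ G.natDegree := Nat.cast_nonneg _
    nlinarith
  have f1 : Real.sqrt (V / (2 * Real.pi * R)) = t₀ / Real.sqrt (2 * Real.pi * R) :=
    Real.sqrt_div hV0.le _
  have f2 : Real.sqrt (V * R / (2 * Real.pi)) = t₀ * Real.sqrt (R / (2 * Real.pi)) := by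
    rw [mul_div_assoc, Real.sqrt_mul hV0.le]
  rw [f1] at hdeg
  rw [f2] at hht
  set w := Real.sqrt (2 * Real.pi * R) with hw
  have hw0 : 0 < w := Real.sqrt_pos.mpr (by positivity)
  set v := Real.sqrt (R / (2 * Real.pi)) with hv
  have hv0 : 0 < v := Real.sqrt_pos.mpr (by positivity)
  have hrp : 0 < Real.sqrt ρp := Real.sqrt_pos.mpr hρp0
  have g1 : (G.natDegree : ℝ) / t₀ ≤ D₀ / w := by
    rw [div_le_iff₀ ht₀p]
    refine hdeg.trans (le_of_eq ?_)
    ring
  have g2 : hF G g / t₀ ≤ D₀ * v := by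
    rw [div_le_iff₀ ht₀p]
    refine hht.trans (le_of_eq ?_)
    ring
  have g3 : (G.natDegree : ℝ) * t₀ / V ≤ D₀ / w := by
    rw [← htt]
    have : (G.natDegree : ℝ) * t₀ / (t₀ * t₀) = G.natDegree / t₀ := by
      field_simp
    rw [this]
    exact g1
  have hε2 : (1 + ε) ^ 2 ≤ 1 + 4 * ε := by nlinarith
  have hε3 : (1 + ε) ^ 2 ≤ 4 := by nlinarith
  have m1 : Real.sqrt (n * G.natDegree * hF G g) / t₀ = Real.sqrt (n * G.natDegree * hF G g / V) :=
    (Real.sqrt_div (by positivity) _).symm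
  have m2 : (1 + ε) ^ 2 * a₀ * ((Real.sqrt (n * G.natDegree * hF G g) +
        n * G.natDegree * Real.sqrt ρm + hF G g / Real.sqrt ρp) / t₀) =
      (1 + ε) ^ 2 * (a₀ * Real.sqrt (n * G.natDegree * hF G g / V)) +
        (1 + ε) ^ 2 * (a₀ * (n * Real.sqrt ρm * (G.natDegree / t₀) +
          hF G g / t₀ / Real.sqrt ρp)) := by
    rw [← m1]
    ring
  rw [m2]
  have m3 : (1 + ε) ^ 2 * (a₀ * Real.sqrt (n * G.natDegree * hF G g / V)) ≤
      (1 + 4 * ε) * (a₀ * Real.sqrt (n * G.natDegree * hF G g / V)) := by gcongr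
  have m4 : (1 + ε) ^ 2 * (a₀ * (n * Real.sqrt ρm * (G.natDegree / t₀) +
          hF G g / t₀ / Real.sqrt ρp)) ≤
      4 * (a₀ * (n * Real.sqrt ρm * (D₀ / w) + D₀ * v / Real.sqrt ρp)) := by gcongr
  have m5 := mul_le_mul_of_nonneg_left l4 hD
  have m6 : D₀ * (4 * a₀ * n * Real.sqrt ρm / w + 4 * a₀ * (v / Real.sqrt ρp) + 62 / w) =
      4 * (a₀ * (n * Real.sqrt ρm * (D₀ / w) + D₀ * v / Real.sqrt ρp)) + 62 * (D₀ / w) := by ring
  rw [m6] at m5
  have m7 : (1 + 4 * ε) * a₀ * Real.sqrt (n * G.natDegree * hF G g / V) =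
    (1 + 4 * ε) * (a₀ * Real.sqrt (n * G.natDegree * hF G g / V)) := by ring
  rw [m7]
  have m8 : 62 * ((G.natDegree : ℝ) * t₀ / V) ≤ 62 * (D₀ / w) := by gcongr
  linarith [mul_comm D₀ ε]

end GSQ
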