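import Mathlib
import Pool.Agent.Work.MP_327059_nt.QF.StmtsB

/-!
# MP_327059_nt, second part: the contradiction in real numbers
-/

namespace GSQ
namespace RealX

/-- The truncation. -/
noncomputable def vv (z : ℝ) : ℝ := min 1 (max 0 (z - 1 / 10 ^ 8))

lemma vv_nonneg (z : ℝ) : 0 ≤ vv z := le_min zero_le_one (le_max_left _ _)

lemma vv_le_one (z : ℝ) : vv z ≤ 1 := min_le_left _ _

lemma vv_le {z : ℝ} (hz : 0 ≤ z) : vv z ≤ z :=
  (min_le_right _ _).trans (max_le hz (by linarith [show (0:ℝ) ≤ 1 / 10 ^ 8 by positivity]))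

lemma vv_zero {z : ℝ} (hz : z ≤ 1 / 10 ^ 8) : vv z = 0 := by
  unfold vv
  rw [max_eq_left (by linarith)]
  exact min_eq_right zero_le_one

lemma min_vv {x y : ℝ} (hx : 0 ≤ x) (hy : 0 ≤ y) : min (vv x) (vv y) ≤ min x y :=
  min_le_min (vv_le hx) (vv_le hy)

lemma min_vv2 {x y : ℝ} (hx : 0 ≤ x) (hy : 0 ≤ y) :
    min (vv x) (vv y) ≤ (10 : ℝ) ^ 16 * (min (1 / 10 ^ 8) x * min (1 / 10 ^ 8) y) := by
  have hx' : 0 ≤ min (1 / 10 ^ 8 : ℝ) x := le_min (by positivity) hx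
  have hy' : 0 ≤ min (1 / 10 ^ 8 : ℝ) y := le_min (by positivity) hy
  rcases le_or_gt x (1 / 10 ^ 8) with h | h
  · rw [vv_zero h]
    exact (min_le_left _ _).trans (by positivity)
  rcases le_or_gt y (1 / 10 ^ 8) with h' | h'
  · rw [vv_zero h']
    exact (min_le_right _ _).trans (by positivity)
  rw [min_eq_left h.le, min_eq_left h'.le]
  refine (min_le_left _ _).trans ((vv_le_one x).trans ?_)
  norm_num

lemma min_prod {x y : ℝ} (hx : 0 ≤ x) (hy : 0 ≤ y) :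
    min (1 / 10 ^ 8) x * min (1 / 10 ^ 8) y ≤ 1 / 10 ^ 8 * min x y := by
  have hx' : 0 ≤ min (1 / 10 ^ 8 : ℝ) x := le_min (by positivity) hx
  have hy' : 0 ≤ min (1 / 10 ^ 8 : ℝ) y := le_min (by positivity) hy
  rcases le_total x y with h | h
  · rw [min_eq_left h, mul_comm]
    exact mul_le_mul (min_le_left _ _) (min_le_right _ _) hx' (by positivity)
  · rw [min_eq_right h]
    exact mul_le_mul (min_le_left _ _) (min_le_right _ _) hy' (by positivity)

lemma sum_mono {T : Multiset ℝ} {f g : ℝ → ℝ} (h : ∀ z ∈ T, f z ≤ g z) :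
    (T.map f).sum ≤ (T.map g).sum := Multiset.sum_map_le_sum_map f g h

lemma sum_nn {T : Multiset ℝ} {f : ℝ → ℝ} (h : ∀ z ∈ T, 0 ≤ f z) : 0 ≤ (T.map f).sum := by
  refine Multiset.sum_nonneg ?_
  intro z hz
  obtain ⟨w, hw, rfl⟩ := Multiset.mem_map.1 hz
  exact h w hw

lemma sum_mul_sum (S T : Multiset ℝ) (f g : ℝ → ℝ) :
    (S.map f).sum * (T.map g).sum = (S.map fun x => (T.map fun y => f x * g y).sum).sum := by
  have h : ∀ x, (T.map fun y => f x * g y).sum = f x * (T.map g).sum := fun x =>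
    Multiset.sum_map_mul_left
  simp only [h]
  rw [Multiset.sum_map_mul_right]

lemma sum_psi (T : Multiset ℝ) : (T.map Psi).sum =
    1 / 2 * (T.map (min 1)).sum + 1 / 2 * (T.map (min (1 / 4))).sum +
      1 * (T.map (min (1 / 16))).sum + 5 / 2 * (T.map (min (1 / 64))).sum +
      4 * (T.map (min (1 / 256))).sum + 4 * (T.map (min (1 / 1024))).sum +
      37 / 2 * (T.map (min (1 / 4096))).sum := by
  have e : Psi = fun u => 1 / 2 * min 1 u + 1 / 2 * min (1 / 4) u + 1 * min (1 / 16) u +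
    5 / 2 * min (1 / 64) u + 4 * min (1 / 256) u + 4 * min (1 / 1024) u +
      37 / 2 * min (1 / 4096) u := rfl
  rw [e]
  simp only [Multiset.sum_map_add, Multiset.sum_map_mul_left]

lemma sum_I {ι : Type} (I : Finset ι) (Z : ι → Multiset ℝ) (f : ℝ → ℝ) :
    ((∑ i ∈ I, Z i).map f).sum = ∑ i ∈ I, ((Z i).map f).sum := by
  classical
  induction I using Finset.induction_on with
  | empty => simp
  | insert a s ha ih =>
    rw [Finset.sum_insert ha, Finset.sum_insert ha, Multiset.map_add, Multiset.sum_add, ih]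

lemma cs_mul (hCS : StmtCS) (T : Multiset ℝ) :
    ((T.map fun x => Psi (vv x)).sum) ^ 2 ≤
      13606 / 10000 * (T.map fun x => (T.map fun y => min (vv x) (vv y)).sum).sum := by
  obtain ⟨l, rfl⟩ : ∃ l : List ℝ, T = (l : Multiset ℝ) := ⟨T.toList, (Multiset.coe_toList T).symm⟩
  have key : ∀ f : ℝ → ℝ, ((l : Multiset ℝ).map f).sum = ∑ i : Fin l.length, f (l.get i) := by
    intro f
    rw [Multiset.map_coe, Multiset.sum_coe]
    conv_lhs => rw [← List.ofFn_get l, List.map_ofFn, List.sum_ofFn]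
    rfl
  have h := hCS (Fin l.length) (fun i => vv (l.get i)) (fun i => vv_nonneg _)
  simp only [key]
  exact h

lemma psi_split (hP : StmtPsi) {z : ℝ} (hz : 0 ≤ z) :
    Psi z ≤ 31 * min (1 / 10 ^ 8) z + Psi (vv z) := by
  obtain ⟨_, _, h3, h4, h5, _⟩ := hP
  have e : z = min (1 / 10 ^ 8) z + max 0 (z - 1 / 10 ^ 8) := by
    rcases le_total z (1 / 10 ^ 8) with h | h
    · rw [min_eq_right h, max_eq_left (by linarith)]
      ring
    · rw [min_eq_left h, max_eq_right (by linarith)]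
      ring
  have hz' : 0 ≤ min (1 / 10 ^ 8 : ℝ) z := le_min (by positivity) hz
  have h1 := h5 (min (1 / 10 ^ 8) z) (max 0 (z - 1 / 10 ^ 8)) hz' (le_max_left _ _)
  rw [← e] at h1
  have h2 := (h3 _ hz').2
  have h6 := h4 (max 0 (z - 1 / 10 ^ 8))
  have h7 : Psi (min 1 (max 0 (z - 1 / 10 ^ 8))) = Psi (vv z) := rfl
  linarith

/-- The last inequality. -/
lemma final {ε x w : ℝ} (hε : 0 < ε) (hε1 : ε ≤ 1 / 10 ^ 6) (hx0 : 0 ≤ x) (hx1 : x ≤ 1 + ε)
    (hw : 9964 / 10000 - 32 * ε - (1 + ε) * (76 / 25 / Real.pi) * x - 31 / 10 ^ 4 ≤ w)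
    (h : w ^ 2 ≤ 13606 / 10000 * (2 / Real.pi * (1 + ε - x) ^ 2 + ε + 1 / 10 ^ 5)) : False := by
  have hpi := Real.pi_gt_d4
  have hpi0 := Real.pi_pos
  have h1 : 2 / Real.pi ≤ 6367 / 10000 := by
    rw [div_le_iff₀ hpi0]
    norm_num at hpi ⊢
    linarith
  have h2 : 76 / 25 / Real.pi ≤ 9677 / 10000 := by
    rw [div_le_iff₀ hpi0]
    norm_num at hpi ⊢
    linarith
  have ht0 : 0 ≤ 1 + ε - x := by linarith
  have h3 : (1 + ε) * (76 / 25 / Real.pi) * x ≤ (1 + ε) * (9677 / 10000) * x :=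
    mul_le_mul_of_nonneg_right (mul_le_mul_of_nonneg_left h2 (by linarith)) hx0
  have h4 : ε * x ≤ 1 / 10 ^ 6 * 2 := mul_le_mul hε1 (by linarith) hx0 (by norm_num)
  have hε2 : ε ≤ 1 / 1000000 := by
    norm_num at hε1 ⊢
    linarith
  have h4' : ε * x ≤ 2 / 1000000 := by
    norm_num at h4 ⊢
    linarith
  -- the lower bound for `w`
  have h5 : 9308 / 10000 * (1 + ε - x) + 5 / 1000 < w := by
    norm_num at hw
    linarith
  have h6 : (9308 / 10000 * (1 + ε - x) + 5 / 1000) ^ 2 < w ^ 2 :=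
    pow_lt_pow_left₀ h5 (by linarith) (by norm_num)
  have h7 : 2 / Real.pi * (1 + ε - x) ^ 2 ≤ 6367 / 10000 * (1 + ε - x) ^ 2 :=
    mul_le_mul_of_nonneg_right h1 (sq_nonneg _)
  generalize 1 + ε - x = t at h h6 h7 ht0
  have h8 : (9308 / 10000 * t + 5 / 1000) ^ 2 =
      86638864 / 100000000 * t ^ 2 + 9308 / 1000000 * t + 25 / 1000000 := by ring
  have h9 := sq_nonneg t
  norm_num at h
  rw [h8] at h6
  linarith


lemma sum_swap {ι : Type} (I : Finset ι) (T : Multiset ℝ) (g : ι → ℝ → ℝ) :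
    (T.map fun x => ∑ j ∈ I, g j x).sum = ∑ j ∈ I, (T.map (g j)).sum := by
  classical
  induction I using Finset.induction_on with
  | empty => simp
  | insert a s ha ih =>
    simp only [Finset.sum_insert ha]
    rw [Multiset.sum_map_add, ih]

lemma pairE {M : ℕ} (L E : ℝ) (Z : Fin M → Multiset ℝ) (I : Finset (Fin M)) (hL : 0 < L)
    (hE : 0 ≤ E) (hZ : ∀ i, ∀ z ∈ Z i, 0 ≤ z)
    (hI : ∀ i ∈ I, ((Z i).map (min (1 / 10 ^ 8))).sum ≤ 1 / 10 ^ 4 * L)
    (hp : ∀ i j, i ≠ j → ((Z i).map fun x => ((Z j).map (min x)).sum).sum ≤ E) :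
    ((∑ i ∈ I, Z i).map fun x => ((∑ i ∈ I, Z i).map fun y => min (vv x) (vv y)).sum).sum ≤
      (I.card : ℝ) ^ 2 * E + I.card * (10 ^ 8 * L ^ 2) := by
  classical
  have h1 : ∀ i ∈ I, ∀ j ∈ I, ((Z i).map fun x => ((Z j).map fun y => min (vv x) (vv y)).sum).sum ≤
      E + if i = j then 10 ^ 8 * L ^ 2 else 0 := by
    intro i hi j hj
    by_cases hij : i = j
    · subst hij
      rw [if_pos rfl]
      have h2 : ((Z i).map fun x => ((Z i).map fun y => min (vv x) (vv y)).sum).sum ≤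
          ((Z i).map fun x => ((Z i).map fun y =>
            (10 : ℝ) ^ 16 * (min (1 / 10 ^ 8) x * min (1 / 10 ^ 8) y)).sum).sum :=
        sum_mono fun x hx => sum_mono fun y hy => min_vv2 (hZ i x hx) (hZ i y hy)
      have h3 : ((Z i).map fun x => ((Z i).map fun y =>
            (10 : ℝ) ^ 16 * (min (1 / 10 ^ 8) x * min (1 / 10 ^ 8) y)).sum).sum =
          10 ^ 16 * (((Z i).map (min (1 / 10 ^ 8))).sum * ((Z i).map (min (1 / 10 ^ 8))).sum) := by
        rw [sum_mul_sum]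
        simp only [Multiset.sum_map_mul_left]
      have h4 : 0 ≤ ((Z i).map (min (1 / 10 ^ 8))).sum :=
        sum_nn fun z hz => le_min (by positivity) (hZ i z hz)
      have h5 := mul_le_mul (hI i hi) (hI i hi) h4 (by positivity)
      rw [h3] at h2
      have h6 : (10 : ℝ) ^ 16 * (1 / 10 ^ 4 * L * (1 / 10 ^ 4 * L)) = 10 ^ 8 * L ^ 2 := by ring
      have h7 := mul_le_mul_of_nonneg_left h5 (show (0 : ℝ) ≤ 10 ^ 16 by positivity)
      linarith
    · rw [if_neg hij, add_zero]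
      refine le_trans ?_ (hp i j hij)
      exact sum_mono fun x hx => sum_mono fun y hy => min_vv (hZ i x hx) (hZ j y hy)
  have h2 : ((∑ i ∈ I, Z i).map fun x =>
      ((∑ i ∈ I, Z i).map fun y => min (vv x) (vv y)).sum).sum =
      ∑ i ∈ I, ∑ j ∈ I, ((Z i).map fun x => ((Z j).map fun y => min (vv x) (vv y)).sum).sum := by
    rw [sum_I]
    refine Finset.sum_congr rfl fun i _ => ?_
    have h3 : ∀ x : ℝ, ((∑ i ∈ I, Z i).map fun y => min (vv x) (vv y)).sum =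
        ∑ j ∈ I, ((Z j).map fun y => min (vv x) (vv y)).sum := fun x => sum_I I Z _
    simp only [h3]
    exact sum_swap _ _ _
  rw [h2]
  calc ∑ i ∈ I, ∑ j ∈ I, ((Z i).map fun x => ((Z j).map fun y => min (vv x) (vv y)).sum).sum
      ≤ ∑ i ∈ I, ∑ j ∈ I, (E + if i = j then 10 ^ 8 * L ^ 2 else 0) :=
        Finset.sum_le_sum fun i hi => Finset.sum_le_sum fun j hj => h1 i hi j hj
    _ = (I.card : ℝ) ^ 2 * E + I.card * (10 ^ 8 * L ^ 2) := by
        have h4 : ∀ i ∈ I, ∑ j ∈ I, (E + if i = j then 10 ^ 8 * L ^ 2 else 0) =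
            I.card * E + 10 ^ 8 * L ^ 2 := by
          intro i hi
          rw [Finset.sum_add_distrib, Finset.sum_const, nsmul_eq_mul, Finset.sum_ite_eq, if_pos hi]
        rw [Finset.sum_congr rfl h4, Finset.sum_const, nsmul_eq_mul]
        ring


lemma star {ε L : ℝ} {ZG T : Multiset ℝ} (hL : 0 ≤ L)
    (hj : ∀ z : ℝ, 1 / 5000 ≤ z → z ≤ 1 → ∀ m : ℕ, 1 ≤ m → m ≤ 30 →
      (GSL.Fj m z - ε) * L ≤ (ZG.map (min z)).sum + (T.map (min z)).sum) :
    (9964 / 10000 - 31 * ε) * L ≤ (ZG.map Psi).sum + (T.map Psi).sum := by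
  have e1 := hj 1 (by norm_num) le_rfl 1 le_rfl (by norm_num)
  have e2 := hj (1 / 4) (by norm_num) (by norm_num) 2 (by norm_num) (by norm_num)
  have e3 := hj (1 / 16) (by norm_num) (by norm_num) 4 (by norm_num) (by norm_num)
  have e4 := hj (1 / 64) (by norm_num) (by norm_num) 6 (by norm_num) (by norm_num)
  have e5 := hj (1 / 256) (by norm_num) (by norm_num) 11 (by norm_num) (by norm_num)
  have e6 := hj (1 / 1024) (by norm_num) (by norm_num) 17 (by norm_num) (by norm_num)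
  have e7 := hj (1 / 4096) (by norm_num) (by norm_num) 28 (by norm_num) (by norm_num)
  have f1 : GSL.Fj 1 1 = 1 / 2 := by norm_num [GSL.Fj]
  have f2 : GSL.Fj 2 (1 / 4) = 5 / 16 := by norm_num [GSL.Fj]
  have f3 : GSL.Fj 4 (1 / 16) = 39 / 256 := by norm_num [GSL.Fj]
  have f4 : GSL.Fj 6 (1 / 64) = 143 / 2048 := by norm_num [GSL.Fj]
  have f5 : GSL.Fj 11 (1 / 256) = 979 / 32768 := by norm_num [GSL.Fj]
  have f6 : (12443 : ℝ) / 1000000 ≤ GSL.Fj 17 (1 / 1024) := by norm_num [GSL.Fj]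
  have f7 : (50814 : ℝ) / 10000000 ≤ GSL.Fj 28 (1 / 4096) := by norm_num [GSL.Fj]
  have e6' := (mul_le_mul_of_nonneg_right (sub_le_sub_right f6 ε) hL).trans e6
  have e7' := (mul_le_mul_of_nonneg_right (sub_le_sub_right f7 ε) hL).trans e7
  rw [f1] at e1
  rw [f2] at e2
  rw [f3] at e3
  rw [f4] at e4
  rw [f5] at e5
  rw [sum_psi ZG, sum_psi T]
  linarith

/-- The contradiction. -/
lemma main (hP : StmtPsi) (hCS : StmtCS) {M : ℕ} (hM : (10 : ℝ) ^ 13 + 1 ≤ M) {ε L a b : ℝ}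
    (ZG : Multiset ℝ) (Z : Fin M → Multiset ℝ) (hε : 0 < ε) (hε1 : ε ≤ 1 / 10 ^ 6) (hL : 0 < L)
    (ha : 0 ≤ a) (ha1 : a ≤ 1 + ε) (hb : 0 ≤ b) (hb1 : b ≤ 1 + ε)
    (hZ : ∀ i, ∀ z ∈ Z i, 0 ≤ z)
    (hj : ∀ i, ∀ z : ℝ, 1 / 5000 ≤ z → z ≤ 1 → ∀ m : ℕ, 1 ≤ m → m ≤ 30 →
      (GSL.Fj m z - ε) * L ≤ (ZG.map (min z)).sum + ((Z i).map (min z)).sum)
    (hp : ∀ i j, i ≠ j → ((Z i).map fun x => ((Z j).map (min x)).sum).sum ≤
      L ^ 2 * (2 / Real.pi * ((1 + ε - a) * (1 + ε - b)) + ε))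
    (hG : (ZG.map Psi).sum ≤ L * ((1 + ε) * (76 / 25 / Real.pi) * Real.sqrt (a * b) + ε)) :
    False := by
  classical
  have hpi := Real.pi_gt_d4
  have hpi0 := Real.pi_pos
  have hpi1 : 2 / Real.pi ≤ 6367 / 10000 := by
    rw [div_le_iff₀ hpi0]
    norm_num at hpi ⊢
    linarith
  have hpi2 : 0 < 2 / Real.pi := by positivity
  have hε2 : ε ≤ 1 / 1000000 := by
    norm_num at hε1 ⊢
    linarith
  -- the square root
  set x := Real.sqrt (a * b) with hx
  have hx0 : 0 ≤ x := Real.sqrt_nonneg _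
  have hxx : x ^ 2 = a * b := Real.sq_sqrt (mul_nonneg ha hb)
  have hx1 : x ≤ 1 + ε := by
    refine Real.sqrt_le_iff.2 ⟨by linarith, ?_⟩
    have := mul_le_mul ha1 hb1 hb (by linarith)
    rw [sq]
    exact this
  have h2x : 2 * x ≤ a + b := by
    refine (pow_le_pow_iff_left₀ (by linarith) (by linarith) two_ne_zero).1 ?_
    have := sq_nonneg (a - b)
    linarith
  have ham : (1 + ε - a) * (1 + ε - b) ≤ (1 + ε - x) ^ 2 := by
    have := mul_le_mul_of_nonneg_left h2x (show 0 ≤ 1 + ε by linarith)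
    linarith
  have ham0 : 0 ≤ (1 + ε - a) * (1 + ε - b) := mul_nonneg (by linarith) (by linarith)
  have ham1 : (1 + ε - x) ^ 2 ≤ (1 + ε) ^ 2 := by
    refine pow_le_pow_left₀ (by linarith) (by linarith) 2
  -- the energies
  set E := L ^ 2 * (2 / Real.pi * (1 + ε - x) ^ 2 + ε) with hEdef
  have hE0 : 0 ≤ E := by positivity
  have hE1 : E ≤ L ^ 2 := by
    have h1 : 2 / Real.pi * (1 + ε - x) ^ 2 ≤ 6367 / 10000 * (1 + ε) ^ 2 :=
      mul_le_mul hpi1 ham1 (sq_nonneg _) (by norm_num)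
    have h2 : 2 / Real.pi * (1 + ε - x) ^ 2 + ε ≤ 1 := by
      have h3 : ε * ε ≤ 1 / 1000000 * (1 / 1000000) := mul_le_mul hε2 hε2 hε.le (by norm_num)
      linarith
    calc E ≤ L ^ 2 * 1 := mul_le_mul_of_nonneg_left h2 (sq_nonneg _)
      _ = L ^ 2 := mul_one _
  have hp' : ∀ i j, i ≠ j → ((Z i).map fun x => ((Z j).map (min x)).sum).sum ≤ E := by
    intro i j hij
    refine (hp i j hij).trans (mul_le_mul_of_nonneg_left ?_ (sq_nonneg _))
    have := mul_le_mul_of_nonneg_left ham hpi2.le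
    linarith
  -- at most one bad index
  have hmu : ∀ i j, i ≠ j → ((Z i).map (min (1 / 10 ^ 8))).sum *
      ((Z j).map (min (1 / 10 ^ 8))).sum ≤ 1 / 10 ^ 8 * L ^ 2 := by
    intro i j hij
    rw [sum_mul_sum]
    have h1 : ((Z i).map fun x => ((Z j).map fun y =>
        min (1 / 10 ^ 8) x * min (1 / 10 ^ 8) y).sum).sum ≤
        ((Z i).map fun x => ((Z j).map fun y => (1 / 10 ^ 8 : ℝ) * min x y).sum).sum :=
      sum_mono fun x hx => sum_mono fun y hy => min_prod (hZ i x hx) (hZ j y hy)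
    have h2 : ((Z i).map fun x => ((Z j).map fun y => (1 / 10 ^ 8 : ℝ) * min x y).sum).sum =
        1 / 10 ^ 8 * ((Z i).map fun x => ((Z j).map (min x)).sum).sum := by
      simp only [Multiset.sum_map_mul_left]
    rw [h2] at h1
    exact h1.trans (mul_le_mul_of_nonneg_left ((hp' i j hij).trans hE1) (by positivity))
  set I := Finset.univ.filter fun i : Fin M =>
    ((Z i).map (min (1 / 10 ^ 8))).sum ≤ 1 / 10 ^ 4 * L with hI
  have hI1 : ∀ i ∈ I, ((Z i).map (min (1 / 10 ^ 8))).sum ≤ 1 / 10 ^ 4 * L := fun i hi =>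
    (Finset.mem_filter.1 hi).2
  have hcard : (10 : ℝ) ^ 13 ≤ I.card := by
    have h1 := Finset.card_filter_add_card_filter_not (s := (Finset.univ : Finset (Fin M)))
      (fun i : Fin M => ((Z i).map (min (1 / 10 ^ 8))).sum ≤ 1 / 10 ^ 4 * L)
    rw [Finset.card_univ, Fintype.card_fin] at h1
    have h2 : (Finset.univ.filter fun i : Fin M =>
        ¬ ((Z i).map (min (1 / 10 ^ 8))).sum ≤ 1 / 10 ^ 4 * L).card ≤ 1 := by
      refine Finset.card_le_one.2 ?_
      intro i hi j hj'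
      by_contra hij
      have h3 := (Finset.mem_filter.1 hi).2
      have h4 := (Finset.mem_filter.1 hj').2
      rw [not_le] at h3 h4
      have h5 := mul_lt_mul'' h3 h4 (by positivity) (by positivity)
      have h6 := hmu i j hij
      have h7 : 1 / 10 ^ 4 * L * (1 / 10 ^ 4 * L) = 1 / 10 ^ 8 * L ^ 2 := by ring
      linarith
    have h3 : (M : ℝ) ≤ I.card + 1 := by
      have : M ≤ I.card + 1 := by
        rw [hI]
        omega
      exact_mod_cast this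
    linarith
  -- the lower bound of the sums
  set w := 9964 / 10000 - 32 * ε - (1 + ε) * (76 / 25 / Real.pi) * x - 31 / 10 ^ 4 with hw
  have hV : ∀ i ∈ I, L * w ≤ ((Z i).map fun z => Psi (vv z)).sum := by
    intro i hi
    have h1 : ((Z i).map Psi).sum ≤
        ((Z i).map fun z => 31 * min (1 / 10 ^ 8) z + Psi (vv z)).sum :=
      sum_mono fun z hz => psi_split hP (hZ i z hz)
    rw [Multiset.sum_map_add, Multiset.sum_map_mul_left] at h1
    have h2 := hI1 i hi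
    have h3 := star hL.le (hj i)
    have h4 : L * w = (9964 / 10000 - 31 * ε) * L -
        L * ((1 + ε) * (76 / 25 / Real.pi) * x + ε) - 31 * (1 / 10 ^ 4 * L) := by
      rw [hw]
      ring
    rw [h4]
    linarith
  -- Cauchy-Schwarz
  have hcs := cs_mul hCS (∑ i ∈ I, Z i)
  have hen := pairE L E Z I hL hE0 hZ hI1 hp'
  rw [sum_I] at hcs
  have hsum : (I.card : ℝ) * (L * w) ≤ ∑ i ∈ I, ((Z i).map fun z => Psi (vv z)).sum := by
    rw [← nsmul_eq_mul, ← Finset.sum_const]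
    exact Finset.sum_le_sum hV
  have hk0 : (0 : ℝ) < I.card := lt_of_lt_of_le (by positivity) hcard
  by_cases hw0 : w < 0
  · -- impossible
    have h1 : 76 / 25 / Real.pi ≤ 9677 / 10000 := by
      rw [div_le_iff₀ hpi0]
      norm_num at hpi ⊢
      linarith
    have h3 : (1 + ε) * (76 / 25 / Real.pi) * x ≤ (1 + ε) * (9677 / 10000) * x :=
      mul_le_mul_of_nonneg_right (mul_le_mul_of_nonneg_left h1 (by linarith)) hx0
    have h4 : ε * x ≤ 1 / 1000000 * 2 := mul_le_mul hε2 (by linarith) hx0 (by norm_num)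
    rw [hw] at hw0
    linarith
  rw [not_lt] at hw0
  have h1 : ((I.card : ℝ) * (L * w)) ^ 2 ≤
      13606 / 10000 * ((I.card : ℝ) ^ 2 * E + I.card * (10 ^ 8 * L ^ 2)) :=
    (pow_le_pow_left₀ (by positivity) hsum 2).trans (hcs.trans
      (mul_le_mul_of_nonneg_left hen (by norm_num)))
  have h2 : (I.card : ℝ) * (10 ^ 8 * L ^ 2) ≤ (I.card : ℝ) ^ 2 * (L ^ 2 * (1 / 10 ^ 5)) := by
    have h3 : (10 : ℝ) ^ 13 * (L ^ 2 * (1 / 10 ^ 5)) ≤ I.card * (L ^ 2 * (1 / 10 ^ 5)) :=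
      mul_le_mul_of_nonneg_right hcard (by positivity)
    have h4 : (10 : ℝ) ^ 13 * (L ^ 2 * (1 / 10 ^ 5)) = 10 ^ 8 * L ^ 2 := by ring
    rw [h4] at h3
    calc (I.card : ℝ) * (10 ^ 8 * L ^ 2) ≤ I.card * (I.card * (L ^ 2 * (1 / 10 ^ 5))) :=
          mul_le_mul_of_nonneg_left h3 hk0.le
      _ = (I.card : ℝ) ^ 2 * (L ^ 2 * (1 / 10 ^ 5)) := by ring
  have h3 : w ^ 2 ≤ 13606 / 10000 * (2 / Real.pi * (1 + ε - x) ^ 2 + ε + 1 / 10 ^ 5) := by
    have h4 : (I.card : ℝ) ^ 2 * L ^ 2 * w ^ 2 ≤ (I.card : ℝ) ^ 2 * L ^ 2 *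
        (13606 / 10000 * (2 / Real.pi * (1 + ε - x) ^ 2 + ε + 1 / 10 ^ 5)) := by
      calc (I.card : ℝ) ^ 2 * L ^ 2 * w ^ 2 = ((I.card : ℝ) * (L * w)) ^ 2 := by ring
        _ ≤ 13606 / 10000 * ((I.card : ℝ) ^ 2 * E + I.card * (10 ^ 8 * L ^ 2)) := h1
        _ ≤ 13606 / 10000 * ((I.card : ℝ) ^ 2 * E +
            (I.card : ℝ) ^ 2 * (L ^ 2 * (1 / 10 ^ 5))) := by linarith
        _ = _ := by
            rw [hEdef]
            ring
    exact le_of_mul_le_mul_left h4 (by positivity)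
  exact final hε hε1 hx0 hx1 le_rfl h3

end RealX

theorem p_Real (hP : StmtPsi) (hCS : StmtCS) : StmtReal := by
  refine ⟨1 / 10 ^ 6, 10 ^ 13 + 1, by norm_num, by norm_num, by norm_num, ?_⟩
  intro ε hε hε1 L a b ZG Z hL ha ha1 hb hb1 _ hZ hj hp hG
  have hM : (10 : ℝ) ^ 13 + 1 ≤ ((10 ^ 13 + 1 : ℕ) : ℝ) := by
    rw [Nat.cast_add, Nat.cast_pow, Nat.cast_one]
    norm_num
  exact RealX.main hP hCS hM ZG Z hε hε1 hL ha ha1 hb hb1 hZ hj hp hG

end GSQ
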