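import Pool.Agent.Work.MP_327059_nt.Bdx.B02
import Pool.Agent.Work.MP_327059_nt.Bdx.B04
import Pool.Agent.Work.MP_327059_nt.QF.CloseS
import Pool.Agent.Work.MP_327059_nt.Bdx.B03
import Pool.Agent.Work.MP_327059_nt.QF.GB
import Pool.Agent.Work.MP_327059_nt.QF.Real

/-!
# MP_327059_nt, second part: assembly of the arithmetic part
-/

namespace GSQ

theorem hNr : StmtNr := p_Nr
theorem hNG : StmtNG := p_NG hNr
theorem hMul : StmtMul := p_Mul
theorem hSuper : StmtSuper := p_Super hNr
theorem hIntRes : StmtIntRes := p_IntRes hNr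
theorem hLiou : StmtLiou := p_Liou hSuper hNG hIntRes
theorem hPair : StmtPair := p_Pair hIntRes
theorem hTrans : StmtTrans := p_Trans hNG hMul hLiou
theorem hCloseS : StmtCloseS := p_CloseS hMul hLiou
theorem hFac : StmtFac := p_Fac hNG hMul
theorem hNum : StmtNum := p_Num p_Psi
theorem hGB : StmtGB := p_GB hMul hCloseS hFac p_Psi hNum
theorem hOut : StmtOut := p_Out hNG hMul hSuper p_JenC hTrans p_GC
theorem hReal : StmtReal := p_Real p_Psi p_CS
theorem hFin : StmtFin := p_Fin hMul hPair hGB hOut hReal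

end GSQ
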