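import Pool.Agent.Work.MP_327059_nt.QF.StmtsA
import Pool.Agent.Work.MP_327059_nt.Bd.B05

/-!
# MP_327059_nt, second part : item Diff
-/

open Polynomial

namespace GSQ

namespace Diff

open GSL.Diff (pow_sub_bound ent0_bound ent0_sub_bound)

lemma wv_bound (t : ℤ) (β : ℂ) {S : ℕ} {p : ℤ × ℤ} (hp : p ∈ GSL.circ S) :
    ‖wv β p‖ ≤ (1 + |(t : ℝ)| + ‖β‖) * S := GSL.Diff.wv_bound t β hp

lemma zv_bound (t : ℤ) (β : ℂ) {S : ℕ} {p : ℤ × ℤ} (hp : p ∈ GSL.circ S) :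
    ‖zv t β p‖ ≤ (1 + |(t : ℝ)| + ‖β‖) * S := GSL.Diff.zv_bound t β hp

/-- The estimate of the difference for one entry. -/
lemma entry_bound (l l' e' X w ζ w' ζ' : ℂ) (lam tau : ℕ) (R M C δ : ℝ) (hR : 1 ≤ R) (hM : 1 ≤ M)
    (hC : 0 < C) (hδ : 0 ≤ δ) (hw : ‖w‖ ≤ R) (hz : ‖ζ‖ ≤ R)
    (hw' : ‖w'‖ ≤ R) (hz' : ‖ζ'‖ ≤ R) (hX : ‖X‖ ≤ M) (hl0 : ‖l‖ ≤ M)
    (hl : (lam : ℝ) ≤ R ^ 2) (ht : (tau : ℝ) ≤ 2 * R ^ 2) (hXl : ‖l - X‖ ≤ C * (C + 1) * δ)
    (hll : ‖l' - l‖ ≤ C * δ) (he : ‖e'‖ ≤ C * δ) (hsm : R ^ 2 * (2 * C * δ) ≤ 1) :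
    ‖GSL.ent0 l w ζ lam tau * Complex.exp (w * ζ * l) - GSL.ent0 X w ζ lam tau *
      Complex.exp (w * ζ * l' + w' * ζ' * e')‖ ≤
      δ * (((2 * M * R ^ 3) ^ tau * R ^ lam) * Real.exp (R ^ 2 * ‖l‖) *
        (2 * C * (C + 3) * R ^ 2)) := by
  set Bd := (2 * M * R ^ 3) ^ tau * R ^ lam with hBd
  have hR0 : 0 ≤ R := by linarith
  have hM0 : 0 ≤ M := by linarith
  have hBd0 : 0 ≤ Bd := by positivity
  set u : ℂ := w * ζ * (l' - l) + w' * ζ' * e' with hu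
  have hwz : ‖w * ζ‖ ≤ R ^ 2 := by
    rw [norm_mul, sq]
    exact mul_le_mul hw hz (norm_nonneg _) hR0
  have hwz' : ‖w' * ζ'‖ ≤ R ^ 2 := by
    rw [norm_mul, sq]
    exact mul_le_mul hw' hz' (norm_nonneg _) hR0
  have hun : ‖u‖ ≤ R ^ 2 * (2 * C * δ) := by
    rw [hu]
    refine (norm_add_le _ _).trans ?_
    rw [norm_mul (w * ζ), norm_mul (w' * ζ')]
    have h1 : ‖w * ζ‖ * ‖l' - l‖ ≤ R ^ 2 * (C * δ) :=
      mul_le_mul hwz hll (norm_nonneg _) (by positivity)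
    have h2 : ‖w' * ζ'‖ * ‖e'‖ ≤ R ^ 2 * (C * δ) :=
      mul_le_mul hwz' he (norm_nonneg _) (by positivity)
    linarith
  have hE : ‖Complex.exp (w * ζ * l)‖ ≤ Real.exp (R ^ 2 * ‖l‖) := by
    refine (Complex.norm_exp_le_exp_norm _).trans (Real.exp_le_exp.mpr ?_)
    rw [norm_mul]
    exact mul_le_mul_of_nonneg_right hwz (norm_nonneg _)
  have hexp : Complex.exp (w * ζ * l' + w' * ζ' * e') =
      Complex.exp (w * ζ * l) * Complex.exp u := by
    rw [← Complex.exp_add]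
    congr 1
    rw [hu]
    ring
  have hu1 : ‖Complex.exp u - 1‖ ≤ 2 * ‖u‖ := Complex.norm_exp_sub_one_le (hun.trans hsm)
  rw [hexp]
  have hsplit : GSL.ent0 l w ζ lam tau * Complex.exp (w * ζ * l) - GSL.ent0 X w ζ lam tau *
      (Complex.exp (w * ζ * l) * Complex.exp u) =
      Complex.exp (w * ζ * l) * ((GSL.ent0 l w ζ lam tau - GSL.ent0 X w ζ lam tau) -
        GSL.ent0 X w ζ lam tau * (Complex.exp u - 1)) := by ring
  rw [hsplit, norm_mul]
  have h1 : ‖GSL.ent0 l w ζ lam tau - GSL.ent0 X w ζ lam tau‖ ≤ ‖l - X‖ * tau * Bd :=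
    ent0_sub_bound l X w ζ lam tau R M hR hM hw hz hl0 hX hl
  have h2 : ‖GSL.ent0 X w ζ lam tau‖ ≤ Bd := ent0_bound X w ζ lam tau R M hR hM hw hz hX hl
  have h3 : ‖l - X‖ * tau * Bd ≤ (C * (C + 1) * δ) * (2 * R ^ 2) * Bd := by
    refine mul_le_mul_of_nonneg_right ?_ hBd0
    exact mul_le_mul hXl ht (Nat.cast_nonneg _) (by positivity)
  have h4 : ‖GSL.ent0 X w ζ lam tau * (Complex.exp u - 1)‖ ≤ Bd * (2 * (R ^ 2 * (2 * C * δ))) := by
    rw [norm_mul]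
    refine mul_le_mul h2 (hu1.trans ?_) (norm_nonneg _) hBd0
    linarith
  have h5 : ‖(GSL.ent0 l w ζ lam tau - GSL.ent0 X w ζ lam tau) -
        GSL.ent0 X w ζ lam tau * (Complex.exp u - 1)‖ ≤
      (C * (C + 1) * δ) * (2 * R ^ 2) * Bd + Bd * (2 * (R ^ 2 * (2 * C * δ))) :=
    (norm_sub_le _ _).trans (add_le_add (h1.trans h3) h4)
  calc _ ≤ Real.exp (R ^ 2 * ‖l‖) *
        ((C * (C + 1) * δ) * (2 * R ^ 2) * Bd + Bd * (2 * (R ^ 2 * (2 * C * δ)))) :=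
        mul_le_mul hE h5 (norm_nonneg _) (Real.exp_pos _).le
    _ = _ := by ring

end Diff

open Diff in
/-- Item Diff. -/
theorem diff (hN : StmtNear) : StmtDiff := by
  intro D θ hθ hθ1
  obtain ⟨r₀, C, hr0, hr1, hC, hnear⟩ := hN D
  set K : ℝ := 1 + |(D.t : ℝ)| + ‖D.β‖ + ‖(D.t : ℂ) - D.β‖ with hK
  have hK1 : 1 ≤ K := by
    have h1 := abs_nonneg (D.t : ℝ)
    have h2 := norm_nonneg D.β
    have h3 := norm_nonneg ((D.t : ℂ) - D.β)
    rw [hK]
    linarith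
  set M : ℝ := 1 + ‖D.l‖ + 2 * C with hM
  have hl0 : 0 ≤ ‖D.l‖ := norm_nonneg _
  have hM1 : 1 ≤ M := by rw [hM]; linarith
  obtain ⟨S₁, hS₁⟩ := exists_nat_gt (3 + K + 2 * M + 2 * C * (C + 3) + 1 / r₀ + 2 * C * K ^ 2 +
    (21 + K ^ 2 * ‖D.l‖) / (2 * Real.pi * θ))
  have hpi := Real.pi_gt_three
  have hp1 : 0 ≤ 2 * C * (C + 3) := by positivity
  have hp2 : 0 ≤ 1 / r₀ := by positivity
  have hp3 : 0 ≤ 2 * C * K ^ 2 := by positivity
  have hp4 : 0 ≤ (21 + K ^ 2 * ‖D.l‖) / (2 * Real.pi * θ) := by positivity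
  refine ⟨S₁, ?_, ?_⟩
  · have : (1 : ℝ) < S₁ := by linarith
    exact_mod_cast this
  intro S L₀ T hS hL1 hL2 hT V' hV' γ hγ
  have hS' : (S₁ : ℝ) ≤ S := by exact_mod_cast hS
  set s : ℝ := (S : ℝ) with hs
  have hs3 : 3 ≤ s := by linarith
  have hsK : K ≤ s := by linarith
  have hsM : 2 * M ≤ s := by linarith
  have hsC : 2 * C * (C + 3) ≤ s := by linarith
  have hsr : 1 / r₀ ≤ s := by linarith
  have hsk : 2 * C * K ^ 2 ≤ s := by linarith
  have hst : (21 + K ^ 2 * ‖D.l‖) / (2 * Real.pi * θ) ≤ s := by linarith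
  have hs0 : 0 < s := by linarith
  set x : ℝ := Real.log s with hx
  have hx1 : 1 ≤ x := by
    rw [hx, Real.le_log_iff_exp_le hs0]
    exact (Real.exp_one_lt_d9.le.trans (by norm_num)).trans hs3
  have hL0 : (1 : ℝ) ≤ L₀ := by
    rcases Nat.eq_zero_or_pos L₀ with h | h
    · exfalso
      rw [h] at hL1
      simp only [Nat.cast_zero, zero_mul] at hL1
      have h0 : 0 < s ^ 2 := pow_pos hs0 2
      exact absurd hL1 (not_le.mpr h0)
    · exact_mod_cast h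
  set L : ℝ := (L₀ : ℝ) with hL
  have hVf : GSL.Vf S L₀ = 2 * Real.pi * s ^ 2 * L * x := rfl
  have hV4 : s ^ 4 ≤ V' := by
    refine le_trans ?_ hV'
    rw [hVf]
    have h1 : s ^ 2 * s ^ 2 ≤ s ^ 2 * (L * x) := mul_le_mul_of_nonneg_left hL1 (by positivity)
    have h2 : 0 ≤ s ^ 2 * (L * x) := by positivity
    have h3 : 1 * (s ^ 2 * (L * x)) ≤ (2 * Real.pi) * (s ^ 2 * (L * x)) :=
      mul_le_mul_of_nonneg_right (by linarith only [hpi]) h2
    calc s ^ 4 = s ^ 2 * s ^ 2 := by ring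
      _ ≤ s ^ 2 * (L * x) := h1
      _ = 1 * (s ^ 2 * (L * x)) := by ring
      _ ≤ (2 * Real.pi) * (s ^ 2 * (L * x)) := h3
      _ = _ := by ring
  have hexpV : Real.exp (-V') ≤ 1 / s ^ 4 := by
    rw [Real.exp_neg, inv_eq_one_div]
    refine one_div_le_one_div_of_le (by positivity) ?_
    have := Real.add_one_le_exp V'
    linarith
  have hV0 : Real.exp (-V') ≤ r₀ := by
    refine hexpV.trans ?_
    rw [div_le_iff₀ (by positivity)]
    have h1 : 1 ≤ s * r₀ := by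
      rwa [div_le_iff₀ hr0] at hsr
    have h2 : s ≤ s ^ 4 := by
      calc s = s ^ 1 := (pow_one s).symm
        _ ≤ s ^ 4 := pow_le_pow_right₀ (by linarith only [hs3]) (by norm_num)
    calc 1 ≤ s * r₀ := h1
      _ ≤ s ^ 4 * r₀ := mul_le_mul_of_nonneg_right h2 hr0.le
      _ = _ := by ring
  obtain ⟨hg0, hA0, -, -, l', e', sc, hXe, he, h1s, hs2, hl'C, hll, hform⟩ :=
    hnear γ (hγ.trans hV0)
  refine ⟨hg0, hA0, ?_⟩
  intro r c
  set δ : ℝ := Real.exp (-V') with hδ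
  have hδ0 : 0 < δ := Real.exp_pos _
  set R : ℝ := K * s with hR
  have hR1 : 1 ≤ R := one_le_mul_of_one_le_of_one_le hK1 (by linarith only [hs3])
  have hXl : ‖D.l - D.B₀.eval γ / D.A₀.eval γ‖ ≤ C * (C + 1) * δ := by
    rw [hXe]
    have h1 : D.l - sc * l' = (D.l - l') + (1 - sc) * l' := by ring
    rw [h1]
    refine (norm_add_le _ _).trans ?_
    rw [norm_sub_rev, norm_mul]
    have h2 : ‖l' - D.l‖ ≤ C * δ := hll.trans (mul_le_mul_of_nonneg_left hγ hC.le)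
    have h3 : ‖1 - sc‖ ≤ C * δ := h1s.trans (mul_le_mul_of_nonneg_left hγ hC.le)
    have h4 : ‖1 - sc‖ * ‖l'‖ ≤ C * δ * C :=
      mul_le_mul h3 hl'C (norm_nonneg _) (by positivity)
    calc _ ≤ C * δ + C * δ * C := add_le_add h2 h4
      _ = _ := by ring
  have hXM : ‖D.B₀.eval γ / D.A₀.eval γ‖ ≤ M := by
    rw [hXe, norm_mul]
    calc ‖sc‖ * ‖l'‖ ≤ 2 * C := mul_le_mul hs2 hl'C (norm_nonneg _) (by norm_num)
      _ ≤ M := by rw [hM]; linarith
  have hlam : ((r.1 : ℕ) : ℝ) ≤ L := by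
    have := r.1.2
    rw [hL]
    exact_mod_cast this.le
  have htau : ((c.1 : ℕ) : ℝ) ≤ 2 * L := by
    have := c.1.2
    refine le_trans ?_ hT
    exact_mod_cast this.le
  have hsR : s ^ 2 ≤ R ^ 2 := by
    rw [hR, mul_pow]
    exact le_mul_of_one_le_left (sq_nonneg s) (one_le_pow₀ hK1)
  have hK2 : 1 + |(D.t : ℝ)| + ‖D.β‖ ≤ K := by
    have h3 := norm_nonneg ((D.t : ℂ) - D.β)
    rw [hK]
    linarith
  have hK3 : 1 + |(D.t : ℝ)| + ‖(D.t : ℂ) - D.β‖ ≤ K := by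
    have h3 := norm_nonneg D.β
    rw [hK]
    linarith
  have b1 : ‖wv D.β r.2.1‖ ≤ R :=
    (wv_bound D.t D.β r.2.2).trans (mul_le_mul_of_nonneg_right hK2 hs0.le)
  have b2 : ‖zv D.t D.β c.2.1‖ ≤ R :=
    (zv_bound D.t D.β c.2.2).trans (mul_le_mul_of_nonneg_right hK2 hs0.le)
  have b3 : ‖wv ((D.t : ℂ) - D.β) r.2.1‖ ≤ R :=
    (wv_bound D.t ((D.t : ℂ) - D.β) r.2.2).trans (mul_le_mul_of_nonneg_right hK3 hs0.le)
  have b4 : ‖zv D.t ((D.t : ℂ) - D.β) c.2.1‖ ≤ R :=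
    (zv_bound D.t ((D.t : ℂ) - D.β) c.2.2).trans (mul_le_mul_of_nonneg_right hK3 hs0.le)
  have key := entry_bound D.l l' e' (D.B₀.eval γ / D.A₀.eval γ) (wv D.β r.2.1)
    (zv D.t D.β c.2.1) (wv ((D.t : ℂ) - D.β) r.2.1) (zv D.t ((D.t : ℂ) - D.β) c.2.1)
    r.1 c.1 R M C δ hR1 hM1 hC hδ0.le b1 b2 b3 b4 hXM (by rw [hM]; linarith) ((hlam.trans hL2).trans hsR)
    (htau.trans (by linarith)) hXl (hll.trans (mul_le_mul_of_nonneg_left hγ hC.le))
    (he.trans (mul_le_mul_of_nonneg_left hγ hC.le)) ?_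
  · have hent : D.ent (D.B₀.eval γ / D.A₀.eval γ) γ r c =
        GSL.ent0 (D.B₀.eval γ / D.A₀.eval γ) (wv D.β r.2.1) (zv D.t D.β c.2.1) r.1 c.1 *
          Complex.exp (wv D.β r.2.1 * zv D.t D.β c.2.1 * l' +
          wv ((D.t : ℂ) - D.β) r.2.1 * zv D.t ((D.t : ℂ) - D.β) c.2.1 * e') := by
      unfold CDat.ent
      rw [hform]
    rw [hent]
    refine key.trans ?_
    rw [Real.exp_add]
    refine mul_le_mul_of_nonneg_left ?_ hδ0.le
    have hR0 : 0 < R := by linarith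
    have hlogR : Real.log R ≤ 2 * x := by
      rw [hR, Real.log_mul (by linarith) hs0.ne']
      have : Real.log K ≤ x := Real.log_le_log (by linarith) hsK
      linarith
    have hlogR0 : 0 ≤ Real.log R := Real.log_nonneg hR1
    have hpos : 0 < (2 * M * R ^ 3) ^ (c.1 : ℕ) * R ^ (r.1 : ℕ) * Real.exp (R ^ 2 * ‖D.l‖) *
        (2 * C * (C + 3) * R ^ 2) := by positivity
    rw [← Real.log_le_iff_le_exp hpos]
    have hM0 : 0 < M := by linarith
    rw [Real.log_mul (by positivity) (by positivity), Real.log_mul (by positivity) (by positivity),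
      Real.log_mul (by positivity) (by positivity), Real.log_exp, Real.log_pow, Real.log_pow,
      Real.log_mul (x := 2 * M) (by positivity) (by positivity), Real.log_pow,
      Real.log_mul (x := 2 * C * (C + 3)) (by positivity) (by positivity), Real.log_pow]
    have hlM : Real.log (2 * M) ≤ x := Real.log_le_log (by positivity) hsM
    have hlC : Real.log (2 * C * (C + 3)) ≤ x := Real.log_le_log (by positivity) hsC
    have hLx : 0 ≤ L * x := by positivity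
    have a1 : ((c.1 : ℕ) : ℝ) * (Real.log (2 * M) + ((3 : ℕ) : ℝ) * Real.log R) ≤
        2 * L * (x + 3 * (2 * x)) := by
      refine mul_le_mul htau ?_ ?_ (by positivity)
      · push_cast
        linarith
      · have : 0 ≤ Real.log (2 * M) := Real.log_nonneg (by linarith)
        push_cast
        positivity
    have a2 : ((r.1 : ℕ) : ℝ) * Real.log R ≤ L * (2 * x) :=
      mul_le_mul hlam hlogR hlogR0 (by positivity)
    have a3 : R ^ 2 * ‖D.l‖ ≤ K ^ 2 * ‖D.l‖ * (L * x) := by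
      rw [hR, mul_pow]
      have : K ^ 2 * s ^ 2 * ‖D.l‖ = K ^ 2 * ‖D.l‖ * s ^ 2 := by ring
      rw [this]
      exact mul_le_mul_of_nonneg_left hL1 (by positivity)
    have a4 : x ≤ L * x := le_mul_of_one_le_left (by linarith only [hx1]) hL0
    have a5 : (21 + K ^ 2 * ‖D.l‖) * (L * x) ≤ θ * GSL.Vf S L₀ := by
      rw [hVf]
      have h1 : 21 + K ^ 2 * ‖D.l‖ ≤ s * (2 * Real.pi * θ) := by
        rwa [div_le_iff₀ (by positivity)] at hst
      have h2 : s ≤ s ^ 2 := le_self_pow₀ (by linarith only [hs3]) (by norm_num)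
      calc (21 + K ^ 2 * ‖D.l‖) * (L * x) ≤ (s * (2 * Real.pi * θ)) * (L * x) :=
            mul_le_mul_of_nonneg_right h1 hLx
        _ ≤ (s ^ 2 * (2 * Real.pi * θ)) * (L * x) := by
            refine mul_le_mul_of_nonneg_right ?_ hLx
            exact mul_le_mul_of_nonneg_right h2 (by positivity)
        _ = _ := by ring
    push_cast at a1 ⊢
    have a6 : 0 ≤ L * x := hLx
    linarith only [a1, a2, a3, a4, a5, hlC, hlogR]
  · have h1 : R ^ 2 * (2 * C * δ) ≤ R ^ 2 * (2 * C * (1 / s ^ 4)) := by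
      refine mul_le_mul_of_nonneg_left ?_ (by positivity)
      exact mul_le_mul_of_nonneg_left hexpV (by positivity)
    refine h1.trans ?_
    have h2 : R ^ 2 * (2 * C * (1 / s ^ 4)) = 2 * C * K ^ 2 / s ^ 2 := by
      rw [hR]
      field_simp
    rw [h2, div_le_one (by positivity)]
    exact hsk.trans (le_self_pow₀ (by linarith only [hs3]) (by norm_num))

end GSQ
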