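import Pool.Agent.Work.MP_327059_nt.QF.StmtsA
import Pool.Agent.Work.MP_327059_nt.Bd.B05

/-!
# MP_327059_nt, second part : the estimate of the determinant polynomial, general form
-/

open Polynomial Filter Topology

namespace GSQ

namespace E0

lemma nwv (β : ℂ) {S : ℕ} {p : ℤ × ℤ} (hp : p ∈ GSL.circ S) :
    ‖GSQ.wv β p‖ ≤ (1 + ‖β‖) * S := GSL.E0.norm_wv β hp

lemma nzv (t : ℤ) (β : ℂ) {S : ℕ} {p : ℤ × ℤ} (hp : p ∈ GSL.circ S) :
    ‖GSQ.zv t β p‖ ≤ (1 + |(t : ℝ)| + ‖β‖) * S := GSL.E0.norm_zv t β hp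

end E0

open GSL GSL.E0 GSQ.E0 in
theorem ezero (hEval : GSQ.StmtEval) (hNear : GSQ.StmtNear) (hDet : GSL.StmtDet)
    (hCost : GSL.StmtCost) (hExp : GSQ.StmtExp) (hExpBd : GSQ.StmtExpBd) : GSQ.StmtE0 := by
  intro D CA
  obtain ⟨r₀, C₁, hr₀, -, hC₁, hnear⟩ := hNear D
  set κ : ℝ := max 1 C₁ with hκd
  have hκ1 : 1 ≤ κ := le_max_left _ _
  have hκC : C₁ ≤ κ := le_max_right _ _
  set α : ℝ := max 1 ‖D.a₁ * D.a₂‖ with hαd
  have hα1 : 1 ≤ α := le_max_left _ _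
  have hαa : ‖D.a₁ * D.a₂‖ ≤ α := le_max_right _ _
  set c : ℝ := 2 + 2 * |(D.t : ℝ)| + ‖D.β‖ with hcd
  have htβ : ‖(D.t : ℂ) - D.β‖ ≤ |(D.t : ℝ)| + ‖D.β‖ := by
    refine (norm_sub_le _ _).trans (le_of_eq ?_)
    rw [GSL.E0.norm_int]
  have hc2 : 2 ≤ c := by
    have := abs_nonneg (D.t : ℝ)
    have := norm_nonneg D.β
    linarith
  have hlκ : 0 ≤ Real.log κ := Real.log_nonneg hκ1
  have hlα : 0 ≤ Real.log α := Real.log_nonneg hα1
  have hlc : 0 ≤ Real.log (2 * c) := Real.log_nonneg (by linarith)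
  have hCA : (0 : ℝ) ≤ CA := by positivity
  set C₂ : ℝ := 8 + Real.log (2 * c) + Real.log κ + 2 * c ^ 2 * κ + CA * Real.log α with hC₂
  have hcκ : 0 ≤ 2 * c ^ 2 * κ := by positivity
  have hCAα : 0 ≤ CA * Real.log α := mul_nonneg hCA hlα
  obtain ⟨S₁, hS₁⟩ := exists_nat_ge (2 + 1 / r₀ + c ^ 2 * κ + 2 * κ)
  have hS₁2 : (2 : ℝ) ≤ S₁ := by
    have : 0 ≤ 1 / r₀ := by positivity
    have : 0 ≤ c ^ 2 * κ := by positivity
    linarith
  refine ⟨C₂, S₁, by linarith, ?_, ?_⟩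
  · have : (1 : ℝ) < S₁ := by linarith
    exact_mod_cast this
  intro S L₀ T hS hL1 hLS hT e he OT AT hOT hAT hgood y₁ hy₁ y hy E hE θ hθ hθ1 m
  have hSr : (S₁ : ℝ) ≤ S := by exact_mod_cast hS
  have hS2 : (2 : ℝ) ≤ S := hS₁2.trans hSr
  have hS2n : 2 ≤ S := by exact_mod_cast hS2
  have hS0 : (0 : ℝ) < S := by linarith
  have hlS : 0 < Real.log S := Real.log_pos (by linarith)
  have hr₀i : 0 ≤ 1 / r₀ := by positivity
  have hc2κ : 0 ≤ c ^ 2 * κ := by positivity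
  have hSr₀ : 1 / r₀ ≤ S := by linarith
  have hScκ : c ^ 2 * κ ≤ S := by linarith
  have hS2κ : 2 * κ ≤ S := by linarith
  -- closeness
  have hclose : ‖y - D.Y‖ ≤ Real.exp (-y₁) / S ^ 5 := by
    refine hy.trans ?_
    have h1 : Real.exp (-(y₁ + C₂ * Real.log S)) ≤ Real.exp (-(y₁ + 5 * Real.log S)) := by
      apply Real.exp_le_exp.2
      have : 5 * Real.log S ≤ C₂ * Real.log S := mul_le_mul_of_nonneg_right (by linarith) hlS.le
      linarith
    refine h1.trans (le_of_eq ?_)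
    have h2 : Real.exp (5 * Real.log S) = (S : ℝ) ^ 5 := by
      have : (5 : ℝ) * Real.log S = ((5 : ℕ) : ℝ) * Real.log S := by norm_num
      rw [this, Real.exp_nat_mul, Real.exp_log hS0]
    rw [neg_add, Real.exp_add, Real.exp_neg (5 * Real.log S), h2, div_eq_mul_inv]
  have hey₁ : Real.exp (-y₁) ≤ 1 := Real.exp_le_one_iff.2 (by linarith)
  have hey₁0 : 0 < Real.exp (-y₁) := Real.exp_pos _
  have hS1 : (1 : ℝ) ≤ S := by linarith
  have hrr : ‖y - D.Y‖ ≤ r₀ := by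
    refine hclose.trans ?_
    have h1 : Real.exp (-y₁) / (S : ℝ) ^ 5 ≤ 1 / S := by
      rw [div_le_div_iff₀ (by positivity) hS0]
      have h2 : (S : ℝ) ≤ S ^ 5 := le_self_pow₀ hS1 (by norm_num)
      exact mul_le_mul hey₁ h2 hS0.le zero_le_one
    refine h1.trans ?_
    rw [div_le_iff₀ hS0]
    rw [div_le_iff₀ hr₀] at hSr₀
    linarith
  obtain ⟨hy0, hA0, hyC, hAC, l', ε', s, hX, hε', hs1, hs2, hl', -, hexp⟩ := hnear y hrr
  -- the bounds of the frequencies and points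
  set R₁ : ℝ := c * S with hR₁
  have hR₁1 : 1 ≤ R₁ := by
    calc (1 : ℝ) ≤ 2 * 2 := by norm_num
      _ ≤ c * S := mul_le_mul hc2 hS2 (by norm_num) (by linarith)
  have habt : 0 ≤ |(D.t : ℝ)| := abs_nonneg _
  have hw : ∀ p : {p : ℤ × ℤ // p ∈ circ S}, ‖GSQ.wv D.β p.1‖ ≤ R₁ := fun p =>
    (nwv D.β p.2).trans (mul_le_mul_of_nonneg_right (by linarith) hS0.le)
  have hz : ∀ p : {p : ℤ × ℤ // p ∈ circ S}, ‖GSQ.zv D.t D.β p.1‖ ≤ R₁ := fun p =>
    (nzv D.t D.β p.2).trans (mul_le_mul_of_nonneg_right (by linarith) hS0.le)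
  have hw' : ∀ p : {p : ℤ × ℤ // p ∈ circ S}, ‖GSQ.wv ((D.t : ℂ) - D.β) p.1‖ ≤ R₁ := fun p =>
    (nwv _ p.2).trans (mul_le_mul_of_nonneg_right (by linarith) hS0.le)
  have hz' : ∀ p : {p : ℤ × ℤ // p ∈ circ S}, ‖GSQ.zv D.t ((D.t : ℂ) - D.β) p.1‖ ≤ R₁ :=
    fun p => (nzv D.t _ p.2).trans (mul_le_mul_of_nonneg_right (by linarith) hS0.le)
  -- small quantities
  have hδ0 : 0 ≤ ‖y - D.Y‖ := norm_nonneg _
  have hS5 : (0 : ℝ) < S ^ 5 := by positivity
  have hδS : ‖y - D.Y‖ * S ^ 5 ≤ Real.exp (-y₁) := by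
    rwa [le_div_iff₀ hS5] at hclose
  have hlt : ∀ (lam : ℕ) (tau : ℕ), (lam : ℝ) ≤ S ^ 2 → (tau : ℝ) ≤ 2 * S ^ 2 →
      (lam : ℝ) * tau * ‖1 - s‖ ≤ Real.exp (-y₁) := by
    intro lam tau h1 h2
    have h3 : (lam : ℝ) * tau ≤ S ^ 2 * (2 * S ^ 2) :=
      mul_le_mul h1 h2 (by positivity) (by positivity)
    calc (lam : ℝ) * tau * ‖1 - s‖ ≤ (S ^ 2 * (2 * S ^ 2)) * (κ * ‖y - D.Y‖) := by
          refine mul_le_mul h3 (hs1.trans (mul_le_mul_of_nonneg_right hκC hδ0)) (norm_nonneg _)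
            (by positivity)
      _ = (2 * κ) * S ^ 4 * ‖y - D.Y‖ := by ring
      _ ≤ S * S ^ 4 * ‖y - D.Y‖ := by gcongr
      _ = ‖y - D.Y‖ * S ^ 5 := by ring
      _ ≤ _ := hδS
  have hRε : R₁ ^ 2 * ‖ε'‖ ≤ Real.exp (-y₁) := by
    calc R₁ ^ 2 * ‖ε'‖ ≤ R₁ ^ 2 * (κ * ‖y - D.Y‖) := by
          gcongr
          exact hε'.trans (mul_le_mul_of_nonneg_right hκC hδ0)
      _ = (c ^ 2 * κ) * S ^ 2 * ‖y - D.Y‖ := by rw [hR₁]; ring
      _ ≤ S * S ^ 2 * ‖y - D.Y‖ := by gcongr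
      _ ≤ S * S ^ 4 * ‖y - D.Y‖ := by
          have h1 : (S : ℝ) ^ 2 ≤ S ^ 4 := pow_le_pow_right₀ hS1 (by norm_num)
          exact mul_le_mul_of_nonneg_right (mul_le_mul_of_nonneg_left h1 hS0.le) hδ0
      _ = ‖y - D.Y‖ * S ^ 5 := by ring
      _ ≤ _ := hδS
  have hx : 0 < Real.log E := Real.log_pos hE
  -- the determinant
  set N : ℝ := ((circ S).card : ℝ) with hN
  have hN0 : 0 ≤ N := by positivity
  have hcard : (Fintype.card (Ix S L₀) : ℝ) = L₀ * N := by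
    rw [card_Ix]
    push_cast
    rfl
  have hlam : ∀ r : Ix S L₀, ((r.1 : ℕ) : ℝ) ≤ S ^ 2 := fun r => by
    have : ((r.1 : ℕ) : ℝ) ≤ L₀ := by exact_mod_cast r.1.2.le
    exact this.trans hLS
  have htau : ∀ r : Ix S T, ((r.1 : ℕ) : ℝ) ≤ 2 * S ^ 2 := fun r => by
    have : ((r.1 : ℕ) : ℝ) ≤ T := by exact_mod_cast r.1.2.le
    linarith
  have htauR : ∀ r : Ix S T, ((r.1 : ℕ) : ℝ) ≤ R₁ ^ 2 := fun r => by
    refine (htau r).trans ?_
    have : R₁ ^ 2 = c ^ 2 * S ^ 2 := by rw [hR₁]; ring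
    rw [this]
    have h4 : (2 : ℝ) ≤ c ^ 2 := by
      calc (2 : ℝ) ≤ 2 ^ 2 := by norm_num
        _ ≤ c ^ 2 := pow_le_pow_left₀ (by norm_num) hc2 2
    exact mul_le_mul_of_nonneg_right h4 (by positivity)
  have hdet := hDet (Ix S L₀)
    (Matrix.of fun s' r : Ix S L₀ => D.ent (D.B₀.eval y / D.A₀.eval y) y r (e s'))
    (fun r m => GSQ.Pc l' ε' (GSQ.wv D.β r.2.1) (GSQ.wv ((D.t : ℂ) - D.β) r.2.1) r.1 m)
    (fun s' m => GSQ.Qc s (GSQ.zv D.t D.β (e s').2.1)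
      (GSQ.zv D.t ((D.t : ℂ) - D.β) (e s').2.1) (e s').1 m)
    (by
      intro s' r
      have h1 := hExp l' ε' s (GSQ.wv D.β r.2.1) (GSQ.wv ((D.t : ℂ) - D.β) r.2.1)
        (GSQ.zv D.t D.β (e s').2.1) (GSQ.zv D.t ((D.t : ℂ) - D.β) (e s').2.1) r.1 (e s').1
      have h2 : (Matrix.of fun s' r : Ix S L₀ => D.ent (D.B₀.eval y / D.A₀.eval y) y r (e s')) s' r
          = ent0 (s * l') (GSQ.wv D.β r.2.1) (GSQ.zv D.t D.β (e s').2.1) r.1 (e s').1 *
            Complex.exp (GSQ.wv D.β r.2.1 * GSQ.zv D.t D.β (e s').2.1 * l' +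
              GSQ.wv ((D.t : ℂ) - D.β) r.2.1 *
                GSQ.zv D.t ((D.t : ℂ) - D.β) (e s').2.1 * ε') := by
        rw [Matrix.of_apply, CDat.ent, hX, hexp]
      rw [h2]
      exact h1)
    (fun r => Real.exp (2 * R₁ ^ 2 * E * ‖l'‖) * (2 * R₁ * E) ^ ((r.1 : ℕ)))
    (fun s' => (max 1 ‖s‖ * R₁) ^ (((e s').1 : ℕ)))
    (Real.log E) y₁ hx hy₁ (fun r => by positivity) (fun s' => by positivity)
    (by
      intro r s' m'
      exact hExpBd l' ε' s (GSQ.wv D.β r.2.1) (GSQ.wv ((D.t : ℂ) - D.β) r.2.1)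
        (GSQ.zv D.t D.β (e s').2.1) (GSQ.zv D.t ((D.t : ℂ) - D.β) (e s').2.1) r.1 (e s').1 R₁ E
        y₁ hR₁1 (hw r.2) (hw' r.2) (hz (e s').2) (hz' (e s').2) (htauR (e s')) hE.le
        (hlt _ _ (hlam r) (htau (e s'))) hRε m')
    θ (Kc (L₀ * N) (Real.log E) y₁ m) hθ hθ1
    (by
      intro f hf
      have h1 := hCost (Ix S L₀) f hf (Real.log E) y₁ hx hy₁ m
      rw [hcard] at h1
      exact h1)
  -- the sizes of the factors
  set n : ℝ := L₀ * N with hn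
  have hn0 : 0 ≤ n := by positivity
  have hL0 : (0 : ℝ) < L₀ := by exact_mod_cast hL1
  have hsumT : ∑ r, (((e r).1 : ℕ) : ℝ) ≤ n * (T ^ 2 / (2 * L₀)) := by
    refine (sum_tau_inj e he).trans (le_of_eq ?_)
    show N * ((T : ℝ) ^ 2 / 2) = L₀ * N * (T ^ 2 / (2 * L₀))
    field_simp
  have hsumL : ∑ r : Ix S L₀, ((r.1 : ℕ) : ℝ) ≤ n * (L₀ / 2) := by
    refine (sum_tau S L₀).trans (le_of_eq ?_)
    rw [hn]
    ring
  have b1 : ‖y‖ ^ OT ≤ Real.exp (n * S ^ 2 * Real.log κ) := by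
    refine pow_le_exp (norm_nonneg _) hκ1 (hyC.trans hκC) ?_
    have : (OT : ℝ) ≤ S ^ 2 * (L₀ * (circ S).card) := by exact_mod_cast hOT
    rw [hn]
    linarith
  have b2 : ‖D.a₁ * D.a₂‖ ^ AT ≤ Real.exp (n * S ^ 2 * CA * Real.log α) := by
    refine pow_le_exp (norm_nonneg _) hα1 hαa ?_
    have : (AT : ℝ) ≤ CA * S ^ 2 * (L₀ * (circ S).card) := by exact_mod_cast hAT
    rw [hn]
    linarith
  have b3 : ∏ r, ‖D.A₀.eval y‖ ^ (((e r).1 : ℕ)) ≤
      Real.exp (n * (T ^ 2 / (2 * L₀)) * Real.log κ) :=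
    prod_pow_le_exp _ (norm_nonneg _) hκ1 (hAC.trans hκC) hsumT
  have b4 : ((Fintype.card (Ix S L₀)).factorial : ℝ) ≤ Real.exp (n * (8 * Real.log S)) := by
    have h1 : Fintype.card (Ix S L₀) ≤ S ^ 8 := by
      rw [card_Ix]
      have h2 : L₀ ≤ S ^ 2 := by exact_mod_cast hLS
      have h3 : (circ S).card ≤ (2 * S + 1) ^ 2 := card_circ S
      have h4 : (2 * S + 1) ^ 2 ≤ S ^ 6 := by
        have h5 : 2 * S + 1 ≤ S ^ 3 := by
          have h6 : 4 ≤ S ^ 2 := Nat.pow_le_pow_left hS2n 2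
          calc 2 * S + 1 ≤ 4 * S := by omega
            _ ≤ S ^ 2 * S := Nat.mul_le_mul_right _ h6
            _ = S ^ 3 := by ring
        calc (2 * S + 1) ^ 2 ≤ (S ^ 3) ^ 2 := Nat.pow_le_pow_left h5 2
          _ = S ^ 6 := by ring
      calc L₀ * (circ S).card ≤ S ^ 2 * S ^ 6 := Nat.mul_le_mul h2 (h3.trans h4)
        _ = S ^ 8 := by ring
    have h2 := factorial_le hS2n h1
    rwa [hcard] at h2
  have hlogR : Real.log (2 * R₁) = Real.log (2 * c) + Real.log S := by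
    rw [hR₁, ← mul_assoc, Real.log_mul (by positivity) hS0.ne']
  have hlogRE : Real.log (2 * R₁ * E) = Real.log (2 * c) + Real.log S + Real.log E := by
    rw [Real.log_mul (by positivity) (by positivity), hlogR]
  have h2R : 1 ≤ 2 * R₁ := by linarith
  have h2RE : 1 ≤ 2 * R₁ * E := by
    calc (1 : ℝ) = 1 * 1 := by norm_num
      _ ≤ 2 * R₁ * E := mul_le_mul h2R hE.le zero_le_one (by linarith)
  have b5 : ∏ r : Ix S L₀, (Real.exp (2 * R₁ ^ 2 * E * ‖l'‖) * (2 * R₁ * E) ^ ((r.1 : ℕ))) ≤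
      Real.exp (n * (2 * R₁ ^ 2 * E * κ)) * Real.exp (n * (L₀ / 2) * Real.log (2 * R₁ * E)) := by
    rw [Finset.prod_mul_distrib]
    refine mul_le_mul ?_ (prod_pow_le_exp _ (by positivity) h2RE le_rfl hsumL) (by positivity)
      (Real.exp_pos _).le
    rw [Finset.prod_const, Finset.card_univ, ← Real.exp_nat_mul, hcard]
    apply Real.exp_le_exp.2
    gcongr
    exact hl'.trans hκC
  have b6 : ∏ s' : Ix S L₀, (max 1 ‖s‖ * R₁) ^ (((e s').1 : ℕ)) ≤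
      Real.exp (n * (T ^ 2 / (2 * L₀)) * Real.log (2 * R₁)) := by
    refine prod_pow_le_exp _ (by positivity) h2R ?_ hsumT
    have : max 1 ‖s‖ ≤ 2 := max_le (by norm_num) hs2
    gcongr
  have b7 : ((1 - Real.exp (-(θ * Real.log E)))⁻¹ * ((1 - Real.exp (-(θ * y₁)))⁻¹) ^ 2) ^
      Fintype.card (Ix S L₀) ≤ Real.exp (n * (Real.log (1 + 1 / (θ * Real.log E)) +
        2 * Real.log (1 + 1 / (θ * y₁)))) := by
    obtain ⟨u1, u2⟩ := one_sub_exp_inv (mul_pos hθ hx)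
    obtain ⟨v1, v2⟩ := one_sub_exp_inv (mul_pos hθ hy₁)
    have hp1 : 0 < 1 + 1 / (θ * Real.log E) := by positivity
    have hp2 : 0 < 1 + 1 / (θ * y₁) := by positivity
    have h3 : (1 - Real.exp (-(θ * Real.log E)))⁻¹ * ((1 - Real.exp (-(θ * y₁)))⁻¹) ^ 2 ≤
        Real.exp (Real.log (1 + 1 / (θ * Real.log E)) + 2 * Real.log (1 + 1 / (θ * y₁))) := by
      have h4 : (2 : ℝ) * Real.log (1 + 1 / (θ * y₁)) = ((2 : ℕ) : ℝ) *
        Real.log (1 + 1 / (θ * y₁)) := by norm_num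
      rw [Real.exp_add, Real.exp_log hp1, h4, Real.exp_nat_mul, Real.exp_log hp2]
      gcongr
    rw [← hcard, Real.exp_nat_mul]
    exact pow_le_pow_left₀ (by positivity) h3 _
  -- the value
  rw [hEval D S L₀ T e OT AT hgood y hy0 hA0, norm_mul, norm_mul, norm_mul, norm_pow, norm_pow,
    norm_prod]
  simp only [norm_pow]
  have hd2 : ‖(Matrix.of fun s' r : Ix S L₀ =>
      D.ent (D.B₀.eval y / D.A₀.eval y) y r (e s')).det‖ ≤
      Real.exp (n * (8 * Real.log S)) *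
      (Real.exp (n * (2 * R₁ ^ 2 * E * κ)) * Real.exp (n * (L₀ / 2) * Real.log (2 * R₁ * E))) *
      Real.exp (n * (T ^ 2 / (2 * L₀)) * Real.log (2 * R₁)) *
      Real.exp (-((1 - θ) * Kc n (Real.log E) y₁ m)) *
      Real.exp (n * (Real.log (1 + 1 / (θ * Real.log E)) + 2 * Real.log (1 + 1 / (θ * y₁)))) := by
    refine hdet.trans ?_
    have hpp : 0 ≤ (1 - Real.exp (-(θ * Real.log E)))⁻¹ * ((1 - Real.exp (-(θ * y₁)))⁻¹) ^ 2 :=
      mul_nonneg (one_sub_exp_inv (mul_pos hθ hx)).1 (by positivity)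
    gcongr
  calc ‖y‖ ^ OT * ‖D.a₁ * D.a₂‖ ^ AT * (∏ r, ‖D.A₀.eval y‖ ^ (((e r).1 : ℕ))) *
        ‖(Matrix.of fun s' r : Ix S L₀ =>
          D.ent (D.B₀.eval y / D.A₀.eval y) y r (e s')).det‖
      ≤ Real.exp (n * S ^ 2 * Real.log κ) * Real.exp (n * S ^ 2 * CA * Real.log α) *
        Real.exp (n * (T ^ 2 / (2 * L₀)) * Real.log κ) *
        (Real.exp (n * (8 * Real.log S)) *
      (Real.exp (n * (2 * R₁ ^ 2 * E * κ)) * Real.exp (n * (L₀ / 2) * Real.log (2 * R₁ * E))) *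
      Real.exp (n * (T ^ 2 / (2 * L₀)) * Real.log (2 * R₁)) *
      Real.exp (-((1 - θ) * Kc n (Real.log E) y₁ m)) *
      Real.exp (n * (Real.log (1 + 1 / (θ * Real.log E)) +
        2 * Real.log (1 + 1 / (θ * y₁))))) := by
        gcongr
    _ = Real.exp (n * S ^ 2 * Real.log κ + n * S ^ 2 * CA * Real.log α +
        n * (T ^ 2 / (2 * L₀)) * Real.log κ + (n * (8 * Real.log S) +
        (n * (2 * R₁ ^ 2 * E * κ) + n * (L₀ / 2) * Real.log (2 * R₁ * E)) +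
        n * (T ^ 2 / (2 * L₀)) * Real.log (2 * R₁) + -((1 - θ) * Kc n (Real.log E) y₁ m) +
        n * (Real.log (1 + 1 / (θ * Real.log E)) + 2 * Real.log (1 + 1 / (θ * y₁))))) := by
        simp only [Real.exp_add]
    _ ≤ _ := by
        apply Real.exp_le_exp.2
        rw [hlogRE, hlogR]
        have hR2 : R₁ ^ 2 = c ^ 2 * S ^ 2 := by rw [hR₁]; ring
        rw [hR2]
        have hS2p : (0 : ℝ) ≤ S ^ 2 := by positivity
        -- coefficient of `S² E`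
        have k1 : n * S ^ 2 * Real.log κ + n * S ^ 2 * CA * Real.log α +
            n * (2 * (c ^ 2 * S ^ 2) * E * κ) ≤ n * ((Real.log κ + CA * Real.log α +
              2 * c ^ 2 * κ) * S ^ 2 * E) := by
          have h1 : n * S ^ 2 * Real.log κ ≤ n * S ^ 2 * Real.log κ * E :=
            le_mul_of_one_le_right (by positivity) hE.le
          have h2 : n * S ^ 2 * CA * Real.log α ≤ n * S ^ 2 * CA * Real.log α * E :=
            le_mul_of_one_le_right (by positivity) hE.le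
          have h3 : n * ((Real.log κ + CA * Real.log α + 2 * c ^ 2 * κ) * S ^ 2 * E) =
            n * S ^ 2 * Real.log κ * E + n * S ^ 2 * CA * Real.log α * E +
            n * (2 * (c ^ 2 * S ^ 2) * E * κ) := by ring
          linarith
        have k1' : n * ((Real.log κ + CA * Real.log α + 2 * c ^ 2 * κ) * S ^ 2 * E) ≤
            n * (C₂ * S ^ 2 * E) :=
          mul_le_mul_of_nonneg_left (mul_le_mul_of_nonneg_right
            (mul_le_mul_of_nonneg_right (by linarith) hS2p) (by linarith)) hn0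
        have k2 : n * (L₀ / 2) * (Real.log (2 * c) + Real.log S + Real.log E) ≤
            n * (L₀ / 2 * (Real.log S + Real.log E + C₂)) := by
          rw [mul_assoc]
          exact mul_le_mul_of_nonneg_left
            (mul_le_mul_of_nonneg_left (by linarith) (by positivity)) hn0
        have k3 : n * (T ^ 2 / (2 * L₀)) * Real.log κ +
            n * (T ^ 2 / (2 * L₀)) * (Real.log (2 * c) + Real.log S) ≤
            n * ((T : ℝ) ^ 2 / (2 * L₀) * (Real.log S + C₂)) := by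
          have h1 : n * (T ^ 2 / (2 * L₀)) * Real.log κ +
            n * (T ^ 2 / (2 * L₀)) * (Real.log (2 * c) + Real.log S) =
            n * ((T : ℝ) ^ 2 / (2 * L₀) * (Real.log S + (Real.log κ + Real.log (2 * c)))) := by
            ring
          rw [h1]
          exact mul_le_mul_of_nonneg_left
            (mul_le_mul_of_nonneg_left (by linarith) (by positivity)) hn0
        have k4 : n * (8 * Real.log S) ≤ n * (C₂ * Real.log S) :=
          mul_le_mul_of_nonneg_left (mul_le_mul_of_nonneg_right (by linarith) hlS.le) hn0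
        have k6 : n * (C₂ * S ^ 2 * E + L₀ / 2 * (Real.log S + Real.log E + C₂) +
                (T : ℝ) ^ 2 / (2 * L₀) * (Real.log S + C₂) + C₂ * Real.log S +
                Real.log (1 + 1 / (θ * Real.log E)) + 2 * Real.log (1 + 1 / (θ * y₁))) =
            n * (C₂ * S ^ 2 * E) + n * (L₀ / 2 * (Real.log S + Real.log E + C₂)) +
            n * ((T : ℝ) ^ 2 / (2 * L₀) * (Real.log S + C₂)) + n * (C₂ * Real.log S) +
            n * (Real.log (1 + 1 / (θ * Real.log E)) + 2 * Real.log (1 + 1 / (θ * y₁))) := by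
          ring
        rw [k6]
        linarith

end GSQ
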