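import Pool.Agent.Work.MP_327059_nt.QF.StmtsA
import Pool.Agent.Work.MP_327059_nt.E1

/-!
# MP_327059_nt, second part : the estimate of the determinant polynomial, first form
-/

open Polynomial Filter Topology

namespace GSQ.E1

theorem aux_K {L y : ℝ} (hL : 0 < L) (hy : 0 < y) :
    GSL.Kc L (4096 * (y / L)) y 28 = 170506 / 8192 * (L * y) - 4060 * y := by
  unfold GSL.Kc
  field_simp
  push_cast
  ring

/-- The final combination. -/
theorem comb {ε σ w c lg C₂ l L T1 T2 T3 T5 T6 lx : ℝ} (hε : 0 < ε) (hL : 0 < L)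
    (hσ : 0 ≤ σ) (hw : 0 ≤ w) (hT2 : T2 = σ / 2 + lx / 2 + C₂ * l / 2)
    (hlx : lx / 2 ≤ ε * w / 10) (hC : C₂ * l ≤ ε * σ / 25) (hc : c ≤ ε * σ / 1000)
    (hlg : lg ≤ ε * σ / 30) (hT3 : T3 ≤ (1 / 2 + 3 / 2 * ε) * σ + 2 * (C₂ * l))
    (hT1 : T1 ≤ ε * σ / 10 + ε * w / 10) (hT5 : T5 ≤ 3 * lg) (hT6 : T6 ≤ 2 * lg)
    (hwL : 4096 * w ≤ 2 * lg * L) (hc0 : 0 ≤ c) (hε1 : ε < 1) :
    L * (T1 + T2 + T3 + c + T5 + T6) -
        (1 - ε / 100) * (170506 / 8192 * (L * (w - c)) - 4060 * (w - c)) ≤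
      L * ((1 + 5 * ε) * σ + 5 * ε * w) - 104 / 5 * (L * w) := by
  have h1 : T1 + T2 + T3 + c + T5 + T6 + 21 / 100 * (ε * w) + 21 * c + 2 * lg ≤
      (1 + 5 * ε) * σ + 5 * ε * w := by
    have a1 : 0 ≤ ε * σ := by positivity
    have a2 : 0 ≤ ε * w := by positivity
    linarith
  have h2 := mul_le_mul_of_nonneg_left h1 hL.le
  have h3 : -((1 - ε / 100) * (170506 / 8192 * (L * (w - c)) - 4060 * (w - c))) ≤
      -(104 / 5 * (L * w)) + L * (21 / 100 * (ε * w)) + L * (21 * c) + L * (2 * lg) := by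
    have b0 : 0 ≤ L * w := mul_nonneg hL.le hw
    have b1 : 0 ≤ L * c := mul_nonneg hL.le hc0
    have b2 : 0 ≤ ε * (L * w) := mul_nonneg hε.le b0
    have b3 : 0 ≤ ε * (L * c) := mul_nonneg hε.le b1
    have b4 : 0 ≤ ε * w := mul_nonneg hε.le hw
    have b5 : 0 ≤ (1 - ε) * c := mul_nonneg (by linarith) hc0
    have b6 : 4060 * w ≤ L * (2 * lg) := by linarith
    have b7 : -((1 - ε / 100) * (170506 / 8192 * (L * (w - c)) - 4060 * (w - c))) =
        -(170506 / 8192) * (L * w) + 170506 / 819200 * (ε * (L * w)) +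
          170506 / 8192 * (L * c) - 170506 / 819200 * (ε * (L * c)) + 4060 * w - 4060 * c -
          406 / 10 * (ε * w) + 406 / 10 * (ε * c) := by
      ring
    rw [b7]
    have b8 : ε * c ≤ c := by
      have := mul_le_mul_of_nonneg_right hε1.le hc0
      linarith
    linarith
  linarith

end GSQ.E1

namespace GSQ

open GSL GSL.E2 in
theorem eone (h0 : GSQ.StmtE0) (hheight : GSQ.StmtHeight) (hL1 : GSL.StmtL1)
    (hcount : GSL.StmtCount) : GSQ.StmtE1 := by
  intro D CA ε hε hε1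
  obtain ⟨C₂, S₀, hC₂, hS₀, hE0⟩ := h0 D CA
  have hC₂' : 0 ≤ C₂ := zero_le_one.trans hC₂
  obtain ⟨Ch, ch, Sh, hCh, hch, hH⟩ := hheight D.β D.t D.n D.a₁ D.a₂ D.A₀ D.B₀ CA ε hε hε1
  have hpi := Real.pi_pos
  have hpi3 := Real.pi_gt_three
  have hpi4 := Real.pi_lt_d2
  set W : ℝ := 1 + ‖D.Y‖ with hW
  have hW1 : 1 ≤ W := by rw [hW]; linarith [norm_nonneg D.Y]
  have hlW : 0 ≤ Real.log W := Real.log_nonneg hW1
  set q : ℝ := ε / 4 with hq
  have hq0 : 0 < q := by positivity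
  have ev : ∀ᶠ S : ℕ in atTop, S₀ ≤ S ∧ Sh ≤ S ∧ 5 ≤ S ∧ 1 ≤ Real.log S ∧
      25 * C₂ / ε ≤ Real.log S ∧ 5000 / ε ^ 2 ≤ Real.log S ∧
      (Real.pi * (S : ℝ) ^ 2 ≤ (1 + q) * ((circ S).card : ℝ) ∧
        ((circ S).card : ℝ) ≤ (1 + q) * (Real.pi * (S : ℝ) ^ 2)) ∧
      1000 * C₂ / ε * Real.log S ≤ (S : ℝ) ^ 2 ∧ 20480 / ε ≤ (S : ℝ) ^ 2 ∧
      40960 * C₂ / ε * Real.log S ≤ (S : ℝ) ^ ε := by
    filter_upwards [eventually_ge_atTop S₀, eventually_ge_atTop Sh, eventually_ge_atTop 5,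
      ev_log 1, ev_log (25 * C₂ / ε), ev_log (5000 / ε ^ 2), ev_card hcount hq0,
      ev_log_sq (1000 * C₂ / ε), ev_sq (20480 / ε), ev_log_pow (40960 * C₂ / ε) hε] with
      S a1 a2 a3 a4 a5 a6 a7 a8 a9 a10
    exact ⟨a1, a2, a3, a4, a5, a6, a7, a8, a9, a10⟩
  obtain ⟨S₁, hS₁⟩ := eventually_atTop.1 ev
  have hK1 : 0 ≤ 20 * Real.log W / ε := by positivity
  have hK2 : 0 ≤ 30 * C₂ / ε := by positivity
  refine ⟨Ch + 1 + 20 * Real.log W / ε + 30 * C₂ / ε, min ch 1, S₁, by positivity,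
    lt_min hch one_pos, fun S L₀ T hS hL1' hL2 hT e he OT AT hOT hAT hgood w hw0 hw1 y hy => ?_⟩
  obtain ⟨g0, gh, g5, g1, gA, gB, ⟨gc1, gc2⟩, gD, gE, gF⟩ := hS₁ S hS
  set s : ℝ := (S : ℝ) with hs
  set l : ℝ := (L₀ : ℝ) with hl
  set lg : ℝ := Real.log s with hlg
  set n : ℝ := ((circ S).card : ℝ) with hn
  have hs5 : 5 ≤ s := by rw [hs]; exact_mod_cast g5
  have hs0 : 0 < s := by linarith
  have hs2 : 0 < s ^ 2 := pow_pos hs0 2
  set σ : ℝ := l * lg with hσ
  have hσC : (Ch + 1 + 20 * Real.log W / ε + 30 * C₂ / ε) * s ^ 2 ≤ σ := hL1'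
  have e1 : (Ch + 1 + 20 * Real.log W / ε + 30 * C₂ / ε) * s ^ 2 =
      Ch * s ^ 2 + s ^ 2 + 20 * Real.log W / ε * s ^ 2 + 30 * C₂ / ε * s ^ 2 := by ring
  have p1 : 0 ≤ Ch * s ^ 2 := mul_nonneg hCh.le hs2.le
  have p2 : 0 ≤ 20 * Real.log W / ε * s ^ 2 := mul_nonneg hK1 hs2.le
  have p3 : 0 ≤ 30 * C₂ / ε * s ^ 2 := mul_nonneg hK2 hs2.le
  have hσh : Ch * s ^ 2 ≤ σ := by linarith
  have hσ1 : s ^ 2 ≤ σ := by linarith
  have hσW : 20 * Real.log W / ε * s ^ 2 ≤ σ := by linarith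
  have hσ2 : 30 * C₂ / ε * s ^ 2 ≤ σ := by linarith
  have hσ0 : 0 < σ := by linarith
  have hl0 : 0 < l := pos_of_mul_pos_left (by rw [← hσ]; exact hσ0) (by linarith)
  have hL₀ : 1 ≤ L₀ := by
    have : (0 : ℝ) < (L₀ : ℝ) := hl0
    exact_mod_cast this
  have hl1 : 1 ≤ l := by
    rw [hl]
    exact_mod_cast hL₀
  have hlK : 1000 * C₂ / ε ≤ l := by
    have h1 : 1000 * C₂ / ε * lg ≤ l * lg := gD.trans hσ1
    exact le_of_mul_le_mul_right h1 (by linarith)
  have hn1 : s ^ 2 ≤ n := by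
    have h1 : (1 + q) * n ≤ 2 * n := by
      refine mul_le_mul_of_nonneg_right ?_ (Nat.cast_nonneg _)
      rw [hq]; linarith
    have h2 := mul_le_mul_of_nonneg_right hpi3.le hs2.le
    linarith
  have hn4 : n ≤ 4 * s ^ 2 := by
    refine gc2.trans ?_
    have h1 : (1 + q) * Real.pi ≤ 5 / 4 * 3.15 :=
      mul_le_mul (by rw [hq]; linarith) hpi4.le hpi.le (by norm_num)
    have h2 := mul_le_mul_of_nonneg_right h1 hs2.le
    have h3 : (1 + q) * (Real.pi * s ^ 2) = (1 + q) * Real.pi * s ^ 2 := by ring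
    rw [h3]
    linarith
  have hn0 : 0 < n := by linarith
  set L : ℝ := l * n with hL
  have hLpos : 0 < L := mul_pos hl0 hn0
  have hlg0 : 0 < lg := lt_of_lt_of_le one_pos g1
  set V : ℝ := Vf S L₀ with hV
  have hVe : V = 2 * Real.pi * s ^ 2 * l * lg := rfl
  have hVL : (1 - ε) * V ≤ (2 - ε) * lg * L := by
    have h1 : V ≤ 2 * (1 + q) * (L * lg) := by
      rw [hVe, hL]
      have h2 := mul_le_mul_of_nonneg_right gc1 (mul_nonneg zero_le_two hσ0.le : (0 : ℝ) ≤ 2 * (l * lg))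
      linarith
    have h3 : (1 - ε) * V ≤ (1 - ε) * (2 * (1 + q) * (L * lg)) :=
      mul_le_mul_of_nonneg_left h1 (by linarith)
    have h4 : (1 - ε) * (2 * (1 + q)) ≤ 2 - ε := by
      rw [hq]
      have : 0 ≤ ε ^ 2 := sq_nonneg ε
      linarith
    have h5 := mul_le_mul_of_nonneg_right h4 (mul_pos hLpos hlg0).le
    linarith
  have hwL : 4096 * w ≤ (2 - ε) * lg * L := by
    have : w ≤ (1 - ε) * V / 4096 := hw1
    linarith
  have hwL2 : 4096 * w ≤ 2 * lg * L := by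
    have : 0 ≤ ε * lg * L := (mul_pos (mul_pos hε hlg0) hLpos).le
    linarith
  clear gc1 gc2 e1 hσC p1 p2 p3 hVe hVL hpi hpi3 hpi4 hK1 hK2 hS₁ hq0 hq hw1
  change ‖(D.DP e OT AT).eval y‖ ≤
    Real.exp (L * ((1 + 5 * ε) * σ + 5 * ε * w) - 104 / 5 * (L * w))
  by_cases hcase : w ≤ 1 / 25 * (ε * σ)
  · -- trivial estimate
    clear gA gB gD gE gF hn1 hn4 hs5 hσ1 hσ2 hlK hwL hwL2 hE0
    obtain ⟨hdeg, hl1P⟩ := hH S L₀ T gh (by exact hσh)
      (hL2.trans (mul_le_mul_of_nonneg_right (min_le_left _ _) hs2.le)) hT e he OT AT hOT hAT hgood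
    change ((D.DP e OT AT).natDegree : ℝ) ≤ (1 + 2 * ε) * (l * n) * s ^ 2 at hdeg
    change l1 (D.DP e OT AT) ≤ _ at hl1P
    have hev := hL1.2.2.2.2.2.2.2.2.2.1 (D.DP e OT AT) y
    have hyW : max 1 ‖y‖ ≤ W := by
      refine max_le hW1 ?_
      have h1 : ‖y‖ ≤ ‖y - D.Y‖ + ‖D.Y‖ := by
        have := norm_add_le (y - D.Y) D.Y
        rwa [sub_add_cancel] at this
      have h2 : Real.exp (-w) ≤ 1 := Real.exp_le_one_iff.2 (by linarith)
      rw [hW]
      linarith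
    have h1 : (max 1 ‖y‖) ^ (D.DP e OT AT).natDegree ≤
        Real.exp (Real.log W * (D.DP e OT AT).natDegree) := by
      have h2 : Real.exp (Real.log W * (D.DP e OT AT).natDegree) =
          W ^ (D.DP e OT AT).natDegree := by
        rw [mul_comm, Real.exp_nat_mul, Real.exp_log (by linarith)]
      rw [h2]
      exact pow_le_pow_left₀ (zero_le_one.trans (le_max_left _ _)) hyW _
    refine hev.trans ((mul_le_mul hl1P h1 (pow_nonneg (zero_le_one.trans (le_max_left _ _)) _)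
      (Real.exp_pos _).le).trans ?_)
    rw [← Real.exp_add, Real.exp_le_exp]
    have h2 : Real.log W * ((D.DP e OT AT).natDegree : ℝ) ≤ 3 * (Real.log W * s ^ 2) * L := by
      have h3 := mul_le_mul_of_nonneg_left hdeg hlW
      have h4 : (1 + 2 * ε) * (l * n) * s ^ 2 ≤ 3 * (l * n) * s ^ 2 :=
        mul_le_mul_of_nonneg_right (mul_le_mul_of_nonneg_right (by linarith) hLpos.le) hs2.le
      have h5 := mul_le_mul_of_nonneg_left h4 hlW
      have h6 : Real.log W * (3 * (l * n) * s ^ 2) = 3 * (Real.log W * s ^ 2) * L := by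
        rw [hL]; ring
      linarith
    have h3 : Real.log W * s ^ 2 ≤ ε * σ / 20 := by
      have : 20 * Real.log W / ε * s ^ 2 * ε = 20 * (Real.log W * s ^ 2) := by field_simp
      have h4 := mul_le_mul_of_nonneg_right hσW hε.le
      linarith
    have h4 : 3 * (Real.log W * s ^ 2) * L ≤ 3 * (ε * σ / 20) * L :=
      mul_le_mul_of_nonneg_right (by linarith) hLpos.le
    have h5 : (1 + 4 * ε) * (l * n) * (l * lg) = (1 + 4 * ε) * σ * L := by
      rw [hL, hσ]; ring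
    have h6 : w * L ≤ 1 / 25 * (ε * σ) * L := mul_le_mul_of_nonneg_right hcase hLpos.le
    have h6' : 0 ≤ ε * σ * L := (mul_pos (mul_pos hε hσ0) hLpos).le
    have h7 : 0 ≤ ε * w * L := mul_nonneg (mul_nonneg hε.le hw0) hLpos.le
    have h8 : (1 + 4 * ε) * (L₀ * (circ S).card) * (L₀ * Real.log S) = (1 + 4 * ε) * σ * L := h5
    rw [h8]
    linarith
  · -- the estimate of E0
    clear hH hσh hσW hlW hW1
    have hcase' : 1 / 25 * (ε * σ) < w := not_le.1 hcase
    set c : ℝ := C₂ * lg with hc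
    have hc0 : 0 ≤ c := mul_nonneg hC₂' hlg0.le
    have hcσ : c ≤ ε * σ / 1000 := by
      have h1 := GSL.E1.aux_a hε hlK
      have h2 := mul_le_mul_of_nonneg_right h1 (by linarith : (0 : ℝ) ≤ lg)
      have h3 : ε * l * lg = ε * σ := by rw [hσ]; ring
      rw [hc]
      linarith
    have hεσ : 0 < ε * σ := mul_pos hε hσ0
    set y₁ : ℝ := w - c with hy₁
    have hyl : w / 2 ≤ y₁ := by rw [hy₁]; linarith
    have hyl2 : 1 / 50 * (ε * σ) ≤ y₁ := by linarith
    have hy0 : 0 < y₁ := by linarith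
    have hyw : y₁ ≤ w := by rw [hy₁]; linarith
    have hx0 : 0 < y₁ / L := div_pos hy0 hLpos
    have hOT' : OT ≤ S ^ 2 * (L₀ * (circ S).card) := by
      have h1 : (OT : ℝ) ≤ s ^ 2 * (l * n) := by
        refine hOT.trans ?_
        have : (1 + ε) / 2 ≤ 1 := by linarith
        have h2 : 0 ≤ s ^ 2 * (l * n) := mul_nonneg hs2.le hLpos.le
        calc (1 + ε) / 2 * s ^ 2 * (l * n) = (1 + ε) / 2 * (s ^ 2 * (l * n)) := by ring
          _ ≤ 1 * (s ^ 2 * (l * n)) := mul_le_mul_of_nonneg_right this h2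
          _ = _ := one_mul _
      have h2 : ((OT : ℕ) : ℝ) ≤ ((S ^ 2 * (L₀ * (circ S).card) : ℕ) : ℝ) := by
        push_cast
        exact h1
      exact_mod_cast h2
    have hL2' : l ≤ s ^ 2 := by
      refine hL2.trans ?_
      have := mul_le_mul_of_nonneg_right (min_le_right ch 1) hs2.le
      linarith
    have hT2 : (T : ℝ) ≤ 2 * l := hT.trans (mul_le_mul_of_nonneg_right (by linarith) hl0.le)
    have hE := hE0 S L₀ T g0 hL₀ hL2' hT2 e he OT AT hOT' hAT hgood y₁ hy0 y (by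
        have : y₁ + C₂ * Real.log S = w := by rw [hy₁, hc, hlg]; ring
        rw [this]
        exact hy) (Real.exp (4096 * (y₁ / L))) (Real.one_lt_exp_iff.2 (by linarith)) (ε / 100)
        (by linarith) (by linarith) 28
    rw [Real.log_exp] at hE
    refine hE.trans (Real.exp_le_exp.2 ?_)
    change L * (C₂ * s ^ 2 * Real.exp (4096 * (y₁ / L)) + l / 2 * (lg + 4096 * (y₁ / L) + C₂) +
      (T : ℝ) ^ 2 / (2 * l) * (lg + C₂) + c +
      Real.log (1 + 1 / (ε / 100 * (4096 * (y₁ / L)))) +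
      2 * Real.log (1 + 1 / (ε / 100 * y₁))) -
        (1 - ε / 100) * GSL.Kc L (4096 * (y₁ / L)) y₁ 28 ≤ _
    rw [GSQ.E1.aux_K hLpos hy0]
    refine GSQ.E1.comb (C₂ := C₂) (l := l) (lg := lg) (lx := l * (4096 * (y₁ / L))) hε hLpos
      hσ0.le hw0 (by rw [hσ]; ring) ?_ ?_ hcσ ?_ (GSL.E1.aux_T hl0 (Nat.cast_nonneg T) hT hε hε1
        (by linarith) (by linarith)) ?_ ?_ ?_ hwL2 hc0 hε1
    · have h1 : l * (4096 * (y₁ / L)) = 4096 * (y₁ / n) := by
        rw [hL]; field_simp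
      rw [h1]
      have h2 : 20480 ≤ ε * n := by
        have := GSL.E1.aux_a hε gE
        have h3 := mul_le_mul_of_nonneg_left hn1 hε.le
        linarith
      have h3 : y₁ / n ≤ ε * w / 20480 := by
        rw [div_le_iff₀ hn0]
        have h4 := mul_le_mul_of_nonneg_left h2 hw0
        linarith
      linarith
    · have h1 := GSL.E1.aux_a hε gA
      have h2 := mul_le_mul_of_nonneg_left h1 hl0.le
      have h3 : l * (ε * lg) = ε * σ := by rw [hσ]; ring
      linarith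
    · have h1 : 30 / ε ≤ l := by
        refine le_trans ?_ hlK
        exact div_le_div_of_nonneg_right (by linarith) hε.le
      have h2 := GSL.E1.aux_a hε h1
      have h3 := mul_le_mul_of_nonneg_right h2 (by linarith : (0 : ℝ) ≤ lg)
      have h4 : ε * l * lg = ε * σ := by rw [hσ]; ring
      linarith
    · by_cases hwL' : 4096 * w ≤ L
      · have h1 : Real.exp (4096 * (y₁ / L)) ≤ 3 := by
          have h2 : 4096 * (y₁ / L) ≤ 1 := by
            rw [← mul_div_assoc, div_le_one hLpos]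
            linarith
          have h3 := Real.exp_le_exp.2 h2
          have h4 := Real.exp_one_lt_d9
          linarith
        have h2 : C₂ * s ^ 2 * Real.exp (4096 * (y₁ / L)) ≤ C₂ * s ^ 2 * 3 :=
          mul_le_mul_of_nonneg_left h1 (mul_nonneg hC₂' hs2.le)
        have h3 : 30 * C₂ / ε * s ^ 2 * ε = 30 * (C₂ * s ^ 2) := by field_simp
        have h4 := mul_le_mul_of_nonneg_right hσ2 hε.le
        have h5 : 0 ≤ ε * w := mul_nonneg hε.le hw0
        linarith
      · have hwL'' : L < 4096 * w := not_le.1 hwL'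
        have hsε : 0 < s ^ ε := Real.rpow_pos_of_pos hs0 _
        have h1 : Real.exp (4096 * (y₁ / L)) ≤ s ^ 2 / s ^ ε := by
          have h2 : 4096 * (y₁ / L) ≤ (2 - ε) * lg := by
            rw [← mul_div_assoc, div_le_iff₀ hLpos]
            linarith
          refine (Real.exp_le_exp.2 h2).trans (le_of_eq ?_)
          rw [sub_mul, Real.exp_sub]
          congr 1
          · rw [two_mul, Real.exp_add, hlg, Real.exp_log hs0, sq]
          · rw [mul_comm, hlg, ← Real.rpow_def_of_pos hs0]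
        have h2 : C₂ * s ^ 2 * Real.exp (4096 * (y₁ / L)) ≤ C₂ * s ^ 2 * (s ^ 2 / s ^ ε) :=
          mul_le_mul_of_nonneg_left h1 (mul_nonneg hC₂' hs2.le)
        have h3 : C₂ * s ^ 2 * (s ^ 2 / s ^ ε) ≤ ε * w / 10 := by
          rw [← mul_div_assoc, div_le_iff₀ hsε]
          have h4 : s ^ 2 * s ^ 2 ≤ 4096 * (w * lg) := by
            have h5 : s ^ 2 * s ^ 2 ≤ n * σ := mul_le_mul hn1 hσ1 hs2.le hn0.le
            have h6 : n * σ = L * lg := by rw [hL, hσ]; ring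
            have h7 : L * lg ≤ 4096 * w * lg := mul_le_mul_of_nonneg_right hwL''.le (by linarith)
            linarith
          have h5 : 40960 * C₂ * lg ≤ ε * s ^ ε := by
            have : 40960 * C₂ / ε * lg = 40960 * C₂ * lg / ε := by ring
            rw [this] at gF
            exact GSL.E1.aux_a hε gF
          have h6 : C₂ * s ^ 2 * s ^ 2 = C₂ * (s ^ 2 * s ^ 2) := by ring
          have h7 := mul_le_mul_of_nonneg_left h4 (by linarith : (0 : ℝ) ≤ C₂)
          have h8 := mul_le_mul_of_nonneg_left h5 hw0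
          rw [h6]
          linarith
        have h5 : 0 ≤ ε * σ := hεσ.le
        linarith
    · have h0 : 0 < ε / 100 * (4096 * (y₁ / L)) := by positivity
      have h1 : 1 / (ε / 100 * (4096 * (y₁ / L))) ≤ n := by
        rw [div_le_iff₀ h0]
        have h2 : n * (ε / 100 * (4096 * (y₁ / L))) = 4096 / 100 * (ε * y₁) / l := by
          rw [hL]; field_simp
        rw [h2, le_div_iff₀ hl0, one_mul]
        have h3 : 5000 ≤ ε ^ 2 * lg := by
          have := GSL.E1.aux_a (pow_pos hε 2) gB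
          linarith
        have h4 := mul_le_mul_of_nonneg_left hyl2 hε.le
        have h5 := mul_le_mul_of_nonneg_right h3 hl0.le
        have h6 : ε * (1 / 50 * (ε * σ)) = 1 / 50 * (ε ^ 2 * lg * l) := by rw [hσ]; ring
        linarith
      have h2 : 1 + 1 / (ε / 100 * (4096 * (y₁ / L))) ≤ s ^ 3 := by
        have h3 : 1 + 4 * s ^ 2 ≤ s ^ 3 := GSL.E1.aux_s3 hs5
        linarith
      have h3 := Real.log_le_log (add_pos one_pos (one_div_pos.2 h0)) h2
      rw [Real.log_pow] at h3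
      push_cast at h3
      exact h3
    · have h0 : 0 < ε / 100 * y₁ := by positivity
      have h1 : 1 / (ε / 100 * y₁) ≤ 1 := by
        rw [div_le_one h0]
        have h3 : 5000 ≤ ε ^ 2 * lg := by
          have := GSL.E1.aux_a (pow_pos hε 2) gB
          linarith
        have h4 := mul_le_mul_of_nonneg_left hyl2 hε.le
        have h5 := mul_le_mul_of_nonneg_right h3 hl0.le
        have h6 : ε * (1 / 50 * (ε * σ)) = 1 / 50 * (ε ^ 2 * lg * l) := by rw [hσ]; ring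
        linarith
      have h2 : 1 + 1 / (ε / 100 * y₁) ≤ s := by linarith
      have h3 := Real.log_le_log (add_pos one_pos (one_div_pos.2 h0)) h2
      linarith

end GSQ
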