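import Pool.Agent.Work.MP_327059_nt.QF.StmtsA
import Pool.Agent.Work.MP_327059_nt.Bd.B05

/-!
# MP_327059_nt, second part: the estimate of the determinant polynomial, second form

Adaptation of `GSL.etwo`.
-/

set_option autoImplicit false

open Polynomial Filter Topology

namespace GSQ.E2

end GSQ.E2

open GSL GSL.E2 in
theorem GSQ.etwo (h0 : GSQ.StmtE0) (hcount : GSL.StmtCount) : GSQ.StmtE2 := by
  intro D CA ε hε hε1
  obtain ⟨C₂, S₀, hC₂, hS₀, hE0⟩ := h0 D CA
  have hpi := Real.pi_pos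
  have hpi3 := Real.pi_gt_three
  set e' : ℝ := ε / 10 ^ 6 with he'
  have he'0 : 0 < e' := by positivity
  have he'1 : e' ≤ 1 := by rw [he']; linarith
  set θ : ℝ := ε / 240 with hθd
  have hθ0 : 0 < θ := by positivity
  have hθ1 : θ < 1 := by rw [hθd]; linarith
  set q : ℝ := ε / 10 ^ 6 with hqd
  have hq0 : 0 < q := by positivity
  -- eventual facts
  have ev : ∀ᶠ S : ℕ in atTop, S₀ ≤ S ∧ C₂ ≤ Real.log S ∧ 1 ≤ Real.log S ∧
      (Real.pi * (S : ℝ) ^ 2 ≤ (1 + q) * ((circ S).card : ℝ) ∧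
        ((circ S).card : ℝ) ≤ (1 + q) * (Real.pi * (S : ℝ) ^ 2)) ∧
      100000 * C₂ / ε ≤ (S : ℝ) ^ 2 ∧ 100000 / ε ≤ (S : ℝ) ^ 2 ∧ 24 / (θ * ε) ≤ (S : ℝ) ^ 2 ∧
      C₂ * (8 / ε) ≤ (S : ℝ) ^ e' := by
    filter_upwards [eventually_ge_atTop S₀, ev_log C₂, ev_log 1, ev_card hcount hq0,
      ev_sq (100000 * C₂ / ε), ev_sq (100000 / ε), ev_sq (24 / (θ * ε)),
      ev_pow (C₂ * (8 / ε)) he'0] with S a1 a2 a3 a4 a5 a6 a7 a8
    exact ⟨a1, a2, a3, a4, a5, a6, a7, a8⟩
  obtain ⟨S₁, hS₁⟩ := eventually_atTop.1 ev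
  refine ⟨1, 1, S₁, one_pos, one_pos, fun S L₀ T hS hL1 hL2 hT e he OT AT hOT hAT hgood z hz0 hz1
    m hm1 hm30 y hy => ?_⟩
  obtain ⟨g0, gC, g1, ⟨gc1, gc2⟩, gs1, gs2, gs3, gE⟩ := hS₁ S hS
  set s : ℝ := (S : ℝ) with hs
  set l : ℝ := (L₀ : ℝ) with hl
  set lg : ℝ := Real.log s with hlg
  set n : ℝ := ((circ S).card : ℝ) with hn
  have hs2 : 1 ≤ s ^ 2 := le_trans (by rw [le_div_iff₀ hε]; linarith) gs2
  have hs0 : 0 < s := by
    rcases (Nat.cast_nonneg S : (0 : ℝ) ≤ S).eq_or_lt with h | h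
    · exfalso
      rw [hs, ← h] at hs2
      norm_num at hs2
    · exact h
  have hs1 : 1 ≤ s := by
    have : (1 : ℕ) ≤ S := by
      have : (0 : ℝ) < (S : ℝ) := hs0
      exact_mod_cast this
    rw [hs]
    exact_mod_cast this
  have hl0 : 0 < l := by
    have h1 : (0 : ℝ) < l * lg := lt_of_lt_of_le (by positivity) hL1
    exact pos_of_mul_pos_left h1 (by linarith)
  have hL₀ : 1 ≤ L₀ := by
    have : (0 : ℝ) < (L₀ : ℝ) := hl0
    exact_mod_cast this
  have hl1 : 1 ≤ l := by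
    rw [hl]
    exact_mod_cast hL₀
  have hn0 : 3 / 2 * s ^ 2 ≤ n := by
    have h1 : (1 + q) * n ≤ 2 * n := by
      refine mul_le_mul_of_nonneg_right ?_ (Nat.cast_nonneg _)
      rw [hqd]; linarith
    have h2 := mul_le_mul_of_nonneg_right hpi3.le (sq_nonneg s)
    linarith
  have hn1 : 1 ≤ n := by linarith
  set L : ℝ := l * n with hL
  have hLpos : 0 < L := by positivity
  have hLn : n ≤ L := by rw [hL]; exact le_mul_of_one_le_left (by linarith) hl1
  set V : ℝ := Vf S L₀ with hV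
  have hVe : V = 2 * Real.pi * s ^ 2 * l * lg := rfl
  have hVlg : s ^ 2 * (l * lg) ≤ V := by
    rw [hVe]
    have h1 : 0 ≤ s ^ 2 * (l * lg) := by positivity
    have h2 := mul_le_mul_of_nonneg_right (by linarith : (1 : ℝ) ≤ 2 * Real.pi) h1
    linarith
  have hlglg : lg ≤ l * lg := le_mul_of_one_le_left (by linarith) hl1
  have hVs : s ^ 2 * lg ≤ V := le_trans (mul_le_mul_of_nonneg_left hlglg (by positivity)) hVlg
  have hVs1 : s ^ 2 ≤ V := le_trans (le_mul_of_one_le_right (by positivity) g1) hVs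
  have hV0 : 0 < V := by linarith
  have hV4 : s ^ 2 * s ^ 2 ≤ V := by
    refine le_trans ?_ hVlg
    refine mul_le_mul_of_nonneg_left ?_ (by positivity)
    linarith
  -- the parameters
  set x : ℝ := (2 - e') * lg with hx
  have hx1 : lg ≤ x := by
    rw [hx]
    exact le_mul_of_one_le_left (by linarith) (by linarith)
  have hx2 : x ≤ 2 * lg := by
    rw [hx]
    exact mul_le_mul_of_nonneg_right (by linarith) (by linarith)
  have hx0 : 0 < x := by linarith
  set c : ℝ := C₂ * lg with hc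
  have hc0 : 0 ≤ c := by positivity
  have hcV : c / V ≤ ε / 100000 := by
    rw [div_le_iff₀ hV0]
    have h1 : 100000 * C₂ ≤ ε * s ^ 2 := by
      rw [div_le_iff₀ hε] at gs1
      linarith
    have h2 : 100000 * C₂ * lg ≤ ε * s ^ 2 * lg := mul_le_mul_of_nonneg_right h1 (by linarith)
    have h3 : ε * (s ^ 2 * lg) ≤ ε * V := mul_le_mul_of_nonneg_left hVs hε.le
    rw [hc]
    linarith
  have hy1 : 1 ≤ z * V - c := by
    have h1 : c ≤ ε / 100000 * V := by rwa [div_le_iff₀ hV0] at hcV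
    have h2 : 1 / 6000 * V ≤ z * V := mul_le_mul_of_nonneg_right hz0 hV0.le
    have h3 : 100000 ≤ s ^ 2 := le_trans (by rw [le_div_iff₀ hε]; linarith) gs2
    have h4 : ε / 100000 * V ≤ 1 / 100000 * V :=
      mul_le_mul_of_nonneg_right (by linarith) hV0.le
    linarith
  have hxL : V / (2 * x * L) ≤ 1 / 2 + q := by
    rw [div_le_iff₀ (by positivity), hVe, hx, hL]
    have h1 : Real.pi * s ^ 2 ≤ (1 + q) * n := gc1
    have h2 : 2 * Real.pi * s ^ 2 * l * lg ≤ 2 * ((1 + q) * n) * l * lg := by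
      have : 2 * (Real.pi * s ^ 2) ≤ 2 * ((1 + q) * n) := by linarith
      have h3 := mul_le_mul_of_nonneg_right (mul_le_mul_of_nonneg_right this hl0.le)
        (by linarith : (0 : ℝ) ≤ lg)
      linarith
    refine h2.trans ?_
    have h3 : 0 ≤ n * l * lg := by positivity
    have h4 : 2 * (1 + q) ≤ (1 / 2 + q) * (2 * (2 - e')) :=
      aux_q hq0.le (by rw [hqd]; linarith)
    have h5 := mul_le_mul_of_nonneg_right h4 h3
    calc 2 * ((1 + q) * n) * l * lg = 2 * (1 + q) * (n * l * lg) := by ring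
      _ ≤ (1 / 2 + q) * (2 * (2 - e')) * (n * l * lg) := h5
      _ = (1 / 2 + q) * (2 * ((2 - e') * lg) * (l * n)) := by ring
  have hcore := core L V x c z q θ m hLpos hV0 hx0 hc0 (by linarith) hz1 (by linarith) hq0.le
    hθ0.le hm30 hxL
  -- the estimate of E0
  have hOT' : OT ≤ S ^ 2 * (L₀ * (circ S).card) := by
    have h1 : (OT : ℝ) ≤ s ^ 2 * (l * n) := by
      refine hOT.trans ?_
      have : (1 + ε) / 2 ≤ 1 := by linarith
      have h2 : 0 ≤ s ^ 2 * (l * n) := by positivity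
      calc (1 + ε) / 2 * s ^ 2 * (l * n) = (1 + ε) / 2 * (s ^ 2 * (l * n)) := by ring
        _ ≤ 1 * (s ^ 2 * (l * n)) := mul_le_mul_of_nonneg_right this h2
        _ = _ := one_mul _
    have h2 : ((OT : ℕ) : ℝ) ≤ ((S ^ 2 * (L₀ * (circ S).card) : ℕ) : ℝ) := by
      push_cast
      exact h1
    exact_mod_cast h2
  have hT2 : (T : ℝ) ≤ 2 * l := hT.trans (mul_le_mul_of_nonneg_right (by linarith) hl0.le)
  have hE := hE0 S L₀ T g0 hL₀ (by linarith) hT2 e he OT AT hOT' hAT hgood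
    (z * V - c) (by linarith) y (by
      have : z * V - c + C₂ * Real.log S = z * V := by rw [hc, hlg]; ring
      rw [this]
      exact hy) (Real.exp x) (Real.one_lt_exp_iff.2 hx0) θ hθ0 hθ1 m
  rw [Real.log_exp] at hE
  refine hE.trans (Real.exp_le_exp.2 ?_)
  change L * (C₂ * s ^ 2 * Real.exp x + l / 2 * (lg + x + C₂) + (T : ℝ) ^ 2 / (2 * l) * (lg + C₂) +
    C₂ * lg + Real.log (1 + 1 / (θ * x)) + 2 * Real.log (1 + 1 / (θ * (z * V - c)))) -
    (1 - θ) * Kc L x (z * V - c) m ≤ -((Fj m z - ε) * (L * V))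
  -- the errors
  have r1 : C₂ * s ^ 2 * Real.exp x ≤ ε / 8 * V := by
    have h1 : Real.exp x = s ^ 2 / s ^ e' := by
      rw [hx, sub_mul, Real.exp_sub]
      congr 1
      · rw [two_mul, Real.exp_add, hlg, Real.exp_log hs0, sq]
      · rw [mul_comm, hlg, ← Real.rpow_def_of_pos hs0]
    have h2 : 0 < s ^ e' := Real.rpow_pos_of_pos hs0 _
    rw [h1, ← mul_div_assoc, div_le_iff₀ h2]
    have h3 : C₂ ≤ ε / 8 * s ^ e' := by
      have : C₂ * (8 / ε) * (ε / 8) = C₂ := by field_simp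
      rw [← this]
      have := mul_le_mul_of_nonneg_right gE (by positivity : (0 : ℝ) ≤ ε / 8)
      linarith
    calc C₂ * s ^ 2 * s ^ 2 = C₂ * (s ^ 2 * s ^ 2) := by ring
      _ ≤ C₂ * V := mul_le_mul_of_nonneg_left hV4 (by linarith)
      _ ≤ (ε / 8 * s ^ e') * V := mul_le_mul_of_nonneg_right h3 hV0.le
      _ = _ := by ring
  have hlV : l * lg ≤ ε / 100000 * V := by
    have h1 : 100000 ≤ ε * s ^ 2 := by
      rw [div_le_iff₀ hε] at gs2
      linarith
    have h2 : 0 ≤ l * lg := by positivity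
    have h3 : 100000 * (l * lg) ≤ ε * s ^ 2 * (l * lg) := mul_le_mul_of_nonneg_right h1 h2
    have h4 : ε * (s ^ 2 * (l * lg)) ≤ ε * V := mul_le_mul_of_nonneg_left hVlg hε.le
    linarith
  have r2 : l / 2 * (lg + x + C₂) ≤ 2 * (l * lg) := by
    have h1 : lg + x + C₂ ≤ 4 * lg := by linarith
    have h2 := mul_le_mul_of_nonneg_left h1 (by positivity : (0 : ℝ) ≤ l / 2)
    linarith
  have r3 : (T : ℝ) ^ 2 / (2 * l) * (lg + C₂) ≤ 4 * (l * lg) := by
    have h1 : (T : ℝ) ^ 2 / (2 * l) ≤ 2 * l := by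
      rw [div_le_iff₀ (by positivity)]
      have := pow_le_pow_left₀ (Nat.cast_nonneg T) hT2 2
      linarith
    have h2 : lg + C₂ ≤ 2 * lg := by linarith
    calc (T : ℝ) ^ 2 / (2 * l) * (lg + C₂) ≤ 2 * l * (2 * lg) :=
          mul_le_mul h1 h2 (by linarith) (by positivity)
      _ = _ := by ring
  have r4 : C₂ * lg ≤ ε / 100000 * V := by rwa [div_le_iff₀ hV0] at hcV
  have hθV : 3 / θ ≤ ε / 8 * V := by
    have h1 : 24 / (θ * ε) ≤ V := gs3.trans hVs1
    rw [div_le_iff₀ (by positivity)] at h1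
    rw [div_le_iff₀ hθ0]
    linarith
  have hlogle : ∀ w : ℝ, 1 ≤ w → Real.log (1 + 1 / (θ * w)) ≤ 1 / θ := by
    intro w hw
    have h1 : 0 < θ * w := by positivity
    have h2 := Real.log_le_sub_one_of_pos (x := 1 + 1 / (θ * w)) (by positivity)
    have h3 : 1 / (θ * w) ≤ 1 / θ := by
      refine one_div_le_one_div_of_le hθ0 ?_
      exact le_mul_of_one_le_right hθ0.le hw
    linarith
  have r5 := hlogle x (by linarith)
  have r6 := hlogle (z * V - c) hy1
  have e7 : 3 / θ = 1 / θ + 2 * (1 / θ) := by ring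
  have r7 : C₂ * s ^ 2 * Real.exp x + l / 2 * (lg + x + C₂) +
      (T : ℝ) ^ 2 / (2 * l) * (lg + C₂) + C₂ * lg + Real.log (1 + 1 / (θ * x)) +
      2 * Real.log (1 + 1 / (θ * (z * V - c))) ≤ (ε / 2) * V := by
    have h1 : 0 ≤ ε * V := by positivity
    linarith
  have r8 := mul_le_mul_of_nonneg_left r7 hLpos.le
  have r9 : 30 * θ + 30 * c / V + 76880 * q + 4960 / L ≤ ε / 2 := by
    have h1 : 4960 / L ≤ ε / 8 := by
      rw [div_le_iff₀ hLpos]
      have h2 : 100000 ≤ ε * s ^ 2 := by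
        rw [div_le_iff₀ hε] at gs2
        linarith
      have h3 : ε * s ^ 2 ≤ ε * L := mul_le_mul_of_nonneg_left (by linarith) hε.le
      linarith
    have h2 : 30 * c / V ≤ 30 * (ε / 100000) := by
      rw [mul_div_assoc]
      exact mul_le_mul_of_nonneg_left hcV (by norm_num)
    have h3 : 30 * θ = ε / 8 := by rw [hθd]; ring
    have h4 : 76880 * q ≤ ε / 8 := by rw [hqd]; linarith
    linarith
  have r10 := mul_le_mul_of_nonneg_right r9 (by positivity : (0 : ℝ) ≤ L * V)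
  linarith

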