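import Mathlib
import Pool.Agent.Work.MP_327059_nt.QF.StmtsA

/-!
# MP_327059_nt, second part: product of distances of lattice points in a disc
-/

set_option autoImplicit false

open Filter Topology

namespace GSQ

namespace Lat

/-- The lattice point. -/
noncomputable def pt (u₁ u₂ : ℂ) (p : ℤ × ℤ) : ℂ := p.1 * u₁ + p.2 * u₂

theorem circ_abs {S : ℕ} {p : ℤ × ℤ} (hp : p ∈ GSL.circ S) :
    (-(S : ℤ) ≤ p.1 ∧ p.1 ≤ S) ∧ (-(S : ℤ) ≤ p.2 ∧ p.2 ≤ S) := by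
  rw [GSL.circ, Finset.mem_filter, Finset.mem_product, Finset.mem_Icc, Finset.mem_Icc] at hp
  exact hp.1

/-- A set of integers whose differences are bounded by `R`. -/
theorem card_le_of_diff (F : Finset ℤ) {R : ℝ} (hR : 0 ≤ R)
    (h : ∀ a ∈ F, ∀ b ∈ F, (a : ℝ) - b ≤ R) : (F.card : ℝ) ≤ R + 1 := by
  rcases F.eq_empty_or_nonempty with rfl | hne
  · simp; linarith
  · have hsub : F ⊆ Finset.Icc (F.min' hne) (F.min' hne + ⌊R⌋₊) := by
      intro a ha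
      rw [Finset.mem_Icc]
      have h1 : F.min' hne ≤ a := F.min'_le a ha
      refine ⟨h1, ?_⟩
      have h2 := h a ha _ (F.min'_mem hne)
      have h3 : ((a - F.min' hne).toNat : ℤ) = a - F.min' hne := Int.toNat_of_nonneg (by omega)
      have h4 : (((a - F.min' hne).toNat : ℕ) : ℝ) = (a : ℝ) - (F.min' hne : ℤ) := by
        rw [← Int.cast_sub, ← h3]; norm_cast
      have h5 : (a - F.min' hne).toNat ≤ ⌊R⌋₊ := Nat.le_floor (by rw [h4]; exact h2)
      omega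
    have hc := Finset.card_le_card hsub
    rw [Int.card_Icc] at hc
    have e1 : (F.min' hne + (⌊R⌋₊ : ℤ) + 1 - F.min' hne).toNat = ⌊R⌋₊ + 1 := by omega
    rw [e1] at hc
    have hc' : (F.card : ℝ) ≤ (⌊R⌋₊ : ℝ) + 1 := by exact_mod_cast hc
    have hfl : (⌊R⌋₊ : ℝ) ≤ R := Nat.floor_le hR
    linarith

theorem near_card {u₁ u₂ : ℂ} (h1 : u₁ ≠ 0) (S : ℕ) (x : ℂ) {R : ℝ} (hR : 0 ≤ R)
    (F : Finset (ℤ × ℤ)) (hF : ∀ p ∈ F, p ∈ GSL.circ S ∧ ‖x - pt u₁ u₂ p‖ ≤ R) :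
    (F.card : ℝ) ≤ (2 * S + 1) * (2 * R / ‖u₁‖ + 1) := by
  have hu : 0 < ‖u₁‖ := norm_pos_iff.2 h1
  have hmap : ∀ p ∈ F, p.2 ∈ Finset.Icc (-(S : ℤ)) S := by
    intro p hp
    rw [Finset.mem_Icc]
    exact (circ_abs (hF p hp).1).2
  have hfib : ∀ b ∈ Finset.Icc (-(S : ℤ)) S,
      ((F.filter fun p => p.2 = b).card : ℝ) ≤ 2 * R / ‖u₁‖ + 1 := by
    intro b _
    have hinj : Set.InjOn Prod.fst ((F.filter fun p => p.2 = b : Finset (ℤ × ℤ)) : Set (ℤ × ℤ)) := by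
      intro p hp q hq hpq
      have h2 := (Finset.mem_filter.1 (Finset.mem_coe.1 hp)).2
      have h3 := (Finset.mem_filter.1 (Finset.mem_coe.1 hq)).2
      exact Prod.ext hpq (h2.trans h3.symm)
    rw [← Finset.card_image_of_injOn hinj]
    apply card_le_of_diff _ (by positivity)
    intro a ha a' ha'
    obtain ⟨p, hp, rfl⟩ := Finset.mem_image.1 ha
    obtain ⟨q, hq, rfl⟩ := Finset.mem_image.1 ha'
    obtain ⟨hp1, hp2⟩ := Finset.mem_filter.1 hp
    obtain ⟨hq1, hq2⟩ := Finset.mem_filter.1 hq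
    have e1 : pt u₁ u₂ p - pt u₁ u₂ q = ((p.1 : ℂ) - q.1) * u₁ := by
      unfold pt
      rw [hp2, hq2]
      ring
    have e2 : ‖pt u₁ u₂ p - pt u₁ u₂ q‖ ≤ 2 * R := by
      have e3 : pt u₁ u₂ p - pt u₁ u₂ q = (x - pt u₁ u₂ q) - (x - pt u₁ u₂ p) := by ring
      rw [e3]
      refine (norm_sub_le _ _).trans ?_
      linarith [(hF p hp1).2, (hF q hq1).2]
    rw [e1, norm_mul] at e2
    have e4 : ‖((p.1 : ℂ) - q.1)‖ = |(p.1 : ℝ) - q.1| := by
      have e5 : ((p.1 : ℂ) - q.1) = (((p.1 : ℝ) - q.1 : ℝ) : ℂ) := by push_cast; ring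
      rw [e5, Complex.norm_real, Real.norm_eq_abs]
    rw [e4] at e2
    rw [le_div_iff₀ hu]
    refine le_trans ?_ e2
    exact mul_le_mul_of_nonneg_right (le_abs_self _) hu.le
  have hsum : F.card = ∑ b ∈ Finset.Icc (-(S : ℤ)) S, (F.filter fun p => p.2 = b).card :=
    Finset.card_eq_sum_card_fiberwise hmap
  have hsum' : (F.card : ℝ) = ∑ b ∈ Finset.Icc (-(S : ℤ)) S,
      ((F.filter fun p => p.2 = b).card : ℝ) := by
    rw [hsum]; push_cast; rfl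
  rw [hsum']
  refine (Finset.sum_le_sum hfib).trans ?_
  rw [Finset.sum_const, Int.card_Icc, nsmul_eq_mul]
  have e5 : ((S : ℤ) + 1 - -(S : ℤ)).toNat = 2 * S + 1 := by omega
  rw [e5]
  push_cast
  exact le_rfl

theorem dist_low {u₁ u₂ : ℂ} {c : ℝ}
    (hc : ∀ a b : ℤ, (a ≠ 0 ∨ b ≠ 0) → c ≤ (|(a : ℝ)| + |(b : ℝ)|) * ‖(a * u₁ + b * u₂ : ℂ)‖)
    {S : ℕ} (hS : 1 ≤ S) {p q : ℤ × ℤ} (hp : p ∈ GSL.circ S) (hq : q ∈ GSL.circ S) (hne : q ≠ p) :
    c / (4 * S) ≤ ‖pt u₁ u₂ p - pt u₁ u₂ q‖ := by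
  have hS0 : (0 : ℝ) < S := by exact_mod_cast hS
  have h1 : p.1 - q.1 ≠ 0 ∨ p.2 - q.2 ≠ 0 := by
    by_contra hcon
    push Not at hcon
    exact hne (Prod.ext (by omega) (by omega))
  have h2 := hc _ _ h1
  obtain ⟨⟨a1, a2⟩, a3, a4⟩ := circ_abs hp
  obtain ⟨⟨b1, b2⟩, b3, b4⟩ := circ_abs hq
  have k1 : |((p.1 - q.1 : ℤ) : ℝ)| ≤ 2 * S := by
    have : |p.1 - q.1| ≤ 2 * S := by rw [abs_le]; constructor <;> omega
    exact_mod_cast this
  have k2 : |((p.2 - q.2 : ℤ) : ℝ)| ≤ 2 * S := by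
    have : |p.2 - q.2| ≤ 2 * S := by rw [abs_le]; constructor <;> omega
    exact_mod_cast this
  have e1 : (((p.1 - q.1 : ℤ) : ℂ) * u₁ + ((p.2 - q.2 : ℤ) : ℂ) * u₂ : ℂ) =
      pt u₁ u₂ p - pt u₁ u₂ q := by
    unfold pt
    push_cast
    ring
  rw [e1] at h2
  rw [div_le_iff₀ (by positivity)]
  refine h2.trans ?_
  rw [mul_comm]
  refine mul_le_mul_of_nonneg_left ?_ (norm_nonneg _)
  linarith

end Lat

theorem lat (hC : GSL.StmtCount) : StmtLat := by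
  intro u₁ u₂ hu ε hε hε1
  obtain ⟨c0, hc0, hlow⟩ := hu
  have hu1 : u₁ ≠ 0 := by
    rintro rfl
    have := hlow 1 0 (Or.inl one_ne_zero)
    simp at this
    linarith
  have hu1' : 0 < ‖u₁‖ := norm_pos_iff.2 hu1
  set K : ℝ := 3 * (2 / ‖u₁‖ + 1) with hK
  have hK3 : 3 ≤ K := by
    have : 0 < 2 / ‖u₁‖ := by positivity
    rw [hK]; linarith
  have ev1 : ∀ᶠ S : ℕ in atTop, (3 : ℝ) * (S : ℝ) ^ 2 ≤ ((GSL.circ S).card : ℝ) := by
    have h1 := hC.1.eventually (eventually_ge_nhds (show (3 : ℝ) < Real.pi from Real.pi_gt_three))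
    filter_upwards [h1, eventually_ge_atTop 1] with S hS hS1
    have : (0 : ℝ) < (S : ℝ) ^ 2 := by
      have : (0 : ℝ) < S := by exact_mod_cast hS1
      positivity
    rw [le_div_iff₀ this] at hS
    exact hS
  have ev2 : ∀ᶠ S : ℕ in atTop, Real.log (4 / c0) ≤ Real.log (S : ℝ) :=
    (Real.tendsto_log_atTop.comp tendsto_natCast_atTop_atTop).eventually_ge_atTop _
  have ev3 : ∀ᶠ S : ℕ in atTop, (S : ℝ) ^ (-(ε / 2)) ≤ 3 * ε / (8 * K) := by
    have h1 : Tendsto (fun S : ℕ => (S : ℝ) ^ (-(ε / 2))) atTop (𝓝 0) :=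
      (tendsto_rpow_neg_atTop (by positivity)).comp tendsto_natCast_atTop_atTop
    exact h1.eventually (eventually_le_nhds (show (0 : ℝ) < 3 * ε / (8 * K) by positivity))
  obtain ⟨S₁, hS₁⟩ := eventually_atTop.1 (ev1.and (ev2.and (ev3.and (eventually_ge_atTop 1))))
  refine ⟨S₁, fun S hS p hp => ?_⟩
  obtain ⟨g1, g2, g3, g4⟩ := hS₁ S hS
  have hS0 : (0 : ℝ) < S := by exact_mod_cast g4
  have hS1 : (1 : ℝ) ≤ S := by exact_mod_cast g4
  have hlog : 0 ≤ Real.log (S : ℝ) := Real.log_nonneg hS1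
  set A : ℝ := ((GSL.circ S).card : ℝ) with hA
  set R : ℝ := (S : ℝ) ^ (1 - ε / 2) with hR
  have hR1 : 1 ≤ R := Real.one_le_rpow hS1 (by linarith)
  have hR0 : 0 < R := by linarith
  classical
  set near : ℤ × ℤ → Prop := fun p' => ‖Lat.pt u₁ u₂ p - Lat.pt u₁ u₂ p'‖ ≤ R with hnear
  have hNc := Lat.near_card (u₂ := u₂) hu1 S (Lat.pt u₁ u₂ p) hR0.le
    (((GSL.circ S).erase p).filter near) (by
      intro q hq
      obtain ⟨h2, h3⟩ := Finset.mem_filter.1 hq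
      exact ⟨(Finset.mem_erase.1 h2).2, h3⟩)
  have hcS : 0 < c0 / (4 * S) := by positivity
  -- lower bound for the factors
  have hfac : ∀ p' ∈ (GSL.circ S).erase p, (if near p' then c0 / (4 * S) else R) ≤
      ‖(p.1 * u₁ + p.2 * u₂ : ℂ) - (p'.1 * u₁ + p'.2 * u₂)‖ := by
    intro p' hp'
    obtain ⟨hne, hp2⟩ := Finset.mem_erase.1 hp'
    split_ifs with h
    · exact Lat.dist_low hlow g4 hp hp2 hne
    · exact (not_le.1 h).le
  have hprod : ∏ p' ∈ (GSL.circ S).erase p, (if near p' then c0 / (4 * S) else R) ≤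
      ∏ p' ∈ (GSL.circ S).erase p, ‖(p.1 * u₁ + p.2 * u₂ : ℂ) - (p'.1 * u₁ + p'.2 * u₂)‖ := by
    refine Finset.prod_le_prod (fun p' _ => ?_) hfac
    split_ifs <;> positivity
  refine le_trans ?_ hprod
  rw [Finset.prod_ite, Finset.prod_const, Finset.prod_const]
  have hcardA : (((GSL.circ S).erase p).card : ℝ) = A - 1 := by
    rw [Finset.card_erase_of_mem hp, Nat.cast_sub (Finset.card_pos.2 ⟨p, hp⟩)]
    simp [hA]
  have hsplit : ((((GSL.circ S).erase p).filter near).card : ℝ) +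
      ((((GSL.circ S).erase p).filter fun p' => ¬ near p').card : ℝ) = A - 1 := by
    have h1 := Finset.card_filter_add_card_filter_not (s := (GSL.circ S).erase p) near
    rw [← hcardA]
    exact_mod_cast h1
  set n1 := (((GSL.circ S).erase p).filter near).card with hn1
  set n2 := (((GSL.circ S).erase p).filter fun p' => ¬ near p').card with hn2
  have e1 : (c0 / (4 * S)) ^ n1 * R ^ n2 = Real.exp ((n1 : ℝ) * (-Real.log (4 / c0) - Real.log S) +
      n2 * ((1 - ε / 2) * Real.log S)) := by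
    rw [Real.exp_add, Real.exp_nat_mul, Real.exp_nat_mul]
    congr 2
    · rw [← Real.log_inv, ← Real.log_div (by positivity) (by positivity), Real.exp_log (by positivity)]
      field_simp
    · rw [hR, Real.rpow_def_of_pos hS0, mul_comm]
  rw [e1]
  apply Real.exp_le_exp.2
  have hA3 : 3 * (S : ℝ) ^ 2 ≤ A := g1
  have hA0 : 0 ≤ A := Nat.cast_nonneg _
  have hSR : (S : ℝ) * R = (S : ℝ) ^ 2 * (S : ℝ) ^ (-(ε / 2)) := by
    rw [hR]
    conv_lhs => rw [← Real.rpow_one (S : ℝ)]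
    rw [← Real.rpow_mul hS0.le, one_mul, ← Real.rpow_add hS0, ← Real.rpow_natCast (S : ℝ) 2,
      ← Real.rpow_add hS0]
    congr 1
    push_cast
    ring
  have hKSR : K * (S * R) ≤ ε / 8 * A := by
    have h6 : S * R ≤ (S : ℝ) ^ 2 * (3 * ε / (8 * K)) := by
      rw [hSR]
      gcongr
    have h7 : K * (S * R) ≤ K * ((S : ℝ) ^ 2 * (3 * ε / (8 * K))) := by gcongr
    have h8 : K * ((S : ℝ) ^ 2 * (3 * ε / (8 * K))) = ε / 8 * (3 * (S : ℝ) ^ 2) := by
      have : K ≠ 0 := by linarith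
      field_simp
    rw [h8] at h7
    refine h7.trans ?_
    gcongr
  have hn1K : (n1 : ℝ) ≤ K * (S * R) := by
    refine hNc.trans ?_
    have h2 : (2 * (S : ℝ) + 1) ≤ 3 * S := by linarith
    have h3 : 2 * R / ‖u₁‖ + 1 ≤ (2 / ‖u₁‖ + 1) * R := by
      have : 2 * R / ‖u₁‖ = 2 / ‖u₁‖ * R := by ring
      rw [this]
      nlinarith
    calc (2 * (S : ℝ) + 1) * (2 * R / ‖u₁‖ + 1) ≤ (3 * S) * ((2 / ‖u₁‖ + 1) * R) := by
          gcongr
      _ = K * (S * R) := by rw [hK]; ring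
  have hone : 1 ≤ K * (S * R) := by
    have h2 : 1 ≤ (S : ℝ) * R := one_le_mul_of_one_le_of_one_le hS1 hR1
    nlinarith
  have hn1A : (n1 : ℝ) ≤ ε / 8 * A := hn1K.trans hKSR
  have h1A : 1 ≤ ε / 8 * A := hone.trans hKSR
  have hn1' : (n1 : ℝ) * (-Real.log (4 / c0) - Real.log S) ≥ -(ε / 8 * A * (2 * Real.log S)) := by
    have h2 : (n1 : ℝ) * (-Real.log (4 / c0) - Real.log S) ≥ (n1 : ℝ) * (-(2 * Real.log S)) :=
      mul_le_mul_of_nonneg_left (by linarith) (Nat.cast_nonneg _)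
    have h3 : (n1 : ℝ) * (2 * Real.log S) ≤ ε / 8 * A * (2 * Real.log S) :=
      mul_le_mul_of_nonneg_right hn1A (by positivity)
    linarith
  have hn2' : (n2 : ℝ) * ((1 - ε / 2) * Real.log S) ≥
      (A - ε / 4 * A) * ((1 - ε / 2) * Real.log S) := by
    have h7 : 0 ≤ (1 - ε / 2) * Real.log S := mul_nonneg (by linarith) hlog
    refine mul_le_mul_of_nonneg_right ?_ h7
    linarith
  have h8 : (A - ε / 4 * A) * ((1 - ε / 2) * Real.log S) ≥
      A * ((1 - 3 * ε / 4) * Real.log S) := by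
    have h9 : 0 ≤ A * Real.log S * ε ^ 2 := by positivity
    have h11 : (A - ε / 4 * A) * ((1 - ε / 2) * Real.log S) =
        A * ((1 - 3 * ε / 4) * Real.log S) + A * Real.log S * ε ^ 2 / 8 := by ring
    linarith
  have h10 : (1 - ε) * A * Real.log S = A * ((1 - 3 * ε / 4) * Real.log S) -
      ε / 8 * A * (2 * Real.log S) := by ring
  linarith

end GSQ
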