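import Pool.Agent.Work.MP_327059_nt.Bdx.B03
import Pool.Agent.Work.MP_327059_nt.Bdx.B05
import Pool.Agent.Work.MP_327059_nt.Bdx.B02
import Pool.Agent.Work.MP_327059_nt.QF.Lat
import Pool.Agent.Work.MP_327059_nt.Bdx.B04
import Pool.Agent.Work.MP_327059_nt.QF.E0
import Pool.Agent.Work.MP_327059_nt.QF.E1
import Pool.Agent.Work.MP_327059_nt.QF.E2
import Pool.Agent.Work.MP_327059_nt.QF.Diff
import Pool.Agent.Work.MP_327059_nt.Bd.B05
import Pool.Agent.Work.MP_327059_nt.Bd.B07
import Pool.Agent.Work.MP_327059_nt.Bd.B14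
import Pool.Agent.Work.MP_327059_nt.Cost
import Pool.Agent.Work.MP_327059_nt.Count
import Pool.Agent.Work.MP_327059_nt.Det

/-!
# MP_327059_nt, second part: assembly of the analytic part
-/

namespace GSQ

theorem hAlgF : StmtAlgF := algF
theorem hCD : StmtCD := cd map' sep
theorem hOT : StmtOT := ot GSL.count
theorem hHeight : StmtHeight := height GSL.lone GSL.count
theorem hHeightF : StmtHeightF := heightF map' hHeight
theorem hE0 : StmtE0 := ezero eval near GSL.det GSL.cost exp expbd
theorem hE1 : StmtE1 := eone hE0 hHeight GSL.lone GSL.count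
theorem hE2 : StmtE2 := etwo hE0 GSL.count
theorem hLat : StmtLat := lat GSL.count
theorem hHermLat : StmtHermLat := hermlat GSL.herm hLat GSL.count
theorem hDiff : StmtDiff := diff near
theorem hNV : StmtNV := nv GSL.count eval GSL.rank hDiff hHermLat GSL.interp GSL.coef
theorem hFamS : StmtFamS := fams hCD hOT hHeightF int hE1 hE2 hNV GSL.count
theorem hIfaceF : StmtIfaceF := ifaceF hFamS GSL.sel

end GSQ
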