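import Pool.Agent.Work.MP_327059_nt.Stmts

/-!
# MP_327059_nt, second part: `log α ∉ F(α^β)` for all quadratic integers `β` (real or not) and
number fields `F` containing `β`, `α` of degree at most `4` (at most `2` if `F` is real)

Definitions.
-/

open Polynomial

namespace GSQ

/-! ### Arithmetic over a number field -/

/-- `1` if the embedding is real, `2` otherwise. -/
noncomputable def nphi {F : Type} [Field F] (φ : F →+* ℂ) : ℕ :=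
  open Classical in if (starRingEnd ℂ).comp φ = φ then 1 else 2

/-- `g` is the primitive integer polynomial proportional to the norm of the monic polynomial
`Q`. -/
structure IsNG {F : Type} [Field F] [NumberField F] (Q : F[X]) (g : ℤ[X]) : Prop where
  prim : g.IsPrimitive
  pos : 0 < g.leadingCoeff
  eq : g.map (Int.castRingHom ℂ) = C (g.leadingCoeff : ℂ) * ∏ τ : F →+* ℂ, Q.map τ

/-- The logarithmic size of the monic polynomial `Q` (`[F : ℚ]` times the absolute height):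
`log` of the leading coefficient of `g` plus the sum of `log⁺` over the roots of all
conjugates. -/
noncomputable def hF {F : Type} [Field F] [NumberField F] (Q : F[X]) (g : ℤ[X]) : ℝ :=
  Real.log g.leadingCoeff +
    ∑ τ : F →+* ℂ, ((Q.map τ).roots.map fun x => Real.posLog ‖x‖).sum

/-- The families of small polynomials. -/
structure FamF {F : Type} [Field F] [NumberField F] (φ : F →+* ℂ) (Y : ℂ) (ε δ σ V L : ℝ)
    (D : Finset F[X]) : Prop where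
  coeff : ∀ P ∈ D, ∀ i, IsIntegral ℤ (P.coeff i)
  deg : ∀ P ∈ D, (P.natDegree : ℝ) ≤ (1 + ε) * L * δ
  height : ∀ P ∈ D, ∀ τ : F →+* ℂ, GSL.l1 (P.map τ) ≤ Real.exp ((1 + ε) * L * σ)
  card : (D.card : ℝ) ≤ Real.exp (ε * L * σ)
  E1 : ∀ P ∈ D, ∀ s : ℝ, 0 ≤ s → s ≤ (1 - ε) * V / 4096 → ∀ y : ℂ, ‖y - Y‖ ≤ Real.exp (-s) →
    ‖(P.map φ).eval y‖ ≤ Real.exp (L * ((1 + ε) * σ + ε * s) - 104 / 5 * (L * s))
  E2 : ∀ P ∈ D, ∀ z : ℝ, 1 / 5000 ≤ z → z ≤ 1 → ∀ m : ℕ, 1 ≤ m → m ≤ 30 →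
    ∀ y : ℂ, ‖y - Y‖ ≤ Real.exp (-(z * V)) →
      ‖(P.map φ).eval y‖ ≤ Real.exp (-((GSL.Fj m z - ε) * (L * V)))
  NV : ∀ γ : ℂ, ‖γ - Y‖ ≤ Real.exp (-((1 + ε) * V)) → ∃ P ∈ D, (P.map φ).eval γ ≠ 0

/-- The output of the analytic part: families for all large `V` and all `ρ = σ/δ` in a range. -/
def IfaceF {F : Type} [Field F] [NumberField F] (φ : F →+* ℂ) (Y : ℂ) : Prop :=
  ∀ ε : ℝ, 0 < ε → ε < 1 → ∃ C c V₀ : ℝ, 0 < C ∧ 0 < c ∧ 1 < V₀ ∧ ∀ V ρ : ℝ, V₀ ≤ V → C ≤ ρ →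
    ρ ≤ c * Real.log V → ∃ (L : ℝ) (D : Finset F[X]), 1 ≤ L ∧
      FamF φ Y ε (Real.sqrt (V / (2 * Real.pi * ρ))) (Real.sqrt (V * ρ / (2 * Real.pi))) V L D

/-- The concave piecewise linear function of the last step: its slopes on the successive
intervals between `0, 4^(-6), 4^(-5), …, 1` are `31, 25/2, 17/2, 9/2, 2, 1, 1/2` (and `0` after
`1`). -/
noncomputable def Psi (u : ℝ) : ℝ :=
  1 / 2 * min 1 u + 1 / 2 * min (1 / 4) u + 1 * min (1 / 16) u + 5 / 2 * min (1 / 64) u +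
    4 * min (1 / 256) u + 4 * min (1 / 1024) u + 37 / 2 * min (1 / 4096) u

/-- The lower bounds for the exponent in the estimates of the members of the families at
relative closeness `q`. -/
def Gn (q v : ℝ) : Prop :=
  (q ≤ 1 / 4096 ∧ v ≤ 41 / 2 * q) ∨
    (1 / 4096 ≤ q ∧ ∃ m : ℕ, 1 ≤ m ∧ m ≤ 28 ∧ v + 1 / 1000000 ≤ GSL.Fj m q)

/-- The output of the generic combinations: `G` is the gcd of the family, `G * P i` (up to a
constant) are `M` generic combinations of its members. -/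
structure Out {F : Type} [Field F] [NumberField F] (φ : F →+* ℂ) (Y : ℂ) (ε δ σ V L : ℝ)
    (M : ℕ) (G : F[X]) (g : ℤ[X]) (P : Fin M → F[X]) (h : Fin M → ℤ[X]) : Prop where
  Gm : G.Monic
  Gng : IsNG G g
  Pm : ∀ i, (P i).Monic
  Png : ∀ i, IsNG (P i) (h i)
  cop : ∀ i j, i ≠ j → IsCoprime (P i) (P j)
  deg : ∀ i, (G.natDegree : ℝ) + (P i).natDegree ≤ (1 + ε) * L * δ
  ht : ∀ i, hF G g + hF (P i) (h i) ≤ (1 + ε) * Module.finrank ℚ F * L * σ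
  Gne : ∀ x ∈ (G.map φ).roots, x ≠ Y ∧ GSL.cl Y x ≤ (1 + ε) * V
  Pne : ∀ i, ∀ x ∈ ((P i).map φ).roots, x ≠ Y
  jen : ∀ i, ∀ z : ℝ, 1 / 5000 ≤ z → z ≤ 1 → ∀ m : ℕ, 1 ≤ m → m ≤ 30 →
    (GSL.Fj m z - ε) * (L * V) ≤
      ((G.map φ).roots.map fun x => min (z * V) (GSL.cl Y x)).sum +
        (((P i).map φ).roots.map fun x => min (z * V) (GSL.cl Y x)).sum

/-! ### The interpolation determinants -/

/-- The frequency `μ + ν β`. -/
def wv {R : Type} [CommRing R] (β : R) (p : ℤ × ℤ) : R := p.1 + p.2 * β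

/-- The point `(a' - t b) + b β` of `q = (b, a')`. -/
def zv {R : Type} [CommRing R] (t : ℤ) (β : R) (q : ℤ × ℤ) : R := (q.2 - t * q.1) + q.1 * β

/-- The polynomial entries. -/
noncomputable def cp {R : Type} [CommRing R] (β : R) (t : ℤ) (A₀ B₀ : R[X]) {S L₀ T : ℕ}
    (r : GSL.Ix S L₀) (s : GSL.Ix S T) : R[X] :=
  ∑ k ∈ Finset.range ((s.1 : ℕ) + 1),
    C (((s.1 : ℕ).choose k : R) * ((r.1 : ℕ).descFactorial k : R) *
      zv t β s.2.1 ^ ((r.1 : ℕ) - k) * wv β r.2.1 ^ ((s.1 : ℕ) - k)) *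
      B₀ ^ ((s.1 : ℕ) - k) * A₀ ^ k

/-- The determinant as a polynomial; `e` chooses the columns, `OT` and `AT` bound the exponents
of `Y` and `α`. -/
noncomputable def DP {R : Type} [CommRing R] (β : R) (t n : ℤ) (a₁ a₂ : R) (A₀ B₀ : R[X])
    {S L₀ T : ℕ} (e : GSL.Ix S L₀ → GSL.Ix S T) (OT AT : ℕ) : R[X] :=
  ∑ π : Equiv.Perm (GSL.Ix S L₀), C (((Equiv.Perm.sign π : ℤ)) : R) *
    (∏ r, cp β t A₀ B₀ r (e (π r))) *
    X ^ ((OT : ℤ) + ∑ r, GSL.Bf r.2.1 (e (π r)).2.1).toNat *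
    C (a₁ ^ ((AT : ℤ) + ∑ r, GSL.Af t n r.2.1 (e (π r)).2.1).toNat *
      a₂ ^ ((AT : ℤ) - ∑ r, GSL.Af t n r.2.1 (e (π r)).2.1).toNat)

/-- The exponents are bounded by `OT`, `AT`. -/
def Good (t n : ℤ) {S L₀ T : ℕ} (e : GSL.Ix S L₀ → GSL.Ix S T) (OT AT : ℕ) : Prop :=
  ∀ π : Equiv.Perm (GSL.Ix S L₀), |∑ r, GSL.Bf r.2.1 (e (π r)).2.1| ≤ (OT : ℤ) ∧
    |∑ r, GSL.Af t n r.2.1 (e (π r)).2.1| ≤ (AT : ℤ)

/-- A weak separation property of the lattice `ℤ u₁ + ℤ u₂`. -/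
def Sep (u₁ u₂ : ℂ) : Prop :=
  ∃ c : ℝ, 0 < c ∧ ∀ a b : ℤ, (a ≠ 0 ∨ b ≠ 0) → c ≤ (|(a : ℝ)| + |(b : ℝ)|) * ‖(a * u₁ + b * u₂ : ℂ)‖

/-- The complex data: `β² = t β - n`, `e^l = a₁ / a₂`, `l = B₀(Y) / A₀(Y)` with `Y = e^{β l}`.
The algebraic conjugate of `β` is `t - β`. -/
structure CDat where
  β : ℂ
  l : ℂ
  t : ℤ
  n : ℤ
  a₁ : ℂ
  a₂ : ℂ
  A₀ : ℂ[X]
  B₀ : ℂ[X]
  quad : β ^ 2 = t * β - n
  sep : Sep 1 β
  l_ne : l ≠ 0
  a₁_ne : a₁ ≠ 0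
  a₂_ne : a₂ ≠ 0
  exp_l : Complex.exp l = a₁ / a₂
  A₀_ne : A₀.eval (Complex.exp (β * l)) ≠ 0
  l_eq : l = B₀.eval (Complex.exp (β * l)) / A₀.eval (Complex.exp (β * l))

/-- `Y = e^{β l}`. -/
noncomputable def CDat.Y (D : CDat) : ℂ := Complex.exp (D.β * D.l)

/-- The entries of the matrix as functions of `X`, `Y`. -/
noncomputable def CDat.ent (D : CDat) (X Y : ℂ) {S L₀ T : ℕ} (r : GSL.Ix S L₀)
    (s : GSL.Ix S T) : ℂ :=
  GSL.ent0 X (wv D.β r.2.1) (zv D.t D.β s.2.1) r.1 s.1 *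
    ((D.a₁ / D.a₂) ^ (GSL.Af D.t D.n r.2.1 s.2.1) * Y ^ (GSL.Bf r.2.1 s.2.1))

/-- The determinant polynomial of the data. -/
noncomputable def CDat.DP (D : CDat) {S L₀ T : ℕ} (e : GSL.Ix S L₀ → GSL.Ix S T) (OT AT : ℕ) :
    ℂ[X] := GSQ.DP D.β D.t D.n D.a₁ D.a₂ D.A₀ D.B₀ e OT AT

/-- The data over a number field `F` with an embedding `φ`. -/
structure DatF (F : Type) [Field F] [NumberField F] where
  φ : F →+* ℂ
  l : ℂ
  t : ℤ
  n : ℤ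
  β : F
  a₁ : F
  a₂ : F
  A₀ : F[X]
  B₀ : F[X]
  quad : β ^ 2 = t * β - n
  irr : ∀ r : ℚ, β ≠ r
  l_ne : l ≠ 0
  a₁_int : IsIntegral ℤ a₁
  a₂_int : IsIntegral ℤ a₂
  a₁_ne : a₁ ≠ 0
  a₂_ne : a₂ ≠ 0
  exp_l : Complex.exp l = φ a₁ / φ a₂
  A₀_int : ∀ i, IsIntegral ℤ (A₀.coeff i)
  B₀_int : ∀ i, IsIntegral ℤ (B₀.coeff i)
  A₀_ne : (A₀.map φ).eval (Complex.exp (φ β * l)) ≠ 0
  l_eq : l = (B₀.map φ).eval (Complex.exp (φ β * l)) / (A₀.map φ).eval (Complex.exp (φ β * l))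

/-- `Y = e^{β l}`. -/
noncomputable def DatF.Y {F : Type} [Field F] [NumberField F] (D : DatF F) : ℂ :=
  Complex.exp (D.φ D.β * D.l)

/-- The determinant polynomial over `F`. -/
noncomputable def DatF.DP {F : Type} [Field F] [NumberField F] (D : DatF F) {S L₀ T : ℕ}
    (e : GSL.Ix S L₀ → GSL.Ix S T) (OT AT : ℕ) : F[X] :=
  GSQ.DP D.β D.t D.n D.a₁ D.a₂ D.A₀ D.B₀ e OT AT

/-- Coefficients of the expansion of the entries (function side), `m = (a, b, c)`; `w'` is the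
conjugate of `w`. -/
noncomputable def Pc (l' ε' w w' : ℂ) (lam : ℕ) (m : ℕ × ℕ × ℕ) : ℂ :=
  if m.2.2 ≤ lam ∧ lam - m.2.2 ≤ m.1 then
    (lam.choose m.2.2 : ℂ) * ((w * l') ^ (m.1 - (lam - m.2.2)) /
      ((m.1 - (lam - m.2.2)).factorial : ℂ)) *
      ((w' * ε') ^ m.2.1 / (m.2.1.factorial : ℂ))
  else 0

/-- Coefficients of the expansion of the entries (functional side). -/
noncomputable def Qc (s ζ ζ' : ℂ) (tau : ℕ) (m : ℕ × ℕ × ℕ) : ℂ :=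
  if m.2.2 ≤ tau ∧ tau - m.2.2 ≤ m.1 then
    (tau.descFactorial m.2.2 : ℂ) * (1 - s) ^ m.2.2 * s ^ (tau - m.2.2) *
      (m.1.descFactorial (tau - m.2.2) : ℂ) * ζ ^ (m.1 - (tau - m.2.2)) *
      ζ' ^ m.2.1
  else 0

end GSQ
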